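import Pool.Agent.Lib.MP_435399_an.A1.Main

set_option autoImplicit false

open MeasureTheory Set Metric Real Complex Filter Topology ComplexConjugate

namespace Pool.Agent.Lib.MP_435399_an.A1

lemma ann_step {μ : Measure (ℂ × ℂ)} [SFinite μ] (hμ : ∀ᵐ q ∂μ, ‖q.1‖ < 1 ∧ ‖q.2‖ < 1)
    {ν : ℂ × ℂ → ENNReal} (hν : Measurable ν) {δ : ℝ} (h0 : 0 < δ) (h1 : δ < 1) :
    ∫⁻ l in {w : ℂ | ‖w‖ ∈ Icc (1 - δ) (1 - δ / 2)}, ∫⁻ q, (Po l q.1 + Po l q.2) * ν q ∂μ ≤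
      ENNReal.ofReal (π * δ) * ∫⁻ q, (Mb (1 - δ) q.1 + Mb (1 - δ) q.2) * ν q ∂μ := by
  set A := {w : ℂ | ‖w‖ ∈ Icc (1 - δ) (1 - δ / 2)} with hA
  have m1 : Measurable fun x : ℂ × (ℂ × ℂ) => Po x.1 x.2.1 :=
    measurable_Po measurable_fst measurable_snd.fst
  have m2 : Measurable fun x : ℂ × (ℂ × ℂ) => Po x.1 x.2.2 :=
    measurable_Po measurable_fst measurable_snd.snd
  have m3 : Measurable fun x : ℂ × (ℂ × ℂ) => (Po x.1 x.2.1 + Po x.1 x.2.2) * ν x.2 :=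
    (m1.add m2).mul (hν.comp measurable_snd)
  have m4 : ∀ u : ℂ, Measurable fun l => Po l u := fun u =>
    measurable_Po measurable_id measurable_const
  have s3 : ∫⁻ l in A, ∫⁻ q, (Po l q.1 + Po l q.2) * ν q ∂μ =
      ∫⁻ q, (∫⁻ l in A, (Po l q.1 + Po l q.2) * ν q) ∂μ :=
    lintegral_lintegral_swap (f := fun l q => (Po l q.1 + Po l q.2) * ν q) m3.aemeasurable
  have s5 : ∀ u : ℂ, ‖u‖ < 1 → ∫⁻ l in A, Po l u ≤ ENNReal.ofReal (π * δ) * Mb (1 - δ) u := by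
    intro u hu
    unfold Mb
    rw [← ENNReal.ofReal_mul (by positivity)]
    refine (pois hu (by linarith) (by linarith) (by linarith)).trans (ENNReal.ofReal_le_ofReal ?_)
    refine mul_le_mul_of_nonneg_right (mul_le_mul_of_nonneg_left (by nlinarith) pi_pos.le) ?_
    refine le_min zero_le_one (div_nonneg (by linarith) (by positivity))
  rw [s3, ← lintegral_const_mul' _ _ ENNReal.ofReal_ne_top]
  refine lintegral_mono_ae ?_
  filter_upwards [hμ] with q hq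
  have m5 : Measurable fun l => Po l q.1 + Po l q.2 := (m4 _).add (m4 _)
  rw [lintegral_mul_const _ m5, lintegral_add_left (m4 _), ← mul_assoc, mul_add]
  exact mul_le_mul_left (add_le_add (s5 _ hq.1) (s5 _ hq.2)) _

lemma ann_small {μ : Measure (ℂ × ℂ)} [SFinite μ] (hμ : ∀ᵐ q ∂μ, ‖q.1‖ < 1 ∧ ‖q.2‖ < 1)
    {ν : ℂ × ℂ → ENNReal} (hν : Measurable ν) (hfin : ∫⁻ q, ν q ∂μ ≠ ⊤) {e : ℝ} (he : 0 < e) :
    ∀ᶠ δ in 𝓝[>] (0 : ℝ), ∫⁻ l in {w : ℂ | ‖w‖ ∈ Icc (1 - δ) (1 - δ / 2)},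
      ∫⁻ q, (Po l q.1 + Po l q.2) * ν q ∂μ ≤ ENNReal.ofReal (e * δ) := by
  have hM : ∀ u : ℂ, Tendsto (fun δ : ℝ => Mb (1 - δ) u) (𝓝[>] 0) (𝓝 0) := fun u => by
    have h1 : Tendsto (fun δ : ℝ => min 1 (2 * (1 - (1 - δ)) / (1 - ‖u‖) ^ 2)) (𝓝[>] 0)
        (𝓝 (min 1 (2 * (1 - (1 - 0)) / (1 - ‖u‖) ^ 2))) :=
      Tendsto.mono_left (Continuous.tendsto (by fun_prop) 0) nhdsWithin_le_nhds
    simpa [Mb] using ENNReal.tendsto_ofReal h1
  have hM1 : ∀ s u, Mb s u ≤ 1 := fun s u => ENNReal.ofReal_le_one.mpr (min_le_left _ _)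
  have t1 : Tendsto (fun δ : ℝ => ∫⁻ q, (Mb (1 - δ) q.1 + Mb (1 - δ) q.2) * ν q ∂μ) (𝓝[>] 0)
      (𝓝 (∫⁻ _, 0 ∂μ)) := by
    refine tendsto_lintegral_filter_of_dominated_convergence (fun q => (1 + 1) * ν q)
      (Eventually.of_forall fun n => (((measurable_Mb _).comp measurable_fst).add
        ((measurable_Mb _).comp measurable_snd)).mul hν)
      (Eventually.of_forall fun n => Eventually.of_forall fun q =>
        mul_le_mul_left (add_le_add (hM1 _ _) (hM1 _ _)) _) ?_ ?_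
    · rw [lintegral_const_mul _ hν]
      exact ENNReal.mul_ne_top (by simp) hfin
    · filter_upwards [ae_lt_top hν hfin] with q hq
      simpa using ENNReal.Tendsto.mul_const ((hM q.1).add (hM q.2)) (Or.inr hq.ne)
  rw [lintegral_zero] at t1
  have h2 : (0 : ENNReal) < ENNReal.ofReal (e / π) := ENNReal.ofReal_pos.mpr (by positivity)
  filter_upwards [t1.eventually (gt_mem_nhds h2), Ioo_mem_nhdsGT (zero_lt_one' ℝ)] with δ h3 h4
  refine (ann_step hμ hν h4.1 h4.2).trans ((mul_le_mul_right h3.le _).trans (le_of_eq ?_))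
  have := h4.1
  rw [← ENNReal.ofReal_mul (by positivity)]
  congr 1
  field_simp

lemma ann_small' {μ : Measure (ℂ × ℂ)} [SFinite μ] (hμ : ∀ᵐ q ∂μ, ‖q.1‖ < 1 ∧ ‖q.2‖ < 1)
    {ν : ℂ × ℂ → ENNReal} (hν : AEMeasurable ν μ) (hfin : ∫⁻ q, ν q ∂μ ≠ ⊤) {e : ℝ} (he : 0 < e) :
    ∀ᶠ δ in 𝓝[>] (0 : ℝ), ∫⁻ l in {w : ℂ | ‖w‖ ∈ Icc (1 - δ) (1 - δ / 2)},
      ∫⁻ q, (Po l q.1 + Po l q.2) * ν q ∂μ ≤ ENNReal.ofReal (e * δ) := by
  filter_upwards [ann_small hμ hν.measurable_mk (by rwa [← lintegral_congr_ae hν.ae_eq_mk]) he]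
    with δ h
  refine le_trans (le_of_eq (lintegral_congr fun l => lintegral_congr_ae ?_)) h
  filter_upwards [hν.ae_eq_mk] with q hq
  rw [hq]

lemma gg_le {ψ : ℂ → ℂ} (hψ : Measurable ψ) {B : ℝ} (hB : 0 ≤ B) {l : ℂ} (hl : ‖l‖ < 1) :
    ENNReal.ofReal (B * (1 - ‖l‖) * ‖gg ψ (conj l)‖) ≤
      ∫⁻ q, (Po l q.1 + Po l q.2) * (ENNReal.ofReal B * ‖ψ q.1‖ₑ) ∂(μD.prod μD) := by
  have h0 : 0 < 1 - ‖l‖ := by linarith
  have h1 : ENNReal.ofReal (B * (1 - ‖l‖) * ‖gg ψ (conj l)‖) ≤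
      ∫⁻ u, Po l u * (ENNReal.ofReal B * ‖ψ u‖ₑ) ∂μD := by
    rw [ENNReal.ofReal_mul (by positivity), ofReal_norm]
    refine (mul_le_mul_right (enorm_integral_le_lintegral_enorm _) _).trans ?_
    rw [← lintegral_const_mul' _ _ ENNReal.ofReal_ne_top]
    refine lintegral_mono fun u => ?_
    unfold Po
    rw [← ofReal_norm, ← ofReal_norm, ← ENNReal.ofReal_mul (by positivity),
      ← ENNReal.ofReal_mul hB, ← ENNReal.ofReal_mul
        (div_nonneg (by nlinarith [norm_nonneg l]) (by positivity))]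
    refine ENNReal.ofReal_le_ofReal ?_
    rw [norm_mul, norm_inv, norm_pow]
    have h2 : 1 - ‖l‖ ≤ 1 - ‖l‖ ^ 2 := by nlinarith [norm_nonneg l]
    calc _ = (1 - ‖l‖) * (B * ‖ψ u‖ * (‖1 - conj l * u‖ ^ 2)⁻¹) := by ring
      _ ≤ (1 - ‖l‖ ^ 2) * (B * ‖ψ u‖ * (‖1 - conj l * u‖ ^ 2)⁻¹) :=
        mul_le_mul_of_nonneg_right h2 (by positivity)
      _ = _ := by ring
  have hm : Measurable fun u => Po l u * (ENNReal.ofReal B * ‖ψ u‖ₑ) :=
    (measurable_Po measurable_const measurable_id).mul (hψ.enorm.const_mul _)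
  have h3 := lintegral_prod_mul (μ := μD) (ν := μD) hm.aemeasurable
    (g := fun _ : ℂ => (1 : ENNReal)) aemeasurable_const
  have h4 : (1 : ENNReal) ≤ ∫⁻ _, 1 ∂μD := by
    rw [lintegral_const, one_mul, Measure.restrict_apply_univ, Complex.volume_ball]
    simp only [ENNReal.ofReal_one, one_pow, one_mul, ENNReal.one_le_coe_iff]
    rw [← NNReal.coe_le_coe]
    simpa using (show (1 : ℝ) ≤ π by linarith [pi_gt_three])
  refine h1.trans ((le_mul_of_one_le_right' h4).trans (h3.ge.trans (lintegral_mono fun q => ?_)))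
  rw [mul_one]
  exact mul_le_mul_left le_self_add _

lemma gg_growth {ψ : ℂ → ℂ} (hψ : Integrable ψ μD) {a : ℂ} (ha : ‖a‖ < 1) :
    (1 - ‖a‖) ^ 2 * ‖gg ψ a‖ ≤ ∫ w, ‖ψ w‖ ∂μD := by
  have h0 : 0 < 1 - ‖a‖ := by linarith
  have h1 : ‖gg ψ a‖ ≤ ∫ w, ‖ψ w‖ * ((1 - ‖a‖) ^ 2)⁻¹ ∂μD := by
    refine norm_integral_le_of_norm_le (hψ.norm.mul_const _) ?_
    filter_upwards [ae_ball] with w hw
    rw [norm_mul]
    exact mul_le_mul_of_nonneg_left (norm_kernel_le ha hw.le) (norm_nonneg _)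
  rw [integral_mul_const, ← div_eq_mul_inv, le_div_iff₀ (by positivity), mul_comm] at h1
  exact h1

/-- The Wronskian of the limit at a reflected point. -/
lemma wr_pt {z : ℕ → ℂ} (hz : ∀ n, ‖z n‖ < 1) {g H : ℂ → ℂ}
    (hgd : DifferentiableOn ℂ g (ball 0 1)) (hgz : ∀ n, g (z n) = 0)
    (S : ℕ → Finset ℕ) (c : ℕ → ℕ → ℂ)
    (hloc : TendstoLocallyUniformlyOn (fun j l => π * ∑ n ∈ S j, c j n * dslope g (z n) l) H atTop
      (ball 0 1)) :
    DifferentiableOn ℂ H (ball 0 1) ∧ ∀ w L : ℂ, 1 < ‖w‖ → (∀ n, z n * w ≠ 1) →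
      Tendsto (fun j => comb z (S j) (c j) w) atTop (𝓝 L) →
      deriv H w⁻¹ * g w⁻¹ - H w⁻¹ * deriv g w⁻¹ = -(π * (g w⁻¹) ^ 2 * w ^ 2) * L := by
  have hz' : ∀ n, z n ∈ ball (0 : ℂ) 1 := fun n => mem_ball_zero_iff.mpr (hz n)
  have hdsd : ∀ l ∈ ball (0 : ℂ) 1, DifferentiableOn ℂ (dslope g l) (ball 0 1) :=
    fun l hl => (Complex.differentiableOn_dslope (isOpen_ball.mem_nhds hl)).mpr hgd
  set Hj : ℕ → ℂ → ℂ := fun j l => π * ∑ n ∈ S j, c j n * dslope g (z n) l with hHj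
  have hHjd : ∀ j, DifferentiableOn ℂ (Hj j) (ball 0 1) := fun j =>
    (DifferentiableOn.fun_sum fun n _ => (hdsd _ (hz' n)).const_mul _).const_mul _
  have hloc' := hloc.deriv (Eventually.of_forall hHjd) isOpen_ball
  refine ⟨hloc.differentiableOn (Eventually.of_forall hHjd) isOpen_ball, ?_⟩
  intro w L hw hnp hlim
  set l := w⁻¹ with hl
  have hw0 : w ≠ 0 := by
    intro h0; rw [h0, norm_zero] at hw; linarith
  have hlb : l ∈ ball (0 : ℂ) 1 := by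
    rw [mem_ball_zero_iff, hl, norm_inv]
    exact inv_lt_one_of_one_lt₀ hw
  have hne : ∀ n, l - z n ≠ 0 := by
    intro n h0
    apply hnp n
    rw [← sub_eq_zero.mp h0, hl, inv_mul_cancel₀ hw0]
  have hgl : HasDerivAt g (deriv g l) l :=
    (hgd.differentiableAt (isOpen_ball.mem_nhds hlb)).hasDerivAt
  have hval : ∀ n, dslope g (z n) l = g l / (l - z n) := by
    intro n
    rw [dslope_of_ne _ (sub_ne_zero.mp (hne n)), slope_def_field, hgz, sub_zero]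
  have hder : ∀ n, HasDerivAt (dslope g (z n))
      ((deriv g l * (l - z n) - g l * 1) / (l - z n) ^ 2) l := by
    intro n
    refine (hgl.div ((hasDerivAt_id l).sub_const (z n)) (hne n)).congr_of_eventuallyEq ?_
    filter_upwards [isOpen_ne.mem_nhds (sub_ne_zero.mp (hne n))] with u hu
    rw [dslope_of_ne _ hu, slope_def_field, hgz, sub_zero]
    rfl
  have hj : ∀ j, deriv (Hj j) l * g l - Hj j l * deriv g l
      = -(π * (g l) ^ 2 * w ^ 2) * comb z (S j) (c j) w := by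
    intro j
    have := ((HasDerivAt.fun_sum (u := S j) fun n _ =>
      (hder n).const_mul (c j n)).const_mul (π : ℂ)).deriv
    simp only [hHj]
    rw [this]
    simp only [hval, comb, Finset.mul_sum, Finset.sum_mul, ← Finset.sum_sub_distrib]
    refine Finset.sum_congr rfl fun n _ => ?_
    have e : 1 - z n * w = (l - z n) * w := by
      rw [sub_mul, hl, inv_mul_cancel₀ hw0]
    rw [e]
    have := hne n
    field_simp
    ring
  have t1 : Tendsto (fun j => deriv (Hj j) l * g l - Hj j l * deriv g l) atTop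
      (𝓝 (deriv H l * g l - H l * deriv g l)) :=
    ((hloc'.tendsto_at hlb).mul_const _).sub ((hloc.tendsto_at hlb).mul_const _)
  have t2 : Tendsto (fun j => deriv (Hj j) l * g l - Hj j l * deriv g l) atTop
      (𝓝 (-(π * (g l) ^ 2 * w ^ 2) * L)) := by
    simp_rw [hj]
    exact hlim.const_mul _
  exact tendsto_nhds_unique t1 t2

end Pool.Agent.Lib.MP_435399_an.A1
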