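import Mathlib
import Pool.Agent.Lib.MP_435399_an.LocMain

set_option autoImplicit false

open MeasureTheory Set Metric Real Complex Filter Topology ComplexConjugate

namespace Pool.Agent.Lib.MP_435399_an.A1

/-- The positive kernel of Forelli and Rudin. -/
noncomputable def KK (z w : ℂ) : ENNReal :=
  ENNReal.ofReal ((1 - ‖w‖ ^ 2) / ‖1 - conj w * z‖ ^ 3)

/-- The function of `b` that is transported to the circle. -/
noncomputable def TW (l z b : ℂ) : ℂ :=
  (b / ((1 - b * z) ^ 2 * (1 - conj l * z)) + conj l / ((1 - b * z) * (1 - conj l * z) ^ 2)) /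
    (1 - b * l)

/-- `2 * TW + b * TW'`. -/
noncomputable def SW (l z b : ℂ) : ℂ :=
  2 * b / ((1 - b * z) ^ 3 * (1 - conj l * z) * (1 - b * l)) +
    conj l / ((1 - b * z) ^ 2 * (1 - conj l * z) ^ 2 * (1 - b * l)) +
    b / ((1 - b * z) ^ 2 * (1 - conj l * z) * (1 - b * l) ^ 2) +
    conj l / ((1 - b * z) * (1 - conj l * z) ^ 2 * (1 - b * l) ^ 2)

/-- The divided difference of two kernels. -/
noncomputable def TV (m z b : ℂ) : ℂ :=
  z / ((1 - b * z) * (1 - m * z) ^ 2) + z / ((1 - b * z) ^ 2 * (1 - m * z))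

/-- `2 * TV + b * TV'`. -/
noncomputable def SV (m z b : ℂ) : ℂ :=
  z * (1 / (1 - b * z) + 1 / (1 - b * z) ^ 2) / (1 - m * z) ^ 2 +
    2 * z / ((1 - b * z) ^ 3 * (1 - m * z))

lemma measurable_KK : Measurable fun q : ℂ × ℂ => KK q.1 q.2 := by
  unfold KK
  exact Measurable.ennreal_ofReal (by fun_prop)

end Pool.Agent.Lib.MP_435399_an.A1
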