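import Pool.Agent.Lib.MP_435399_an.A1.Defs

set_option autoImplicit false

open MeasureTheory Set Metric Real Complex Filter Topology ComplexConjugate

namespace Pool.Agent.Lib.MP_435399_an.A1

lemma dual_hb {E : Type*} [NormedAddCommGroup E] [NormedSpace ℂ E] (M : Submodule ℂ E) (U : E)
    {δ : ℝ} (hδ : 0 < δ) (h : ∀ m ∈ M, δ ≤ ‖U - m‖) :
    ∃ φ : E →L[ℂ] ℂ, (∀ v, ‖φ v‖ ≤ ‖v‖) ∧ (∀ m ∈ M, φ m = 0) ∧ φ U ≠ 0 := by
  obtain ⟨g, hg1, hg2⟩ := exists_dual_vector'' ℂ (Submodule.Quotient.mk U : E ⧸ M)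
  refine ⟨g.comp M.mkQL, fun v => ?_, fun m hm => ?_, fun h0 => ?_⟩
  · calc ‖g (Submodule.Quotient.mk v)‖ ≤ ‖g‖ * ‖(Submodule.Quotient.mk v : E ⧸ M)‖ :=
          g.le_opNorm _
      _ ≤ 1 * ‖v‖ := by
          gcongr
          exact Submodule.Quotient.norm_mk_le M v
      _ = _ := one_mul _
  · change g (Submodule.Quotient.mk m) = 0
    rw [(Submodule.Quotient.mk_eq_zero M).2 hm, map_zero]
  · change g (Submodule.Quotient.mk U) = 0 at h0
    rw [hg2] at h0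
    have h1 : ‖(Submodule.Quotient.mk U : E ⧸ M)‖ = 0 := RCLike.ofReal_eq_zero.1 h0
    obtain ⟨v, hv1, hv2⟩ := Submodule.Quotient.norm_mk_lt (Submodule.Quotient.mk U : E ⧸ M) hδ
    have h2 := h (U - v) ((Submodule.Quotient.eq M).1 hv1.symm)
    rw [sub_sub_cancel] at h2
    linarith

lemma dual_riesz {α : Type*} [MeasurableSpace α] (μ : Measure α) [IsFiniteMeasure μ] {q : ENNReal}
    [hq1 : Fact (1 ≤ q)] (hq : q ≤ 2) (φ : Lp ℂ q μ →L[ℂ] ℂ) :
    ∃ ψ : α → ℂ, Measurable ψ ∧ MemLp ψ 2 μ ∧ ∀ (f : α → ℂ) (hf : MemLp f 2 μ),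
      ∫ w, ψ w * f w ∂μ = φ ((hf.mono_exponent hq).toLp f) := by
  let ι : Lp ℂ 2 μ →ₗ[ℂ] Lp ℂ q μ :=
    { toFun := fun f => ((Lp.memLp f).mono_exponent hq).toLp f
      map_add' := fun f g => by
        rw [← MemLp.toLp_add]
        exact MemLp.toLp_congr _ _ (Lp.coeFn_add f g)
      map_smul' := fun c f => by
        rw [RingHom.id_apply, ← MemLp.toLp_const_smul]
        exact MemLp.toLp_congr _ _ (Lp.coeFn_smul c f) }
  have hq0 : q ≠ ⊤ := ne_top_of_le_ne_top (by simp) hq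
  have he : 0 ≤ 1 / q.toReal - 1 / (2 : ENNReal).toReal := by
    have h1 : 0 < q.toReal := ENNReal.toReal_pos (zero_lt_one.trans_le hq1.out).ne' hq0
    have h2 : q.toReal ≤ (2 : ENNReal).toReal := ENNReal.toReal_mono (by simp) hq
    exact sub_nonneg.2 (one_div_le_one_div_of_le h1 h2)
  have hC : μ univ ^ (1 / q.toReal - 1 / (2 : ENNReal).toReal) ≠ ⊤ :=
    ENNReal.rpow_ne_top_of_nonneg he (measure_ne_top _ _)
  let ι' : Lp ℂ 2 μ →L[ℂ] Lp ℂ q μ := ι.mkContinuous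
    (μ univ ^ (1 / q.toReal - 1 / (2 : ENNReal).toReal)).toReal fun f => by
      change ‖((Lp.memLp f).mono_exponent hq).toLp f‖ ≤ _
      rw [Lp.norm_toLp, Lp.norm_def, ← ENNReal.toReal_mul, mul_comm]
      exact ENNReal.toReal_mono (ENNReal.mul_ne_top (Lp.eLpNorm_ne_top f) hC)
        (eLpNorm_le_eLpNorm_mul_rpow_measure_univ hq (Lp.aestronglyMeasurable f))
  let g : Lp ℂ 2 μ := (InnerProductSpace.toDual ℂ (Lp ℂ 2 μ)).symm (φ.comp ι')
  have hg := Lp.aestronglyMeasurable g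
  have hm : Measurable fun w => conj (hg.mk g w) :=
    Complex.continuous_conj.measurable.comp hg.stronglyMeasurable_mk.measurable
  refine ⟨fun w => conj (hg.mk g w), hm, ?_, fun f hf => ?_⟩
  · refine (Lp.memLp g).of_le hm.aestronglyMeasurable ?_
    filter_upwards [hg.ae_eq_mk] with w hw
    rw [← hw, Complex.norm_conj]
  · have h1 : inner ℂ g (hf.toLp f) = φ (ι' (hf.toLp f)) :=
      InnerProductSpace.toDual_symm_apply
    have h2 : ι' (hf.toLp f) = (hf.mono_exponent hq).toLp f :=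
      MemLp.toLp_congr ((Lp.memLp (hf.toLp f)).mono_exponent hq) _ hf.coeFn_toLp
    rw [← h2, ← h1, L2.inner_def]
    refine integral_congr_ae ?_
    filter_upwards [hg.ae_eq_mk, hf.coeFn_toLp] with w hw hw'
    rw [← hw, hw', RCLike.inner_apply, mul_comm]

lemma dual_bound {α : Type*} [MeasurableSpace α] (μ : Measure α) [IsFiniteMeasure μ] {p : ℝ}
    (hp : 0 < p) {ψ : α → ℂ} (hψ : Measurable ψ) (hψ2 : MemLp ψ 2 μ)
    (hb : ∀ f : α → ℂ, MemLp f 2 μ → ‖∫ w, ψ w * f w ∂μ‖ₑ ≤ eLpNorm f (ENNReal.ofReal p) μ)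
    (G : α → ENNReal) (hG : Measurable G) :
    ∫⁻ w, ‖ψ w‖ₑ * G w ∂μ ≤ (∫⁻ w, G w ^ p ∂μ) ^ (1 / p) := by
  have e1 : ∀ w, ‖ψ w‖ₑ * G w = ⨆ n : ℕ, ‖ψ w‖ₑ * min (G w) n := fun w => by
    rw [← ENNReal.mul_iSup]
    congr 1
    change _ = ⨆ n : ℕ, G w ⊓ n
    rw [← inf_iSup_eq, ENNReal.iSup_natCast, inf_top_eq]
  simp only [e1]
  rw [lintegral_iSup (f := fun (n : ℕ) w => ‖ψ w‖ₑ * min (G w) n)
    (fun n => hψ.enorm.mul (hG.min measurable_const))
    (fun n m hnm w => by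
      dsimp only
      gcongr)]
  refine iSup_le fun n => ?_
  have ht : ∀ w, min (G w) n ≠ ⊤ := fun w =>
    ne_top_of_le_ne_top (ENNReal.natCast_ne_top n) (min_le_right _ _)
  let t : α → ℝ := fun w => (min (G w) n).toReal
  have tm : Measurable t := (hG.min measurable_const).ennreal_toReal
  have t0 : ∀ w, 0 ≤ t w := fun w => ENNReal.toReal_nonneg
  let f : α → ℂ := fun w => (t w : ℂ) * (conj (ψ w) / (‖ψ w‖ : ℂ))
  have fm : Measurable f := (Complex.measurable_ofReal.comp tm).mul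
    ((Complex.continuous_conj.measurable.comp hψ).div (Complex.measurable_ofReal.comp hψ.norm))
  have fl : ∀ w, ‖f w‖ ≤ t w := fun w => by
    simp only [f, norm_mul, norm_div, Complex.norm_conj, Complex.norm_real, norm_norm,
      Real.norm_of_nonneg (t0 w)]
    exact mul_le_of_le_one_right (t0 w) (div_self_le_one _)
  have f2 : MemLp f 2 μ := MemLp.of_bound fm.aestronglyMeasurable n (Eventually.of_forall fun w =>
    (fl w).trans (by
      simpa using ENNReal.toReal_mono (ENNReal.natCast_ne_top n) (min_le_right (G w) n)))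
  have e2 : ∀ w, ψ w * f w = ((‖ψ w‖ * t w : ℝ) : ℂ) := fun w => by
    by_cases h0 : ψ w = 0
    · simp [h0]
    · have h1 : (‖ψ w‖ : ℂ) ≠ 0 := by simpa using h0
      have h2 := Complex.mul_conj' (ψ w)
      simp only [f]
      push_cast
      field_simp
      rw [mul_right_comm, h2]
      ring
  have hi : Integrable (fun w => ψ w * f w) μ := hψ2.integrable_mul f2
  have e3 : ∫⁻ w, ‖ψ w‖ₑ * min (G w) n ∂μ = ‖∫ w, ψ w * f w ∂μ‖ₑ := by
    have h1 : ∀ w, ‖ψ w * f w‖ = ‖ψ w‖ * t w := fun w => by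
      rw [e2, Complex.norm_real, Real.norm_of_nonneg (mul_nonneg (norm_nonneg _) (t0 w))]
    have h2 : ∀ w, ‖ψ w‖ₑ * min (G w) n = ‖ψ w * f w‖ₑ := fun w => by
      rw [← ofReal_norm (ψ w * f w), h1, ENNReal.ofReal_mul (norm_nonneg _),
        ofReal_norm, ENNReal.ofReal_toReal (ht w)]
    simp only [h2]
    rw [← ofReal_integral_norm_eq_lintegral_enorm hi, ← ofReal_norm]
    simp only [h1]
    simp only [e2]
    rw [integral_complex_ofReal, Complex.norm_real, Real.norm_of_nonneg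
      (integral_nonneg fun w => mul_nonneg (norm_nonneg _) (t0 w))]
  rw [e3]
  refine (hb f f2).trans ?_
  rw [eLpNorm_eq_lintegral_rpow_enorm_toReal (by simpa using hp) ENNReal.ofReal_ne_top,
    ENNReal.toReal_ofReal hp.le]
  gcongr with w
  rw [← ofReal_norm]
  refine (ENNReal.ofReal_le_ofReal (fl w)).trans ?_
  rw [ENNReal.ofReal_toReal (ht w)]
  exact min_le_left _ _

theorem exists_psi {p : ℝ} (hp1 : 1 ≤ p) (hp2 : p ≤ 2) (k : ℕ → ℂ → ℂ)
    (hk : ∀ n, MemLp (k n) 2 μD) {u : ℂ → ℂ} (hu : MemLp u (ENNReal.ofReal p) μD) {ε : ℝ}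
    (hε : 0 < ε)
    (hfar : ∀ (s : Finset ℕ) (a : ℕ → ℂ), ε ≤ ∫ w, ‖u w - ∑ n ∈ s, a n * k n w‖ ^ p ∂μD) :
    ∃ ψ : ℂ → ℂ, Measurable ψ ∧
      (∀ G : ℂ → ENNReal, Measurable G →
        ∫⁻ w, ‖ψ w‖ₑ * G w ∂μD ≤ (∫⁻ w, G w ^ p ∂μD) ^ (1 / p)) ∧
      (∀ n, ∫ w, ψ w * k n w ∂μD = 0) ∧ ∫ w, ψ w * u w ∂μD ≠ 0 := by
  have hp : 0 < p := by linarith
  have hq1 : Fact (1 ≤ ENNReal.ofReal p) := ⟨ENNReal.one_le_ofReal.2 hp1⟩
  have hq : ENNReal.ofReal p ≤ 2 := by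
    rw [← ENNReal.ofReal_ofNat]
    exact ENNReal.ofReal_le_ofReal hp2
  have hq0 : ENNReal.ofReal p ≠ 0 := by simpa using hp
  let K : ℕ → Lp ℂ (ENNReal.ofReal p) μD := fun n => ((hk n).mono_exponent hq).toLp (k n)
  obtain ⟨φ, φ1, φ2, φ3⟩ := dual_hb (Submodule.span ℂ (range K)) (hu.toLp u)
    (Real.rpow_pos_of_pos hε p⁻¹) (fun m hm => by
      obtain ⟨c, rfl⟩ := Finsupp.mem_span_range_iff_exists_finsupp.1 hm
      have h1 : ⇑(hu.toLp u - c.sum fun i a => a • K i) =ᵐ[μD]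
          fun w => u w - ∑ n ∈ c.support, c n * k n w := by
        have h2 : ∀ᵐ w ∂μD, ∀ n, (c n • K n) w = c n * k n w := ae_all_iff.2 fun n => by
          filter_upwards [Lp.coeFn_smul (c n) (K n), ((hk n).mono_exponent hq).coeFn_toLp] with
            w h h'
          rw [h, Pi.smul_apply, h', smul_eq_mul]
        filter_upwards [Lp.coeFn_sub (hu.toLp u) (c.sum fun i a => a • K i), hu.coeFn_toLp,
          Lp.coeFn_fun_finsetSum c.support fun n => c n • K n, h2] with w a1 a2 a3 a4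
        rw [a1, Pi.sub_apply, a2, Finsupp.sum, a3, Finset.sum_congr rfl fun n _ => a4 n]
      have h3 := (memLp_congr_ae h1).1 (Lp.memLp _)
      rw [Lp.norm_def, eLpNorm_congr_ae h1,
        h3.eLpNorm_eq_integral_rpow_norm hq0 ENNReal.ofReal_ne_top, ENNReal.toReal_ofReal hp.le,
        ENNReal.toReal_ofReal (by positivity)]
      exact Real.rpow_le_rpow hε.le (hfar _ _) (by positivity))
  obtain ⟨ψ, ψ1, ψ2, ψ3⟩ := dual_riesz μD hq φ
  have hφ : ∀ (f : ℂ → ℂ) (hf : MemLp f (ENNReal.ofReal p) μD),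
      ‖φ (hf.toLp f)‖ₑ ≤ eLpNorm f (ENNReal.ofReal p) μD := fun f hf => by
    rw [← Lp.enorm_toLp hf, ← ofReal_norm, ← ofReal_norm]
    exact ENNReal.ofReal_le_ofReal (φ1 _)
  have hB := dual_bound μD hp ψ1 ψ2 fun f hf => by
    rw [ψ3 f hf]
    exact hφ f _
  have hL : ∀ f : ℂ → ℂ, AEStronglyMeasurable f μD →
      ∫⁻ w, ‖ψ w * f w‖ₑ ∂μD ≤ eLpNorm f (ENNReal.ofReal p) μD := fun f hf => by
    rw [eLpNorm_congr_ae hf.ae_eq_mk,
      eLpNorm_eq_lintegral_rpow_enorm_toReal hq0 ENNReal.ofReal_ne_top,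
      ENNReal.toReal_ofReal hp.le]
    refine le_trans (le_of_eq (lintegral_congr_ae ?_))
      (hB _ hf.stronglyMeasurable_mk.measurable.enorm)
    filter_upwards [hf.ae_eq_mk] with w hw
    rw [enorm_mul, hw]
  have hI : ∀ f : ℂ → ℂ, MemLp f (ENNReal.ofReal p) μD →
      Integrable (fun w => ψ w * f w) μD := fun f hf =>
    ⟨ψ1.aestronglyMeasurable.mul hf.1, (hL f hf.1).trans_lt hf.2⟩
  refine ⟨ψ, ψ1, hB, fun n => ?_, fun h0 => φ3 ?_⟩
  · rw [ψ3 _ (hk n)]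
    exact φ2 _ (Submodule.subset_span ⟨n, rfl⟩)
  · rw [← enorm_eq_zero, ← nonpos_iff_eq_zero]
    refine ENNReal.le_of_forall_pos_le_add fun η hη _ => ?_
    obtain ⟨g, g1, g2⟩ := hu.exists_simpleFunc_eLpNorm_sub_lt ENNReal.ofReal_ne_top
      (ε := (η : ENNReal) / 2) (by simpa using hη.ne')
    have g3 : MemLp g 2 μD := g.memLp_of_isFiniteMeasure 2 μD
    have e1 : φ (hu.toLp u) = φ ((hu.sub g2).toLp (u - g)) - ∫ w, ψ w * (u - ⇑g) w ∂μD := by
      have e2 : ∫ w, ψ w * (u - ⇑g) w ∂μD = ∫ w, ψ w * u w ∂μD - ∫ w, ψ w * g w ∂μD := by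
        rw [← integral_sub (hI u hu) (hI g g2)]
        simp only [Pi.sub_apply, mul_sub]
      rw [e2, h0, ψ3 g g3, MemLp.toLp_sub hu g2, map_sub]
      ring
    rw [e1, zero_add, ← ENNReal.add_halves (η : ENNReal)]
    refine (enorm_sub_le).trans (add_le_add ((hφ _ _).trans g1.le) ?_)
    exact (enorm_integral_le_lintegral_enorm _).trans ((hL _ (hu.sub g2).1).trans g1.le)

end Pool.Agent.Lib.MP_435399_an.A1
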