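import Pool.Agent.Lib.MP_435399_an.A1.Defs

set_option autoImplicit false

open MeasureTheory Set Metric Real Complex Filter Topology ComplexConjugate

namespace Pool.Agent.Lib.MP_435399_an.A1

section general

variable {α : Type*} [MeasurableSpace α] {μ : Measure α} [IsFiniteMeasure μ] {P : ENNReal}
  [Fact (1 ≤ P)]

open Classical in
/-- The indicator function of a set as an element of `Lp`. -/
noncomputable def daInd (μ : Measure α) [IsFiniteMeasure μ] (P : ENNReal) (E : Set α) :
    Lp ℂ P μ :=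
  if h : MeasurableSet E then indicatorConstLp P h (measure_ne_top μ E) (1 : ℂ) else 0

omit [Fact (1 ≤ P)] in
lemma daInd_eq {E : Set α} (h : MeasurableSet E) :
    daInd μ P E = indicatorConstLp P h (measure_ne_top μ E) (1 : ℂ) := dif_pos h

omit [Fact (1 ≤ P)] in
lemma daInd_sum {f : ℕ → Set α} (hf : ∀ i, MeasurableSet (f i))
    (hd : Pairwise (Function.onFun Disjoint f)) (s : Finset ℕ) :
    ∑ i ∈ s, daInd μ P (f i) = daInd μ P (⋃ i ∈ s, f i) := by
  classical
  induction s using Finset.induction_on with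
  | empty =>
    simp only [Finset.sum_empty, Finset.notMem_empty, iUnion_of_empty, iUnion_empty]
    rw [daInd_eq MeasurableSet.empty]
    exact indicatorConstLp_empty.symm
  | insert a s ha ih =>
    have hm : MeasurableSet (⋃ i ∈ s, f i) := Finset.measurableSet_biUnion s fun i _ => hf i
    have hdis : Disjoint (f a) (⋃ i ∈ s, f i) := by
      simp only [disjoint_iUnion_right]
      intro i hi
      exact hd (fun h => ha (h ▸ hi))
    rw [Finset.sum_insert ha, ih, Finset.set_biUnion_insert, daInd_eq (hf a), daInd_eq hm,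
      daInd_eq ((hf a).union hm)]
    exact (indicatorConstLp_disjoint_union (hf a) hm _ _ hdis _).symm

/-- The `Lp`-valued measure `E ↦ 1_E`. -/
noncomputable def daVM (μ : Measure α) [IsFiniteMeasure μ] (P : ENNReal) [Fact (1 ≤ P)]
    (hP : P ≠ ⊤) : VectorMeasure α (Lp ℂ P μ) where
  measureOf' := daInd μ P
  empty' := by
    rw [daInd_eq MeasurableSet.empty]
    exact indicatorConstLp_empty
  not_measurable' := fun _ hi => dif_neg hi
  m_iUnion' := by
    intro f hf hd
    have hm : ∀ s : Finset ℕ, MeasurableSet (⋃ i ∈ s, f i) :=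
      fun s => Finset.measurableSet_biUnion s fun i _ => hf i
    have hU : MeasurableSet (⋃ i, f i) := MeasurableSet.iUnion hf
    have ht : Tendsto (fun s : Finset ℕ => ∑ i ∈ s, daInd μ P (f i)) atTop
        (𝓝 (daInd μ P (⋃ i, f i))) := by
      simp_rw [daInd_sum hf hd, fun s => daInd_eq (μ := μ) (P := P) (hm s), daInd_eq hU]
      refine tendsto_indicatorConstLp_set hP ?_
      have h1 := tendsto_measure_iInter_atTop (μ := μ)
        (s := fun s : Finset ℕ => (⋃ i, f i) \ ⋃ i ∈ s, f i)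
        (fun s => (hU.diff (hm s)).nullMeasurableSet)
        (fun s t hst => sdiff_subset_sdiff_right (biUnion_subset_biUnion_left hst))
        ⟨∅, measure_ne_top _ _⟩
      have h2 : (⋂ s : Finset ℕ, (⋃ i, f i) \ ⋃ i ∈ s, f i) = ∅ := by
        ext x
        simp only [mem_iInter, Set.mem_sdiff, mem_iUnion, mem_empty_iff_false, iff_false, not_forall]
        by_cases hx : ∃ i, x ∈ f i
        · obtain ⟨i, hi⟩ := hx
          exact ⟨{i}, fun h => h.2 ⟨i, Finset.mem_singleton_self i, hi⟩⟩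
        · exact ⟨∅, fun h => hx h.1⟩
      rw [h2, measure_empty] at h1
      refine h1.congr fun s => ?_
      simp only [Function.comp]
      congr 1
      rw [symmDiff_comm, symmDiff_of_ge]
      exact iUnion₂_subset fun i _ => subset_iUnion f i
    exact ht

lemma da_density_real (hP : P ≠ ⊤) (φ : Lp ℂ P μ →L[ℝ] ℝ) :
    ∃ r : α → ℝ, Measurable r ∧ Integrable r μ ∧
      ∀ E, MeasurableSet E → ∫ x in E, r x ∂μ = φ (daInd μ P E) := by
  let s : SignedMeasure α := (daVM μ P hP).mapRange φ.toLinearMap.toAddMonoidHom φ.continuous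
  have hs : ∀ E, s E = φ (daInd μ P E) := fun E => rfl
  have hac : s ≪ᵥ μ.toENNRealVectorMeasure := by
    refine VectorMeasure.AbsolutelyContinuous.mk fun E hE h0 => ?_
    rw [Measure.toENNRealVectorMeasure_apply_measurable hE] at h0
    have : daInd μ P E = 0 := by
      rw [daInd_eq hE]
      ext1
      have hae : ∀ᵐ x ∂μ, x ∉ E := measure_eq_zero_iff_ae_notMem.mp h0
      filter_upwards [indicatorConstLp_coeFn_notMem (p := P) (hs := hE)
        (hμs := measure_ne_top μ E) (c := (1 : ℂ)), hae, Lp.coeFn_zero ℂ P μ] with x h1 h2 h3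
      rw [h1 h2, h3]; rfl
    rw [hs, this, map_zero]
  refine ⟨s.rnDeriv μ, s.measurable_rnDeriv μ, s.integrable_rnDeriv μ, fun E hE => ?_⟩
  rw [← hs, ← withDensityᵥ_apply (s.integrable_rnDeriv μ) hE,
    SignedMeasure.withDensityᵥ_rnDeriv_eq s μ hac]

lemma da_density (hP : P ≠ ⊤) (φ : Lp ℂ P μ →L[ℂ] ℂ) :
    ∃ ψ : α → ℂ, Measurable ψ ∧ Integrable ψ μ ∧
      ∀ E, MeasurableSet E → ∫ x in E, ψ x ∂μ = φ (daInd μ P E) := by
  obtain ⟨r1, m1, i1, e1⟩ := da_density_real hP (Complex.reCLM.comp (φ.restrictScalars ℝ))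
  obtain ⟨r2, m2, i2, e2⟩ := da_density_real hP (Complex.imCLM.comp (φ.restrictScalars ℝ))
  refine ⟨fun x => (r1 x : ℂ) + (r2 x : ℂ) * I, by fun_prop,
    i1.ofReal.add (i2.ofReal.mul_const _), fun E hE => ?_⟩
  have j1 : Integrable (fun x => (r1 x : ℂ)) (μ.restrict E) := i1.integrableOn.ofReal
  have j2 : Integrable (fun x => (r2 x : ℂ) * I) (μ.restrict E) :=
    (i2.integrableOn.ofReal (𝕜 := ℂ)).mul_const _
  rw [integral_add j1 j2, integral_mul_const, integral_complex_ofReal, integral_complex_ofReal,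
    e1 E hE, e2 E hE]
  exact Complex.re_add_im _

/-- A continuous functional on `Lp` is integration against its density. -/
lemma da_rep (hP : P ≠ ⊤) (φ : Lp ℂ P μ →L[ℂ] ℂ) {ψ : α → ℂ} (hi : Integrable ψ μ)
    (hE : ∀ E, MeasurableSet E → ∫ x in E, ψ x ∂μ = φ (daInd μ P E))
    {f : α → ℂ} (hfm : Measurable f) (hf : MemLp f P μ)
    (hint : Integrable (fun x => ψ x * f x) μ) : φ (hf.toLp f) = ∫ x, ψ x * f x ∂μ := by
  have hsi : ∀ s : SimpleFunc α ℂ, Integrable (fun x => ψ x * s x) μ := by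
    intro s
    obtain ⟨C, hC⟩ := s.exists_forall_norm_le
    exact hi.mul_bdd (c := C) s.aestronglyMeasurable (Eventually.of_forall hC)
  have hs : ∀ s : SimpleFunc α ℂ,
      φ ((s.memLp_of_isFiniteMeasure P μ).toLp s) = ∫ x, ψ x * s x ∂μ := by
    intro s
    induction s using SimpleFunc.induction with
    | @const c E hEm =>
      have e1 : (((SimpleFunc.piecewise E hEm (SimpleFunc.const _ c)
          (SimpleFunc.const _ 0)).memLp_of_isFiniteMeasure P μ).toLp _ : Lp ℂ P μ)
          = c • daInd μ P E := by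
        rw [daInd_eq hEm]
        ext1
        filter_upwards [MemLp.coeFn_toLp ((SimpleFunc.piecewise E hEm (SimpleFunc.const _ c)
          (SimpleFunc.const _ 0)).memLp_of_isFiniteMeasure P μ),
          Lp.coeFn_smul c (indicatorConstLp P hEm (measure_ne_top μ E) (1 : ℂ)),
          indicatorConstLp_coeFn (p := P) (hs := hEm) (hμs := measure_ne_top μ E) (c := (1 : ℂ))]
          with x h1 h2 h3
        rw [h1, h2, Pi.smul_apply, h3]
        by_cases hx : x ∈ E <;> simp [hx]
      rw [e1, map_smul, ← hE E hEm, smul_eq_mul, ← integral_const_mul, ← integral_indicator hEm]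
      refine integral_congr_ae (Eventually.of_forall fun x => ?_)
      by_cases hx : x ∈ E <;> simp [hx, mul_comm]
    | @add s t _ h1 h2 =>
      have e1 : (((s + t).memLp_of_isFiniteMeasure P μ).toLp _ : Lp ℂ P μ)
          = (s.memLp_of_isFiniteMeasure P μ).toLp s + (t.memLp_of_isFiniteMeasure P μ).toLp t := by
        rw [← MemLp.toLp_add]
        rfl
      rw [e1, map_add, h1, h2, ← integral_add (hsi s) (hsi t)]
      refine integral_congr_ae (Eventually.of_forall fun x => ?_)
      simp [mul_add]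
  have t1 := (φ.continuous.tendsto _).comp (SimpleFunc.tendsto_approxOn_range_Lp hP hfm hf)
  have t2 : Tendsto (fun n => ∫ x, ψ x *
      SimpleFunc.approxOn f hfm (range f ∪ {0}) 0 (by simp) n x ∂μ) atTop
      (𝓝 (∫ x, ψ x * f x ∂μ)) := by
    refine tendsto_integral_of_dominated_convergence (fun x => 2 * ‖ψ x * f x‖)
      (fun n => (hsi _).aestronglyMeasurable) (hint.norm.const_mul 2)
      (fun n => Eventually.of_forall fun x => ?_) (Eventually.of_forall fun x => ?_)
    · have := SimpleFunc.norm_approxOn_zero_le hfm (s := range f ∪ {0}) (by simp) x n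
      rw [norm_mul, norm_mul]
      nlinarith [norm_nonneg (ψ x)]
    · exact (SimpleFunc.tendsto_approxOn hfm _ (subset_closure (by simp))).const_mul _
  refine tendsto_nhds_unique t1 (t2.congr fun n => ?_)
  exact (hs _).symm

/-- The density of a functional of norm at most one satisfies Hölder's inequality. -/
lemma da_bound {p : ℝ} (hp : 0 < p) [Fact (1 ≤ ENNReal.ofReal p)]
    (φ : Lp ℂ (ENNReal.ofReal p) μ →L[ℂ] ℂ) (hφ : ‖φ‖ ≤ 1) {ψ : α → ℂ} (hm : Measurable ψ)
    (hi : Integrable ψ μ)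
    (hE : ∀ E, MeasurableSet E → ∫ x in E, ψ x ∂μ = φ (daInd μ (ENNReal.ofReal p) E))
    (G : α → ENNReal) (hG : Measurable G) :
    ∫⁻ w, ‖ψ w‖ₑ * G w ∂μ ≤ (∫⁻ w, G w ^ p ∂μ) ^ (1 / p) := by
  have hP0 : ENNReal.ofReal p ≠ 0 := by simpa using hp
  have key : ∀ n : ℕ, ∫⁻ w, ‖ψ w‖ₑ * min (G w) n ∂μ ≤ (∫⁻ w, G w ^ p ∂μ) ^ (1 / p) := by
    intro n
    have hfin : ∀ w, min (G w) (n : ENNReal) ≠ ⊤ :=
      fun w => ne_top_of_le_ne_top (ENNReal.natCast_ne_top n) (min_le_right _ _)
    set t : α → ℝ := fun w => (min (G w) (n : ENNReal)).toReal with ht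
    have ht0 : ∀ w, 0 ≤ t w := fun w => ENNReal.toReal_nonneg
    have htn : ∀ w, t w ≤ n := fun w => by
      have := ENNReal.toReal_mono (ENNReal.natCast_ne_top n) (min_le_right (G w) n)
      simpa using this
    have htm : Measurable t := (hG.min measurable_const).ennreal_toReal
    set h : α → ℂ := fun w => (t w : ℂ) * (conj (ψ w) / (‖ψ w‖ : ℂ)) with hh
    have hhm : Measurable h := by
      have : Measurable fun w => conj (ψ w) := Complex.continuous_conj.measurable.comp hm
      fun_prop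
    have hhn : ∀ w, ‖h w‖ ≤ t w := by
      intro w
      simp only [hh, norm_mul, norm_div, Complex.norm_real, Complex.norm_conj, norm_norm,
        Real.norm_of_nonneg (ht0 w)]
      exact mul_le_of_le_one_right (ht0 w) (div_self_le_one _)
    have hhp : MemLp h (ENNReal.ofReal p) μ :=
      MemLp.of_bound hhm.aestronglyMeasurable n (Eventually.of_forall fun w => (hhn w).trans (htn w))
    have hint : Integrable (fun w => ψ w * h w) μ :=
      hi.mul_bdd (c := n) hhm.aestronglyMeasurable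
        (Eventually.of_forall fun w => (hhn w).trans (htn w))
    have hrep := da_rep ENNReal.ofReal_ne_top φ hi hE hhm hhp hint
    have e1 : ∀ w, ψ w * h w = ((‖ψ w‖ * t w : ℝ) : ℂ) := by
      intro w
      by_cases h0 : ψ w = 0
      · simp [h0]
      · have h1 : (‖ψ w‖ : ℂ) ≠ 0 := by simpa using h0
        have h2 := Complex.mul_conj' (ψ w)
        simp only [hh]
        push_cast
        field_simp
        linear_combination (t w : ℂ) * h2
    have hint2 : Integrable (fun w => ‖ψ w‖ * t w) μ :=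
      hi.norm.mul_bdd (c := n) htm.aestronglyMeasurable
        (Eventually.of_forall fun w => by rw [Real.norm_of_nonneg (ht0 w)]; exact htn w)
    simp_rw [e1] at hrep
    rw [integral_complex_ofReal] at hrep
    have h3 : ∫ w, ‖ψ w‖ * t w ∂μ ≤ (eLpNorm h (ENNReal.ofReal p) μ).toReal := by
      rw [← Lp.norm_toLp h hhp]
      have h4 := φ.le_opNorm (hhp.toLp h)
      rw [hrep, Complex.norm_real] at h4
      have h5 := le_abs_self (∫ w, ‖ψ w‖ * t w ∂μ)
      rw [← Real.norm_eq_abs] at h5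
      nlinarith [norm_nonneg (hhp.toLp h)]
    calc ∫⁻ w, ‖ψ w‖ₑ * min (G w) n ∂μ = ∫⁻ w, ENNReal.ofReal (‖ψ w‖ * t w) ∂μ := by
          refine lintegral_congr fun w => ?_
          rw [ENNReal.ofReal_mul (norm_nonneg _), ofReal_norm, ht,
            ENNReal.ofReal_toReal (hfin w)]
      _ = ENNReal.ofReal (∫ w, ‖ψ w‖ * t w ∂μ) :=
          (ofReal_integral_eq_lintegral_ofReal hint2
            (Eventually.of_forall fun w => mul_nonneg (norm_nonneg _) (ht0 w))).symm
      _ ≤ eLpNorm h (ENNReal.ofReal p) μ :=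
          (ENNReal.ofReal_le_ofReal h3).trans ENNReal.ofReal_toReal_le
      _ ≤ (∫⁻ w, G w ^ p ∂μ) ^ (1 / p) := by
          rw [eLpNorm_eq_lintegral_rpow_enorm_toReal hP0 ENNReal.ofReal_ne_top,
            ENNReal.toReal_ofReal hp.le]
          refine ENNReal.rpow_le_rpow (lintegral_mono fun w => ?_) (by positivity)
          refine ENNReal.rpow_le_rpow ?_ hp.le
          rw [← ofReal_norm]
          refine (ENNReal.ofReal_le_ofReal (hhn w)).trans ?_
          rw [ht, ENNReal.ofReal_toReal (hfin w)]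
          exact min_le_left _ _
  have e : ∀ w, ‖ψ w‖ₑ * G w = ⨆ n : ℕ, ‖ψ w‖ₑ * min (G w) n := by
    intro w
    rw [← ENNReal.mul_iSup]
    congr 1
    have := inf_iSup_eq (G w) (fun n : ℕ => (n : ENNReal))
    rw [ENNReal.iSup_natCast, inf_top_eq] at this
    exact this
  simp_rw [e]
  rw [lintegral_iSup (f := fun (n : ℕ) w => ‖ψ w‖ₑ * min (G w) n)
    (fun n => hm.enorm.mul (hG.min measurable_const))
    (fun a b hab w => mul_le_mul_right (min_le_min_left _ (by exact_mod_cast hab)) _)]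
  exact iSup_le key

end general

/-- An annihilator of the span in `L^p`, for every finite `p ≥ 1`. -/
theorem exists_psi_all {p : ℝ} (hp1 : 1 ≤ p) (k : ℕ → ℂ → ℂ)
    (hk : ∀ n, MemLp (k n) (ENNReal.ofReal p) μD) {u : ℂ → ℂ}
    (hu : MemLp u (ENNReal.ofReal p) μD) {ε : ℝ} (hε : 0 < ε)
    (hfar : ∀ (s : Finset ℕ) (a : ℕ → ℂ), ε ≤ ∫ w, ‖u w - ∑ n ∈ s, a n * k n w‖ ^ p ∂μD) :
    ∃ ψ : ℂ → ℂ, Measurable ψ ∧
      (∀ G : ℂ → ENNReal, Measurable G →
        ∫⁻ w, ‖ψ w‖ₑ * G w ∂μD ≤ (∫⁻ w, G w ^ p ∂μD) ^ (1 / p)) ∧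
      (∀ n, ∫ w, ψ w * k n w ∂μD = 0) ∧ ∫ w, ψ w * u w ∂μD ≠ 0 := by
  have hp : 0 < p := by linarith
  have : Fact (1 ≤ ENNReal.ofReal p) := ⟨by simpa using hp1⟩
  have hP0 : ENNReal.ofReal p ≠ 0 := by simpa using hp
  let V : Submodule ℂ (Lp ℂ (ENNReal.ofReal p) μD) :=
    Submodule.span ℂ (range fun n => (hk n).toLp (k n))
  have hδ : 0 < ε ^ p⁻¹ := Real.rpow_pos_of_pos hε _
  have hV : ∀ v ∈ V, ε ^ p⁻¹ ≤ ‖hu.toLp u - v‖ := by
    intro v hv
    obtain ⟨c, rfl⟩ := Finsupp.mem_span_range_iff_exists_finsupp.mp hv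
    have hsum : MemLp (fun w => ∑ n ∈ c.support, c n * k n w) (ENNReal.ofReal p) μD :=
      memLp_finsetSum _ fun n _ => (hk n).const_mul _
    have e : (c.sum fun n a => a • (hk n).toLp (k n)) = hsum.toLp _ := by
      rw [Finsupp.sum]
      ext1
      have h1 : ∀ᵐ w ∂μD, ∀ n, (c n • (hk n).toLp (k n) : Lp ℂ (ENNReal.ofReal p) μD) w
          = c n * k n w := by
        refine ae_all_iff.mpr fun n => ?_
        filter_upwards [Lp.coeFn_smul (c n) ((hk n).toLp (k n)), (hk n).coeFn_toLp] with w a b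
        rw [a, Pi.smul_apply, b, smul_eq_mul]
      filter_upwards [Lp.coeFn_finsetSum c.support fun n => c n • (hk n).toLp (k n), h1,
        hsum.coeFn_toLp] with w a b d
      rw [a, d, Finset.sum_apply]
      exact Finset.sum_congr rfl fun n _ => b n
    rw [e, ← MemLp.toLp_sub, Lp.norm_toLp,
      (hu.sub hsum).eLpNorm_eq_integral_rpow_norm hP0 ENNReal.ofReal_ne_top,
      ENNReal.toReal_ofReal hp.le, ENNReal.toReal_ofReal (by positivity)]
    exact Real.rpow_le_rpow hε.le (hfar _ _) (by positivity)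
  have hnot : hu.toLp u ∉ closure (V : Set (Lp ℂ (ENNReal.ofReal p) μD)) := by
    intro h
    obtain ⟨v, hv, hd⟩ := Metric.mem_closure_iff.mp h _ hδ
    rw [dist_eq_norm] at hd
    exact absurd (hV v hv) (not_le.mpr hd)
  obtain ⟨f, t, hf1, hf2⟩ := RCLike.geometric_hahn_banach_closed_point (𝕜 := ℂ)
    (V.restrictScalars ℝ).convex.closure isClosed_closure hnot
  have ht : 0 < t := by simpa using hf1 0 (subset_closure V.zero_mem)
  have hf0 : ∀ v ∈ V, f v = 0 := by
    intro v hv
    by_contra h0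
    have := hf1 (((t : ℂ) / f v) • v) (subset_closure (V.smul_mem _ hv))
    rw [map_smul, smul_eq_mul, div_mul_cancel₀ _ h0] at this
    simp at this
  have hfu : f (hu.toLp u) ≠ 0 := by
    intro h0
    rw [h0] at hf2
    simp at hf2
    linarith
  have hfn : ‖f‖ ≠ 0 := by
    intro h0
    rw [norm_eq_zero] at h0
    exact hfu (by rw [h0]; rfl)
  let φ : Lp ℂ (ENNReal.ofReal p) μD →L[ℂ] ℂ := ((‖f‖ : ℂ))⁻¹ • f
  have hφ : ‖φ‖ ≤ 1 := by
    simp only [φ]
    rw [norm_smul, norm_inv, Complex.norm_real, norm_norm, inv_mul_cancel₀ hfn]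
  obtain ⟨ψ, hm, hi, hE⟩ := da_density ENNReal.ofReal_ne_top φ
  have hb := da_bound hp φ hφ hm hi hE
  have hall : ∀ (v : ℂ → ℂ) (hv : MemLp v (ENNReal.ofReal p) μD),
      ∫ w, ψ w * v w ∂μD = φ (hv.toLp v) := by
    intro v hv
    have hae : v =ᵐ[μD] hv.1.mk v := hv.1.ae_eq_mk
    have hvm : Measurable (hv.1.mk v) := hv.1.stronglyMeasurable_mk.measurable
    have hv' : MemLp (hv.1.mk v) (ENNReal.ofReal p) μD := hv.ae_eq hae
    have hint : Integrable (fun w => ψ w * hv.1.mk v w) μD := by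
      refine ⟨(hm.mul hvm).aestronglyMeasurable, ?_⟩
      rw [hasFiniteIntegral_iff_enorm]
      simp_rw [enorm_mul]
      refine (hb _ hvm.enorm).trans_lt ?_
      have := hv'.2
      rwa [eLpNorm_eq_lintegral_rpow_enorm_toReal hP0 ENNReal.ofReal_ne_top,
        ENNReal.toReal_ofReal hp.le] at this
    rw [MemLp.toLp_congr hv hv' hae, da_rep ENNReal.ofReal_ne_top φ hi hE hvm hv' hint]
    refine integral_congr_ae ?_
    filter_upwards [hae] with w hw
    rw [hw]
  refine ⟨ψ, hm, hb, fun n => ?_, ?_⟩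
  · rw [hall _ (hk n)]
    simp only [φ, _root_.smul_apply]
    rw [hf0 _ (Submodule.subset_span ⟨n, rfl⟩), smul_zero]
  · rw [hall _ hu]
    simp only [φ, _root_.smul_apply, smul_eq_mul]
    exact mul_ne_zero (inv_ne_zero (by exact_mod_cast hfn)) hfu

end Pool.Agent.Lib.MP_435399_an.A1
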