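import Pool.Agent.Lib.MP_435399_an.A1.Defs

set_option autoImplicit false

open MeasureTheory Set Metric Real Complex Filter Topology ComplexConjugate

namespace Pool.Agent.Lib.MP_435399_an.A1

lemma fr_rad {c : ℝ} (hc : 0 < c) :
    ∫⁻ ρ in Ioo (0 : ℝ) 1, ENNReal.ofReal (1 / (√(1 - ρ) * (√(1 - ρ) + c) ^ 2)) ≤
      ENNReal.ofReal (2 / c) := by
  have hcont : ContinuousOn (fun ρ : ℝ => 2 / (√(1 - ρ) + c)) (Icc 0 1) :=
    (Continuous.div continuous_const (by fun_prop) fun ρ => by positivity).continuousOn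
  have hder : ∀ ρ ∈ Ioo (0 : ℝ) 1, HasDerivAt (fun ρ : ℝ => 2 / (√(1 - ρ) + c))
      (1 / (√(1 - ρ) * (√(1 - ρ) + c) ^ 2)) ρ := by
    intro ρ hρ
    have h1 : 0 < 1 - ρ := by linarith [hρ.2]
    have h2 : 0 < √(1 - ρ) := Real.sqrt_pos.2 h1
    have h3 : HasDerivAt (fun ρ : ℝ => √(1 - ρ) + c) (-1 / (2 * √(1 - ρ))) ρ :=
      (((hasDerivAt_id ρ).const_sub 1).sqrt h1.ne').add_const c
    have h4 := (hasDerivAt_const ρ (2 : ℝ)).div h3 (by positivity)
    refine h4.congr_deriv ?_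
    field_simp
    ring
  have hint := intervalIntegral.integrableOn_deriv_of_nonneg hcont hder fun ρ _ => by positivity
  have hval := intervalIntegral.integral_eq_sub_of_hasDerivAt_of_le zero_le_one hcont hder
    ((intervalIntegrable_iff_integrableOn_Ioc_of_le zero_le_one).2 hint)
  rw [intervalIntegral.integral_of_le zero_le_one, integral_Ioc_eq_integral_Ioo] at hval
  rw [← ofReal_integral_eq_lintegral_ofReal (hint.mono_set Ioo_subset_Ioc_self)
    (ae_of_all _ fun ρ => by positivity), hval]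
  refine ENNReal.ofReal_le_ofReal ?_
  have : 0 ≤ 2 / (√(1 - 0) + c) := by positivity
  rw [sub_self, Real.sqrt_zero, zero_add]
  linarith

lemma fr_norm (a : ℂ) (θ : ℝ) : ‖1 - conj a * circleMap 0 1 θ‖ = ‖circleMap 0 1 θ - a‖ := by
  have h1 : ‖circleMap 0 1 θ‖ = 1 := by simp
  have h2 : circleMap 0 1 θ * conj (circleMap 0 1 θ) = 1 := by
    rw [Complex.mul_conj', h1]; simp
  have h3 : 1 - conj a * circleMap 0 1 θ = circleMap 0 1 θ * conj (circleMap 0 1 θ - a) := by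
    rw [map_sub, mul_sub, h2, mul_comm]
  rw [h3, norm_mul, h1, one_mul, Complex.norm_conj]

lemma fr_ang {a : ℂ} (ha : ‖a‖ < 1) :
    ∫⁻ θ in Ioo (-π) π, ENNReal.ofReal (1 / ‖1 - conj a * circleMap 0 1 θ‖ ^ 3) ≤
      ENNReal.ofReal (2 * π / (1 - ‖a‖) ^ 2) := by
  have h1 : ∀ θ, ‖circleMap 0 1 θ‖ = 1 := fun θ => by simp
  have h0 : 0 < 1 - ‖a‖ := by linarith
  have hge : ∀ θ, 1 - ‖a‖ ≤ ‖circleMap 0 1 θ - a‖ := fun θ => by
    have := norm_sub_norm_le (circleMap 0 1 θ) a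
    rwa [h1] at this
  have hP := (diffContOnCl_const (𝕜 := ℂ) (c := (1 : ℂ))
    (s := ball (0 : ℂ) 1)).circleAverage_poissonKernel_smul' (mem_ball_zero_iff.2 ha)
  rw [circleAverage_eq_integral_add (-π), intervalIntegral.integral_smul_const, smul_smul,
    Complex.real_smul, mul_one, Complex.ofReal_eq_one] at hP
  simp only [sub_zero, h1] at hP
  rw [intervalIntegral.integral_comp_add_right
    (fun θ => (1 ^ 2 - ‖a‖ ^ 2) / ‖circleMap 0 1 θ - a‖ ^ 2) (-π)] at hP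
  have e1 : (0 : ℝ) + -π = -π := by ring
  have e2 : 2 * π + -π = π := by ring
  have hπ := pi_pos
  rw [e1, e2, intervalIntegral.integral_of_le (by linarith), integral_Ioc_eq_integral_Ioo] at hP
  have hc : Continuous fun θ : ℝ => (1 ^ 2 - ‖a‖ ^ 2) / ‖circleMap 0 1 θ - a‖ ^ 2 :=
    Continuous.div continuous_const (by fun_prop) fun θ => (pow_pos (h0.trans_le (hge θ)) 2).ne'
  have hi : IntegrableOn (fun θ : ℝ => (1 ^ 2 - ‖a‖ ^ 2) / ‖circleMap 0 1 θ - a‖ ^ 2)
      (Ioo (-π) π) := (hc.integrableOn_Icc).mono_set Ioo_subset_Icc_self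
  have hn := norm_nonneg a
  have hq : 0 ≤ 1 ^ 2 - ‖a‖ ^ 2 := by nlinarith
  calc _ ≤ ∫⁻ θ in Ioo (-π) π, ENNReal.ofReal (1 / (1 - ‖a‖) ^ 2) *
        ENNReal.ofReal ((1 ^ 2 - ‖a‖ ^ 2) / ‖circleMap 0 1 θ - a‖ ^ 2) := by
        refine lintegral_mono fun θ => ?_
        rw [← ENNReal.ofReal_mul (by positivity), fr_norm]
        refine ENNReal.ofReal_le_ofReal ?_
        have h2 := hge θ
        have h3 := h0.trans_le h2
        rw [div_mul_div_comm, div_le_div_iff₀ (by positivity) (by positivity)]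
        have h4 : (1 - ‖a‖) ^ 2 ≤ (1 ^ 2 - ‖a‖ ^ 2) * ‖circleMap 0 1 θ - a‖ := by
          rw [sq]
          exact mul_le_mul (by nlinarith) h2 h0.le hq
        have h5 := mul_le_mul_of_nonneg_right h4 (sq_nonneg ‖circleMap 0 1 θ - a‖)
        nlinarith
    _ = _ := by
        rw [lintegral_const_mul' _ _ ENNReal.ofReal_ne_top,
          ← ofReal_integral_eq_lintegral_ofReal hi (ae_of_all _ fun θ => by positivity),
          ← ENNReal.ofReal_mul (by positivity)]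
        congr 1
        field_simp at hP ⊢
        linarith

lemma fr_main {z : ℂ} (hz : ‖z‖ < 1) (φ : ℝ → ℝ) {K : ℝ} (hK : 0 ≤ K) (h0 : ∀ ρ, 0 ≤ φ ρ)
    (hφ : ∀ ρ ∈ Ioo (0 : ℝ) 1, φ ρ * √(1 - ρ) ≤ K * (√(1 - ρ) + √(1 - ‖z‖)) ^ 2) :
    ∫⁻ w, ENNReal.ofReal (φ ‖w‖ / ‖1 - conj z * w‖ ^ 3) ∂μD ≤
      ENNReal.ofReal (64 * π * K / √(1 - ‖z‖)) := by
  have hd : 0 < 1 - ‖z‖ := by linarith
  have hc : 0 < √(1 - ‖z‖) := Real.sqrt_pos.2 hd
  have hπ := pi_pos
  have hn := norm_nonneg z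
  rw [← lintegral_indicator measurableSet_ball, ← Complex.lintegral_comp_polarCoord_symm,
    polarCoord_target, Measure.volume_eq_prod, ← Measure.prod_restrict]
  refine (lintegral_prod_le _).trans ?_
  have key : ∀ ρ ∈ Ioi (0 : ℝ), ∫⁻ θ in Ioo (-π) π, ENNReal.ofReal ρ •
      (ball (0 : ℂ) 1).indicator (fun w => ENNReal.ofReal (φ ‖w‖ / ‖1 - conj z * w‖ ^ 3))
        (Complex.polarCoord.symm (ρ, θ)) ≤
      (Iio (1 : ℝ)).indicator (fun ρ => ENNReal.ofReal (32 * π * K) *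
        ENNReal.ofReal (1 / (√(1 - ρ) * (√(1 - ρ) + √(1 - ‖z‖)) ^ 2))) ρ := by
    intro ρ (hρ : 0 < ρ)
    have hw : ∀ θ, ‖Complex.polarCoord.symm (ρ, θ)‖ = ρ := fun θ => by
      rw [Complex.norm_polarCoord_symm, abs_of_pos hρ]
    by_cases h1 : ρ < 1
    swap
    · have : ∀ θ, (ball (0 : ℂ) 1).indicator
          (fun w => ENNReal.ofReal (φ ‖w‖ / ‖1 - conj z * w‖ ^ 3))
          (Complex.polarCoord.symm (ρ, θ)) = 0 := fun θ =>
        indicator_of_notMem (by rw [mem_ball_zero_iff, hw]; exact h1) _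
      simp only [this, smul_zero, lintegral_zero, zero_le]
    have ha : ‖(ρ : ℂ) * z‖ = ρ * ‖z‖ := by
      rw [norm_mul, Complex.norm_real, Real.norm_of_nonneg hρ.le]
    have ha1 : ρ * ‖z‖ < 1 := by nlinarith
    have hs : 0 < 1 - ρ := by linarith
    have ht : 0 < √(1 - ρ) := Real.sqrt_pos.2 hs
    rw [indicator_of_mem (show ρ ∈ Iio (1 : ℝ) from h1)]
    calc _ ≤ ∫⁻ θ in Ioo (-π) π, ENNReal.ofReal (φ ρ) *
          ENNReal.ofReal (1 / ‖1 - conj ((ρ : ℂ) * z) * circleMap 0 1 θ‖ ^ 3) := by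
          refine lintegral_mono fun θ => ?_
          rw [indicator_of_mem (by rw [mem_ball_zero_iff, hw]; exact h1), hw, smul_eq_mul,
            ← ENNReal.ofReal_mul (h0 ρ), mul_one_div]
          have e : conj z * Complex.polarCoord.symm (ρ, θ) =
              conj ((ρ : ℂ) * z) * circleMap 0 1 θ := by
            simp [circleMap, Complex.exp_mul_I]
            ring
          rw [e]
          exact mul_le_of_le_one_left' (ENNReal.ofReal_le_one.2 h1.le)
      _ ≤ ENNReal.ofReal (φ ρ) * ENNReal.ofReal (2 * π / (1 - ρ * ‖z‖) ^ 2) := by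
          rw [lintegral_const_mul' _ _ ENNReal.ofReal_ne_top, ← ha]
          exact mul_le_mul_right (fr_ang (ha ▸ ha1)) _
      _ ≤ _ := by
          rw [← ENNReal.ofReal_mul (h0 ρ), ← ENNReal.ofReal_mul (by positivity)]
          refine ENNReal.ofReal_le_ofReal ?_
          have q1 := Real.sq_sqrt hs.le
          have q2 := Real.sq_sqrt hd.le
          have q0 := hφ ρ ⟨hρ, h1⟩
          set t := √(1 - ρ)
          set c := √(1 - ‖z‖)
          have q3 : (t + c) ^ 2 ≤ 4 * (1 - ρ * ‖z‖) := by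
            nlinarith [sq_nonneg (t - c), mul_nonneg hs.le hn, mul_nonneg hd.le hρ.le]
          have q4 : ((t + c) ^ 2) ^ 2 ≤ (4 * (1 - ρ * ‖z‖)) ^ 2 :=
            pow_le_pow_left₀ (by positivity) q3 2
          have q5 : 0 < 1 - ρ * ‖z‖ := by linarith
          rw [← mul_div_assoc, mul_one_div, div_le_div_iff₀ (by positivity) (by positivity)]
          have q6 := mul_le_mul_of_nonneg_right q0 (show 0 ≤ 2 * π * (t + c) ^ 2 by positivity)
          have q7 := mul_le_mul_of_nonneg_left q4 (show 0 ≤ 2 * π * K by positivity)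
          nlinarith
  refine (setLIntegral_mono' measurableSet_Ioi key).trans ?_
  rw [lintegral_indicator measurableSet_Iio, Measure.restrict_restrict measurableSet_Iio,
    Iio_inter_Ioi, lintegral_const_mul' _ _ ENNReal.ofReal_ne_top]
  refine (mul_le_mul_right (fr_rad hc) _).trans ?_
  rw [← ENNReal.ofReal_mul (by positivity)]
  refine ENNReal.ofReal_le_ofReal (le_of_eq ?_)
  ring

theorem fr_est : ∃ C : ℝ, 0 ≤ C ∧ ∀ z : ℂ, ‖z‖ < 1 →
    (∫⁻ w, ENNReal.ofReal (√(1 - ‖w‖) / ‖1 - conj w * z‖ ^ 3) ∂μD ≤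
      ENNReal.ofReal (C / √(1 - ‖z‖))) ∧
    (∫⁻ w, ENNReal.ofReal (1 / ‖1 - conj z * w‖ ^ 3) ∂μD ≤ ENNReal.ofReal (C / (1 - ‖z‖))) ∧
    (∫⁻ w, ENNReal.ofReal (1 / (√(1 - ‖w‖) * ‖1 - conj z * w‖ ^ 3)) ∂μD ≤
      ENNReal.ofReal (C / ((1 - ‖z‖) * √(1 - ‖z‖)))) := by
  refine ⟨64 * π, by positivity, fun z hz => ?_⟩
  have hd : 0 < 1 - ‖z‖ := by linarith
  have hc : 0 < √(1 - ‖z‖) := Real.sqrt_pos.2 hd
  have q2 := Real.mul_self_sqrt hd.le
  refine ⟨?_, ?_, ?_⟩
  · have h := fr_main hz (fun ρ => √(1 - ρ)) zero_le_one (fun ρ => by positivity) fun ρ _ => by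
      have := Real.sqrt_nonneg (1 - ρ)
      nlinarith
    have e : ∀ w : ℂ, ‖1 - conj w * z‖ = ‖1 - conj z * w‖ := fun w => by
      rw [← Complex.norm_conj]
      simp [mul_comm]
    simpa only [e, mul_one] using h
  · have h := fr_main hz (fun _ => 1) (K := 1 / √(1 - ‖z‖)) (by positivity)
      (fun ρ => zero_le_one) fun ρ _ => by
        have := Real.sqrt_nonneg (1 - ρ)
        rw [one_div_mul_eq_div, le_div_iff₀ hc]
        nlinarith
    refine h.trans (le_of_eq ?_)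
    rw [mul_one_div, div_div, q2]
  · have h := fr_main hz (fun ρ => 1 / √(1 - ρ)) (K := 1 / (1 - ‖z‖)) (by positivity)
      (fun ρ => by positivity) fun ρ hρ => by
        have ht : 0 < √(1 - ρ) := Real.sqrt_pos.2 (by linarith [hρ.2])
        rw [one_div_mul_cancel ht.ne', one_div_mul_eq_div, le_div_iff₀ hd]
        nlinarith
    simpa only [mul_one_div, div_div] using h

end Pool.Agent.Lib.MP_435399_an.A1
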