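import Pool.Agent.Lib.MP_435399_an.A1.Defs

set_option autoImplicit false

open MeasureTheory Set Metric Real Complex Filter Topology ComplexConjugate

namespace Pool.Agent.Lib.MP_435399_an.A1

lemma ker_low (a b : ℂ) : 1 - ‖a‖ * ‖b‖ ≤ ‖1 - a * b‖ := by
  have := norm_sub_norm_le (1 : ℂ) (a * b)
  rwa [norm_one, norm_mul] at this

lemma ker_pos {a b : ℂ} (ha : ‖a‖ < 1) (hb : ‖b‖ < 1) : 0 < ‖1 - a * b‖ := by
  have := ker_low a b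
  nlinarith [norm_nonneg a, norm_nonneg b]

lemma ker_two {a b : ℂ} (ha : ‖a‖ < 1) (hb : ‖b‖ < 1) : ‖1 - a * b‖ ≤ 2 := by
  have := norm_sub_le (1 : ℂ) (a * b)
  rw [norm_one, norm_mul] at this
  nlinarith [norm_nonneg a, norm_nonneg b]

lemma ker_dist {l z : ℂ} (hl : ‖l‖ < 1) (hz : ‖z‖ < 1) : ‖l - z‖ ≤ ‖1 - conj l * z‖ := by
  have h : ‖1 - conj l * z‖ ^ 2 - ‖l - z‖ ^ 2 = (1 - ‖l‖ ^ 2) * (1 - ‖z‖ ^ 2) := by
    simp only [Complex.sq_norm, Complex.normSq_apply, sub_re, sub_im, mul_re, mul_im, one_re,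
      one_im, conj_re, conj_im]
    ring
  have a : 0 ≤ 1 - ‖l‖ ^ 2 := by nlinarith [norm_nonneg l]
  have b : 0 ≤ 1 - ‖z‖ ^ 2 := by nlinarith [norm_nonneg z]
  exact le_of_sq_le_sq (by nlinarith [mul_nonneg a b]) (norm_nonneg _)

theorem SW_le {l z b : ℂ} (hl : ‖l‖ < 1) (hz : ‖z‖ < 1) (hb : ‖b‖ < 1) :
    ‖SW l z b‖ ≤ 8 / ‖1 - b * z‖ ^ 3 * (1 / ‖1 - conj l * z‖ ^ 2 + 1 / ‖1 - b * l‖ ^ 2) := by
  have hc : ‖conj l‖ < 1 := by rwa [RCLike.norm_conj]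
  have hD := ker_pos hb hz
  have hx := ker_pos hc hz
  have hy := ker_pos hb hl
  have tri : ‖1 - b * z‖ ≤ ‖1 - conj l * z‖ + ‖1 - b * l‖ := by
    have e : 1 - b * z = b * (l - z) + (1 - b * l) := by ring
    have h1 := norm_add_le (b * (l - z)) (1 - b * l)
    rw [← e, norm_mul] at h1
    nlinarith [ker_dist hl hz, norm_nonneg (l - z), norm_nonneg b]
  have h0 : ‖SW l z b‖ ≤
      2 * ‖b‖ / (‖1 - b * z‖ ^ 3 * ‖1 - conj l * z‖ * ‖1 - b * l‖) +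
      ‖conj l‖ / (‖1 - b * z‖ ^ 2 * ‖1 - conj l * z‖ ^ 2 * ‖1 - b * l‖) +
      ‖b‖ / (‖1 - b * z‖ ^ 2 * ‖1 - conj l * z‖ * ‖1 - b * l‖ ^ 2) +
      ‖conj l‖ / (‖1 - b * z‖ * ‖1 - conj l * z‖ ^ 2 * ‖1 - b * l‖ ^ 2) := by
    unfold SW
    refine (norm_add_le _ _).trans (add_le_add ((norm_add_le _ _).trans (add_le_add
      ((norm_add_le _ _).trans (add_le_add ?_ ?_)) ?_)) ?_) <;>
    simp only [norm_div, norm_mul, norm_pow, Complex.norm_ofNat, le_refl]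
  refine h0.trans ?_
  generalize ‖1 - b * z‖ = D at *
  generalize ‖1 - conj l * z‖ = x at *
  generalize ‖1 - b * l‖ = y at *
  have h1 : 2 * ‖b‖ / (D ^ 3 * x * y) + ‖conj l‖ / (D ^ 2 * x ^ 2 * y) +
      ‖b‖ / (D ^ 2 * x * y ^ 2) + ‖conj l‖ / (D * x ^ 2 * y ^ 2) ≤
      2 * 1 / (D ^ 3 * x * y) + 1 / (D ^ 2 * x ^ 2 * y) + 1 / (D ^ 2 * x * y ^ 2) +
      1 / (D * x ^ 2 * y ^ 2) := by gcongr
  refine h1.trans ?_
  have e1 : 2 * 1 / (D ^ 3 * x * y) + 1 / (D ^ 2 * x ^ 2 * y) + 1 / (D ^ 2 * x * y ^ 2) +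
      1 / (D * x ^ 2 * y ^ 2) = (2 * x * y + D * (x + y) + D ^ 2) / (D ^ 3 * x ^ 2 * y ^ 2) := by
    field_simp
    ring
  have e2 : 8 / D ^ 3 * (1 / x ^ 2 + 1 / y ^ 2) =
      (8 * (x ^ 2 + y ^ 2)) / (D ^ 3 * x ^ 2 * y ^ 2) := by
    field_simp
    ring
  rw [e1, e2]
  gcongr
  have a1 : D * (x + y) ≤ (x + y) * (x + y) := by gcongr
  have a2 : D ^ 2 ≤ (x + y) ^ 2 := by gcongr
  nlinarith [sq_nonneg (x - y), sq_nonneg x, sq_nonneg y]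

theorem SV_le {m z b : ℂ} (hm : ‖m‖ < 1) (hz : ‖z‖ < 1) (hb : ‖b‖ < 1) :
    ‖SV m z b‖ ≤ 10 / (1 - ‖m‖) ^ 2 / ‖1 - b * z‖ ^ 3 := by
  have hD := ker_pos hb hz
  have h2 := ker_two hb hz
  have hx : 1 - ‖m‖ ≤ ‖1 - m * z‖ := by
    have := ker_low m z
    nlinarith [norm_nonneg m, norm_nonneg z]
  have h0 : ‖SV m z b‖ ≤
      ‖z‖ * (1 / ‖1 - b * z‖ + 1 / ‖1 - b * z‖ ^ 2) / ‖1 - m * z‖ ^ 2 +
      2 * ‖z‖ / (‖1 - b * z‖ ^ 3 * ‖1 - m * z‖) := by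
    unfold SV
    refine (norm_add_le _ _).trans (add_le_add ?_ ?_)
    · rw [norm_div, norm_mul, norm_pow]
      gcongr
      refine (norm_add_le _ _).trans ?_
      simp only [norm_div, norm_pow, norm_one, le_refl]
    · simp only [norm_div, norm_mul, norm_pow, Complex.norm_ofNat, le_refl]
  refine h0.trans ?_
  have hd : 0 < 1 - ‖m‖ := by linarith
  have hd1 : 1 - ‖m‖ ≤ 1 := by linarith [norm_nonneg m]
  generalize ‖1 - b * z‖ = D at *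
  generalize ‖1 - m * z‖ = x at *
  generalize 1 - ‖m‖ = d at *
  have h1 : ‖z‖ * (1 / D + 1 / D ^ 2) / x ^ 2 + 2 * ‖z‖ / (D ^ 3 * x) ≤
      1 * (1 / D + 1 / D ^ 2) / d ^ 2 + 2 * 1 / (D ^ 3 * d) := by gcongr
  refine h1.trans ?_
  have e1 : 1 * (1 / D + 1 / D ^ 2) / d ^ 2 + 2 * 1 / (D ^ 3 * d) =
      (D ^ 2 + D + 2 * d) / (D ^ 3 * d ^ 2) := by
    field_simp
  have e2 : 10 / d ^ 2 / D ^ 3 = 10 / (D ^ 3 * d ^ 2) := by
    field_simp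
  rw [e1, e2]
  gcongr
  nlinarith

lemma ker_rad {l z : ℂ} (hl : ‖l‖ < 1) (hz : ‖z‖ < 1) : ∃ R : ℝ, 1 < R ∧
    ∀ b ∈ ball (0 : ℂ) R, 1 - b * z ≠ 0 ∧ 1 - b * l ≠ 0 := by
  obtain ⟨r, r0, r1, rl, rz⟩ : ∃ r : ℝ, 0 < r ∧ r < 1 ∧ ‖l‖ ≤ r ∧ ‖z‖ ≤ r :=
    ⟨max (1 / 2) (max ‖l‖ ‖z‖), lt_max_of_lt_left (by norm_num),
      max_lt (by norm_num) (max_lt hl hz), le_max_of_le_right (le_max_left _ _),
      le_max_of_le_right (le_max_right _ _)⟩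
  refine ⟨1 / r, by rwa [lt_div_iff₀ r0, one_mul], fun b hb => ?_⟩
  rw [mem_ball_zero_iff, lt_div_iff₀ r0] at hb
  constructor
  · refine norm_pos_iff.1 ?_
    have := ker_low b z
    nlinarith [mul_le_mul_of_nonneg_left rz (norm_nonneg b)]
  · refine norm_pos_iff.1 ?_
    have := ker_low b l
    nlinarith [mul_le_mul_of_nonneg_left rl (norm_nonneg b)]

lemma ker_lin (z b : ℂ) : HasDerivAt (fun b : ℂ => 1 - b * z) (-z) b := by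
  simpa using ((hasDerivAt_id b).mul_const z).const_sub 1

theorem TW_spec {l z : ℂ} (hl : ‖l‖ < 1) (hz : ‖z‖ < 1) : ∃ R : ℝ, 1 < R ∧
    DifferentiableOn ℂ (TW l z) (ball 0 R) ∧
    ∀ b ∈ ball (0 : ℂ) R, SW l z b = 2 * TW l z b + b * deriv (TW l z) b := by
  obtain ⟨R, hR, h⟩ := ker_rad hl hz
  have hc : 1 - conj l * z ≠ 0 := norm_pos_iff.1 (ker_pos (by rwa [RCLike.norm_conj]) hz)
  have key := fun b (hb : b ∈ ball (0 : ℂ) R) =>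
    (((hasDerivAt_id' b).fun_div (((ker_lin z b).fun_pow 2).mul_const (1 - conj l * z))
      (mul_ne_zero (pow_ne_zero 2 (h b hb).1) hc)).fun_add
      ((hasDerivAt_const b (conj l)).fun_div ((ker_lin z b).mul_const ((1 - conj l * z) ^ 2))
        (mul_ne_zero (h b hb).1 (pow_ne_zero 2 hc)))).fun_div (ker_lin l b) (h b hb).2
  refine ⟨R, hR, fun b hb => (key b hb).differentiableAt.differentiableWithinAt, fun b hb => ?_⟩
  have e : deriv (TW l z) b = _ := (key b hb).deriv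
  obtain ⟨h1, h2⟩ := h b hb
  rw [e]
  unfold SW TW
  generalize 1 - conj l * z = c at *
  simp only [Nat.cast_ofNat, Nat.add_one_sub_one, pow_one]
  field_simp
  ring

theorem TV_spec {m z : ℂ} (hm : ‖m‖ < 1) (hz : ‖z‖ < 1) : ∃ R : ℝ, 1 < R ∧
    DifferentiableOn ℂ (TV m z) (ball 0 R) ∧
    ∀ b ∈ ball (0 : ℂ) R, SV m z b = 2 * TV m z b + b * deriv (TV m z) b := by
  obtain ⟨R, hR, h⟩ := ker_rad hz hz
  have hc : 1 - m * z ≠ 0 := norm_pos_iff.1 (ker_pos hm hz)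
  have key := fun b (hb : b ∈ ball (0 : ℂ) R) =>
    ((hasDerivAt_const b z).fun_div ((ker_lin z b).mul_const ((1 - m * z) ^ 2))
      (mul_ne_zero (h b hb).1 (pow_ne_zero 2 hc))).fun_add
      ((hasDerivAt_const b z).fun_div (((ker_lin z b).fun_pow 2).mul_const (1 - m * z))
        (mul_ne_zero (pow_ne_zero 2 (h b hb).1) hc))
  refine ⟨R, hR, fun b hb => (key b hb).differentiableAt.differentiableWithinAt, fun b hb => ?_⟩
  have e : deriv (TV m z) b = _ := (key b hb).deriv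
  obtain ⟨h1, -⟩ := h b hb
  rw [e]
  unfold SV TV
  generalize 1 - m * z = c at *
  simp only [Nat.cast_ofNat, Nat.add_one_sub_one, pow_one]
  field_simp
  ring

end Pool.Agent.Lib.MP_435399_an.A1
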