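import Pool.Agent.Lib.MP_435399_an.A1.Ann

set_option autoImplicit false

open MeasureTheory Set Metric Real Complex Filter Topology ComplexConjugate

namespace Pool.Agent.Lib.MP_435399_an.A1

/-- The local continuation step, from the data `g`, `H`. -/
theorem local_core {f F g H : ℂ → ℂ} (hfd : DifferentiableOn ℂ f (ball 0 1))
    (hfi1 : IntegrableOn f (ball (0 : ℂ) 1))
    (hF : ∀ u ∈ ball (0 : ℂ) 1, HasDerivAt F (f u) u) (hF0 : F 0 = 0)
    (hgd : DifferentiableOn ℂ g (ball 0 1)) (hHd : DifferentiableOn ℂ H (ball 0 1))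
    {b0 : ℂ} (hb0 : b0 ∈ ball (0 : ℂ) 1) (hgb0 : g b0 ≠ 0) {Ig : ℝ}
    (hIg : ∀ l : ℂ, ‖l‖ < 1 → (1 - ‖l‖) ^ 2 * ‖g l‖ ≤ Ig)
    (hsmall : ∀ B : ℝ, 0 ≤ B → ∀ e : ℝ, 0 < e → ∀ᶠ δ in 𝓝[>] (0 : ℝ),
      ∫⁻ l in {w : ℂ | ‖w‖ ∈ Icc (1 - δ) (1 - δ / 2)},
        ENNReal.ofReal (‖H l - π * g l * conj (F l)‖ + B * (1 - ‖l‖) * ‖g l‖) ≤
          ENNReal.ofReal (e * δ))
    {Ω : Set ℂ} (hΩ : IsOpen Ω) (hcon : IsPreconnected (Ω ∩ {w : ℂ | 1 < ‖w‖}))
    {h : ℂ → ℂ} (hh : DifferentiableOn ℂ h Ω) {w0 : ℂ} (hw0Ω : w0 ∈ Ω) (hw0 : 1 < ‖w0‖)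
    (hE : ∃ᶠ w in 𝓝[≠] w0, 1 < ‖w‖ →
      deriv H (conj w)⁻¹ * g (conj w)⁻¹ - H (conj w)⁻¹ * deriv g (conj w)⁻¹
        = -(π * (g (conj w)⁻¹) ^ 2 * (conj w) ^ 2) * conj (h w))
    {ζ : ℂ} (hζ : ‖ζ‖ = 1) (hζΩ : ζ ∈ Ω) :
    ∃ r : ℝ, 0 < r ∧ ∀ w ∈ ball ζ r, ‖w‖ < 1 → f w = h w := by
  have hFd : DifferentiableOn ℂ F (ball 0 1) :=
    fun u hu => (hF u hu).differentiableAt.differentiableWithinAt
  have hπ : (π : ℂ) ≠ 0 := by exact_mod_cast pi_ne_zero
  set W : ℂ → ℂ := fun l => deriv H l * g l - H l * deriv g l with hW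
  have hWd : DifferentiableOn ℂ W (ball 0 1) :=
    ((hHd.deriv isOpen_ball).mul hgd).sub (hHd.mul (hgd.deriv isOpen_ball))
  -- the reflected Wronskian identity on the outer part of `Ω`
  set V := Ω ∩ {w : ℂ | 1 < ‖w‖} with hV
  have hVo : IsOpen V := hΩ.inter (isOpen_lt continuous_const continuous_norm)
  have hout : ∀ w : ℂ, 1 < ‖w‖ → w ≠ 0 ∧ (conj w)⁻¹ ∈ ball (0 : ℂ) 1 := by
    intro w hw
    refine ⟨fun h0 => ?_, ?_⟩
    · rw [h0, norm_zero] at hw; linarith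
    · rw [mem_ball_zero_iff, norm_inv, Complex.norm_conj]
      exact inv_lt_one_of_one_lt₀ hw
  set T : ℂ → ℂ := fun w => conj (W (conj w)⁻¹) + π * (conj (g (conj w)⁻¹)) ^ 2 * w ^ 2 * h w
    with hT
  have hTd : DifferentiableOn ℂ T V := by
    intro w hw
    obtain ⟨h1, h2⟩ := hout w hw.2
    have d1 := (hasDerivAt_reflect h1
      (hWd.differentiableAt (isOpen_ball.mem_nhds h2)).hasDerivAt).differentiableAt
    have d2 := (hasDerivAt_reflect h1
      (hgd.differentiableAt (isOpen_ball.mem_nhds h2)).hasDerivAt).differentiableAt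
    have d3 := hh.differentiableAt (hΩ.mem_nhds hw.1)
    exact (d1.add ((((d2.pow 2).const_mul _).mul (differentiableAt_id.pow 2)).mul
      d3)).differentiableWithinAt
  have hT0 : EqOn T 0 V := by
    refine (hTd.analyticOnNhd hVo).eqOn_zero_of_preconnected_of_frequently_eq_zero hcon
      (z₀ := w0) ⟨hw0Ω, hw0⟩ ?_
    have hev : ∀ᶠ w in 𝓝[≠] w0, 1 < ‖w‖ :=
      mem_nhdsWithin_of_mem_nhds ((isOpen_lt continuous_const continuous_norm).mem_nhds hw0)
    refine (hE.and_eventually hev).mono fun w hw => ?_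
    have := hw.1 hw.2
    simp only [hT, hW]
    rw [this]
    simp
  -- the local picture at `ζ`
  obtain ⟨ρ, hρ, hρ4, hρΩ⟩ : ∃ ρ : ℝ, 0 < ρ ∧ ρ ≤ 1 / 4 ∧ ball ζ (8 * ρ) ⊆ Ω := by
    obtain ⟨r, hr, hrs⟩ := Metric.isOpen_iff.mp hΩ ζ hζΩ
    refine ⟨min (1 / 4) (r / 8), lt_min (by norm_num) (by linarith), min_le_left _ _,
      (ball_subset_ball ?_).trans hrs⟩
    linarith [min_le_right (1 / 4 : ℝ) (r / 8)]
  obtain ⟨P, hP⟩ := (hh.mono hρΩ).isExactOn_ball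
  set U := ball ζ (2 * ρ) ∩ ball (0 : ℂ) 1 with hU
  have hUo : IsOpen U := isOpen_ball.inter isOpen_ball
  have hUc : IsPreconnected U := ((convex_ball _ _).inter (convex_ball _ _)).isPreconnected
  have hsub4 : closedBall ζ (4 * ρ) ⊆ ball ζ (8 * ρ) := closedBall_subset_ball (by linarith)
  have hU4 : U ⊆ closedBall ζ (4 * ρ) := fun l hl =>
    ball_subset_closedBall (ball_subset_ball (by linarith) hl.1)
  have hU8 : U ⊆ ball ζ (8 * ρ) := hU4.trans hsub4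
  have hUl : ∀ l ∈ U, l ≠ 0 ∧ (conj l)⁻¹ ∈ closedBall ζ (4 * ρ) ∧ 1 < ‖(conj l)⁻¹‖ ∧
      ‖l - (conj l)⁻¹‖ ≤ 4 * (1 - ‖l‖) := by
    intro l hl
    have h1 : ‖l - ζ‖ < 2 * ρ := by simpa [dist_eq_norm] using hl.1
    have h2 : ‖l‖ < 1 := mem_ball_zero_iff.mp hl.2
    have h3 : 1 / 2 ≤ ‖l‖ := by
      have := norm_sub_norm_le ζ l
      rw [norm_sub_rev] at this
      linarith
    have h4 : 0 < ‖l‖ := by linarith
    have hl0 : l ≠ 0 := norm_pos_iff.mp h4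
    have hcl : conj l ≠ 0 := by simpa using hl0
    have hζζ : conj ζ * ζ = 1 := by
      rw [Complex.conj_mul', hζ]; simp
    refine ⟨hl0, ?_, ?_, ?_⟩
    · rw [mem_closedBall, dist_eq_norm]
      have e : (conj l)⁻¹ - ζ = (conj (ζ - l) * ζ) / conj l := by
        rw [map_sub, sub_mul, hζζ]
        field_simp
      rw [e, norm_div, norm_mul, Complex.norm_conj, Complex.norm_conj, hζ, mul_one, norm_sub_rev,
        div_le_iff₀ h4]
      nlinarith
    · rw [norm_inv, Complex.norm_conj]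
      exact (one_lt_inv₀ h4).mpr h2
    · have e : l - (conj l)⁻¹ = ((‖l‖ ^ 2 - 1 : ℝ) : ℂ) / conj l := by
        push_cast
        rw [← Complex.mul_conj']
        field_simp
      rw [e, norm_div, Complex.norm_conj, Complex.norm_real, Real.norm_eq_abs,
        abs_of_nonpos (by nlinarith), div_le_iff₀ h4]
      nlinarith
  set Q : ℂ → ℂ := fun l => conj (P (conj l)⁻¹) with hQ
  have hQd : ∀ l ∈ U, HasDerivAt Q (conj (h (conj l)⁻¹) * -(l ^ 2)⁻¹) l := fun l hl =>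
    hasDerivAt_reflect (hUl l hl).1 (hP _ (hsub4 (hUl l hl).2.1))
  have hWU : ∀ l ∈ U, W l = π * g l ^ 2 * (conj (h (conj l)⁻¹) * -(l ^ 2)⁻¹) := by
    intro l hl
    have h1 := hT0 (x := (conj l)⁻¹) ⟨hρΩ (hsub4 (hUl l hl).2.1), (hUl l hl).2.2.1⟩
    simp only [hT, map_inv₀, Complex.conj_conj, inv_inv, Pi.zero_apply] at h1
    have h2 := congrArg conj h1
    simp only [map_add, map_mul, map_pow, map_inv₀, Complex.conj_conj, Complex.conj_ofReal,
      map_zero] at h2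
    rw [← inv_pow]
    linear_combination h2
  -- a small disc in `U` on which `g` has no zero
  obtain ⟨b, hbU, hgb⟩ : ∃ b ∈ U, g b ≠ 0 := by
    by_contra hcon'
    push Not at hcon'
    have ha0 : ((1 - ρ : ℝ) : ℂ) * ζ ∈ U := by
      refine ⟨?_, ?_⟩
      · rw [mem_ball, dist_eq_norm]
        have e : ((1 - ρ : ℝ) : ℂ) * ζ - ζ = ((-ρ : ℝ) : ℂ) * ζ := by push_cast; ring
        rw [e, norm_mul, hζ, mul_one, Complex.norm_real, Real.norm_eq_abs, abs_neg, abs_of_pos hρ]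
        linarith
      · rw [mem_ball_zero_iff, norm_mul, hζ, mul_one, Complex.norm_real,
          Real.norm_of_nonneg (by linarith)]
        linarith
    refine hgb0 ((hgd.analyticOnNhd isOpen_ball).eqOn_zero_of_preconnected_of_eventuallyEq_zero
      (convex_ball _ _).isPreconnected ha0.2 ?_ hb0)
    filter_upwards [hUo.mem_nhds ha0] with l hl
    exact hcon' l hl
  obtain ⟨η, hη, hηb⟩ : ∃ η > 0, ∀ u ∈ ball b η, u ∈ U ∧ g u ≠ 0 := by
    have h1 : ∀ᶠ u in 𝓝 b, g u ≠ 0 :=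
      (hgd.differentiableAt (isOpen_ball.mem_nhds hbU.2)).continuousAt.eventually_ne hgb
    obtain ⟨η, hη, h2⟩ := Metric.mem_nhds_iff.mp
      ((show ∀ᶠ u in 𝓝 b, u ∈ U from hUo.mem_nhds hbU).and h1)
    exact ⟨η, hη, h2⟩
  have hgU : DifferentiableOn ℂ g U := hgd.mono inter_subset_right
  have hHU : DifferentiableOn ℂ H U := hHd.mono inter_subset_right
  have hQU : DifferentiableOn ℂ Q U := fun l hl => (hQd l hl).differentiableAt.differentiableWithinAt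
  obtain ⟨κ, hκ⟩ : ∃ κ : ℂ, ∀ u ∈ ball b η, H u / g u - π * Q u = κ := by
    refine isOpen_ball.exists_is_const_of_deriv_eq_zero (convex_ball _ _).isPreconnected
      (((hHU.mono fun u hu => (hηb u hu).1).div (hgU.mono fun u hu => (hηb u hu).1)
        fun u hu => (hηb u hu).2).sub ((hQU.mono fun u hu => (hηb u hu).1).const_mul _))
      fun u hu => ?_
    have hn := hUo.mem_nhds (hηb u hu).1
    have := (((hHU.differentiableAt hn).hasDerivAt.div (hgU.differentiableAt hn).hasDerivAt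
      (hηb u hu).2).sub ((hQd u (hηb u hu).1).const_mul (π : ℂ))).deriv
    have e : deriv H u * g u - H u * deriv g u = _ := hWU u (hηb u hu).1
    rw [e] at this
    refine this.trans ?_
    have := (hηb u hu).2
    simp only [Pi.zero_apply]
    field_simp
    ring
  have hHg : EqOn H (fun u => g u * (κ + π * Q u)) U := by
    refine (hHU.analyticOnNhd hUo).eqOn_of_preconnected_of_eventuallyEq
      ((hgU.mul ((differentiableOn_const _).add (hQU.const_mul _))).analyticOnNhd hUo) hUc hbU ?_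
    filter_upwards [ball_mem_nhds b hη] with u hu
    rw [← hκ u hu]
    have := (hηb u hu).2
    field_simp
    ring
  have hPU : DifferentiableOn ℂ P U := fun l hl =>
    (hP l (hU8 hl)).differentiableAt.differentiableWithinAt
  set Φ : ℂ → ℂ := fun l => g l * (conj κ + π * P l - π * F l) with hΦ
  have hΦd : DifferentiableOn ℂ Φ U :=
    hgU.mul (((differentiableOn_const _).add (hPU.const_mul _)).sub
      ((hFd.mono inter_subset_right).const_mul _))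
  obtain ⟨B, hB⟩ := (isCompact_closedBall ζ (4 * ρ)).exists_bound_of_continuousOn
    (hh.continuousOn.mono (hsub4.trans hρΩ))
  have hB0 : 0 ≤ B := (norm_nonneg _).trans (hB ζ (mem_closedBall_self (by linarith)))
  have hLip : ∀ x ∈ closedBall ζ (4 * ρ), ∀ y ∈ closedBall ζ (4 * ρ),
      ‖P y - P x‖ ≤ B * ‖y - x‖ := fun x hx y hy =>
    (convex_closedBall ζ (4 * ρ)).norm_image_sub_le_of_norm_hasDerivWithin_le
      (fun u hu => (hP u (hsub4 hu)).hasDerivWithinAt) hB hx hy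
  set Pg : ℂ → ℂ := fun l => H l - π * g l * conj (F l) with hPg
  have hcmp : ∀ l ∈ U, ‖Φ l‖ ≤ ‖Pg l‖ + 4 * π * B * (1 - ‖l‖) * ‖g l‖ := by
    intro l hl
    have e1 : Pg l = g l * conj (conj κ + π * P (conj l)⁻¹ - π * F l) := by
      simp only [hPg, hHg hl, hQ, map_add, map_sub, map_mul, Complex.conj_conj,
        Complex.conj_ofReal]
      ring
    have e2 : Φ l = g l * (conj κ + π * P (conj l)⁻¹ - π * F l)
        + g l * (π * (P l - P (conj l)⁻¹)) := by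
      simp only [hΦ]; ring
    rw [e2]
    refine (norm_add_le _ _).trans (add_le_add (le_of_eq ?_) ?_)
    · rw [e1, norm_mul, norm_mul, Complex.norm_conj]
    · rw [norm_mul, norm_mul, Complex.norm_real, Real.norm_of_nonneg pi_pos.le]
      have h1 := (hLip _ (hUl l hl).2.1 _ (hU4 hl)).trans
        (mul_le_mul_of_nonneg_left (hUl l hl).2.2.2 hB0)
      calc _ ≤ ‖g l‖ * (π * (B * (4 * (1 - ‖l‖)))) := by
            have := pi_pos
            gcongr
        _ = _ := by ring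
  set If := ∫ w in ball (0 : ℂ) 1, ‖f w‖ with hIf
  obtain ⟨B', hB'⟩ := (isCompact_closedBall ζ (4 * ρ)).exists_bound_of_continuousOn
    (f := P) fun u hu => (hP u (hsub4 hu)).continuousAt.continuousWithinAt
  have hgrow : ∀ l ∈ U, (1 - ‖l‖) ^ 4 * ‖Φ l‖ ≤ Ig * (‖κ‖ + π * B' + π * If) := by
    intro l hl
    have h2 : ‖l‖ < 1 := mem_ball_zero_iff.mp hl.2
    have h0 : 0 < 1 - ‖l‖ := by linarith
    have g1 := hIg l h2
    have g2 : (1 - ‖l‖) ^ 2 * ‖F l‖ ≤ If := by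
      have hs : closedBall (0 : ℂ) ‖l‖ ⊆ ball 0 1 := closedBall_subset_ball h2
      have := (convex_closedBall (0 : ℂ) ‖l‖).norm_image_sub_le_of_norm_hasDerivWithin_le
        (f := F) (f' := f) (C := If / (1 - ‖l‖) ^ 2) (fun u hu => (hF u (hs hu)).hasDerivWithinAt)
        (fun u hu => by
          have hu1 : ‖u‖ ≤ ‖l‖ := mem_closedBall_zero_iff.mp hu
          rw [le_div_iff₀ (by positivity), mul_comm]
          refine le_trans ?_ (growth hfd hfi1 (hu1.trans_lt h2))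
          gcongr)
        (mem_closedBall_self (norm_nonneg l)) (mem_closedBall_zero_iff.mpr le_rfl)
      rw [hF0, sub_zero, sub_zero] at this
      have hIf0 : 0 ≤ If := integral_nonneg fun _ => norm_nonneg _
      have h3 : ‖F l‖ ≤ If / (1 - ‖l‖) ^ 2 :=
        this.trans (mul_le_of_le_one_right (by positivity) h2.le)
      rwa [le_div_iff₀ (by positivity), mul_comm] at h3
    have g3 : (1 - ‖l‖) ^ 2 * ‖conj κ + π * P l - π * F l‖ ≤ ‖κ‖ + π * B' + π * If := by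
      have t1 : ‖conj κ + π * P l - π * F l‖ ≤ ‖κ‖ + π * B' + π * ‖F l‖ := by
        refine (norm_sub_le _ _).trans (add_le_add ((norm_add_le _ _).trans (add_le_add ?_ ?_)) ?_)
        · rw [Complex.norm_conj]
        · rw [norm_mul, Complex.norm_real, Real.norm_of_nonneg pi_pos.le]
          exact mul_le_mul_of_nonneg_left (hB' l (hU4 hl)) pi_pos.le
        · rw [norm_mul, Complex.norm_real, Real.norm_of_nonneg pi_pos.le]
      have t2 : (1 - ‖l‖) ^ 2 ≤ 1 := pow_le_one₀ h0.le (by linarith [norm_nonneg l])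
      have t3 : 0 ≤ ‖κ‖ + π * B' := by
        have := (norm_nonneg _).trans (hB' l (hU4 hl))
        have := pi_pos
        positivity
      have t4 := mul_le_mul_of_nonneg_left g2 pi_pos.le
      calc _ ≤ (1 - ‖l‖) ^ 2 * (‖κ‖ + π * B' + π * ‖F l‖) := by gcongr
        _ = (1 - ‖l‖) ^ 2 * (‖κ‖ + π * B') + π * ((1 - ‖l‖) ^ 2 * ‖F l‖) := by ring
        _ ≤ 1 * (‖κ‖ + π * B') + π * If := by gcongr
        _ = _ := by ring
    simp only [hΦ]
    rw [norm_mul]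
    calc _ = ((1 - ‖l‖) ^ 2 * ‖g l‖) * ((1 - ‖l‖) ^ 2 * ‖conj κ + π * P l - π * F l‖) := by ring
      _ ≤ _ := mul_le_mul g1 g3 (by positivity) (le_trans (by positivity) g1)
  have hsm : ∀ e : ℝ, 0 < e → ∀ δ0 : ℝ, 0 < δ0 → ∃ δ : ℝ, 0 < δ ∧ δ ≤ δ0 ∧
      ∫ l in {w : ℂ | ‖w‖ ∈ Icc (1 - δ) (1 - δ / 2)} ∩ closedBall ζ ρ, ‖Φ l‖ ≤ e * δ := by
    intro e he δ0 hδ0
    obtain ⟨δ, hδ1, hδ⟩ := ((hsmall (4 * π * B) (by have := pi_pos; positivity) e he).and
      (Ioo_mem_nhdsGT hδ0)).exists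
    have d0 : 0 < δ := hδ.1
    refine ⟨δ, d0, hδ.2.le, ?_⟩
    set A := {w : ℂ | ‖w‖ ∈ Icc (1 - δ) (1 - δ / 2)} with hA
    have hAc : IsCompact A := isCompact_annulus _ _
    have hAb : A ⊆ ball 0 1 := fun w hw => mem_ball_zero_iff.mpr (by linarith [hw.2])
    have hK : IsCompact (A ∩ closedBall ζ ρ) := hAc.inter_right isClosed_closedBall
    have hKU : A ∩ closedBall ζ ρ ⊆ U := fun w hw =>
      ⟨closedBall_subset_ball (by linarith) hw.2, hAb hw.1⟩
    rw [integral_norm_eq_lintegral_enorm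
      ((hΦd.continuousOn.mono hKU).aestronglyMeasurable hK.measurableSet)]
    refine ENNReal.toReal_le_of_le_ofReal (by positivity)
      (le_trans (le_trans (setLIntegral_mono' hK.measurableSet fun l hl => ?_)
        (lintegral_mono_set inter_subset_left)) hδ1)
    rw [← ofReal_norm]
    exact ENNReal.ofReal_le_ofReal (hcmp l (hKU hl))
  have hΦ0 := local_vanish hζ hρ (by linarith) hΦd hgrow hsm
  have hfh : f =ᶠ[𝓝 b] h := by
    filter_upwards [ball_mem_nhds b hη] with u hu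
    have h1 : F =ᶠ[𝓝 u] fun v => conj κ / π + P v := by
      filter_upwards [isOpen_ball.mem_nhds hu] with v hv
      have := (mul_eq_zero.mp (hΦ0 (hηb v hv).1)).resolve_left (hηb v hv).2
      field_simp
      linear_combination -this
    exact (hF u (hηb u hu).1.2).unique
      (((hP u (hU8 (hηb u hu).1)).const_add _).congr_of_eventuallyEq h1)
  refine ⟨2 * ρ, by linarith, fun w hw hw1 => ?_⟩
  exact ((hfd.mono inter_subset_right).analyticOnNhd hUo).eqOn_of_preconnected_of_eventuallyEq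
    ((hh.mono (hU8.trans hρΩ)).analyticOnNhd hUo) hUc hbU hfh ⟨hw, mem_ball_zero_iff.mpr hw1⟩

/-- The local theorem, given the functional `ψ` and the bound for the positive operator. -/
theorem local_of {p : ℝ} (hp1 : 1 ≤ p) {z : ℕ → ℂ} (hz : ∀ n, ‖z n‖ < 1) {u : ℂ → ℂ}
    (hud : DifferentiableOn ℂ u (ball 0 1)) (hum : MemLp u (ENNReal.ofReal p) μD)
    {ψ : ℂ → ℂ} (hψm : Measurable ψ)
    (hψb : ∀ G : ℂ → ENNReal, Measurable G →
      ∫⁻ w, ‖ψ w‖ₑ * G w ∂μD ≤ (∫⁻ w, G w ^ p ∂μD) ^ (1 / p))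
    (hψk : ∀ n, ∫ w, ψ w * ((1 - z n * w) ^ 2)⁻¹ ∂μD = 0) (hψu : ∫ w, ψ w * u w ∂μD ≠ 0)
    {C : ENNReal} (hC : C ≠ ⊤) (hsch : ∀ H : ℂ → ENNReal, Measurable H →
      ∫⁻ z, (∫⁻ w, KK z w * H w ∂μD) ^ p ∂μD ≤ C * ∫⁻ w, H w ^ p ∂μD)
    (S : ℕ → Finset ℕ) (c : ℕ → ℕ → ℂ) {f : ℂ → ℂ} (hfd : DifferentiableOn ℂ f (ball 0 1))
    (hfm : MemLp f (ENNReal.ofReal p) μD)
    (hconv : Tendsto (fun j => ∫ w, ‖comb z (S j) (c j) w - f w‖ ^ p ∂μD) atTop (𝓝 0))
    {Ω : Set ℂ} (hΩ : IsOpen Ω) (hcon : IsPreconnected (Ω ∩ {w : ℂ | 1 < ‖w‖}))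
    {h : ℂ → ℂ} (hh : DifferentiableOn ℂ h Ω) {w0 : ℂ} (hw0Ω : w0 ∈ Ω) (hw0 : 1 < ‖w0‖)
    (hE : ∃ᶠ w in 𝓝[≠] w0, (∀ n, z n * w ≠ 1) ∧
      Tendsto (fun j => comb z (S j) (c j) w) atTop (𝓝 (h w)))
    {ζ : ℂ} (hζ : ‖ζ‖ = 1) (hζΩ : ζ ∈ Ω) :
    ∃ r : ℝ, 0 < r ∧ ∀ w ∈ ball ζ r, ‖w‖ < 1 → f w = h w := by
  have hp0 : 0 < p := by linarith
  have h1p : (1 : ENNReal) ≤ ENNReal.ofReal p := ENNReal.one_le_ofReal.mpr hp1
  have hψ : Integrable ψ μD := by
    refine ⟨hψm.aestronglyMeasurable, ?_⟩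
    have := hψb (fun _ => 1) measurable_const
    simp only [mul_one, ENNReal.one_rpow, lintegral_const, one_mul] at this
    exact this.trans_lt (ENNReal.rpow_lt_top_of_nonneg (by positivity) (measure_ne_top _ _))
  have hBle : ∀ h : ℂ → ℂ, MemLp h (ENNReal.ofReal p) μD →
      BB ψ h ≤ (C * ENNReal.ofReal (∫ w, ‖h w‖ ^ p ∂μD)) ^ (1 / p) := fun h hh => by
    rw [← lint_pow hp0 ((memLp_iff_pow hp0 hh.1).mpr hh)]
    exact BB_le hp0 hψm hψb hsch hh.1
  have hne : ∀ x : ℝ, (C * ENNReal.ofReal x) ^ (1 / p) ≠ ⊤ := fun x =>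
    ENNReal.rpow_ne_top_of_nonneg (by positivity) (ENNReal.mul_ne_top hC ENNReal.ofReal_ne_top)
  have hB : ∀ h : ℂ → ℂ, MemLp h (ENNReal.ofReal p) μD → BB ψ h ≠ ⊤ := fun h hh =>
    ne_top_of_le_ne_top (hne _) (hBle h hh)
  have hkm : ∀ n, MemLp (fun w => ((1 - z n * w) ^ 2)⁻¹) (ENNReal.ofReal p) μD := fun n =>
    MemLp.of_bound (kernel_memLp (hz n)).1 _
      (ae_ball.mono fun _ hw => norm_kernel_le (hz n) hw.le)
  have hcm : ∀ j, MemLp (comb z (S j) (c j)) (ENNReal.ofReal p) μD := fun j =>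
    memLp_finsetSum (S j) fun n _ => (hkm n).const_mul _
  have hdm : ∀ j, MemLp (fun w => comb z (S j) (c j) w - f w) (ENNReal.ofReal p) μD :=
    fun j => (hcm j).sub hfm
  have hB0 : Tendsto (fun j => (BB ψ fun w => comb z (S j) (c j) w - f w).toReal) atTop (𝓝 0) :=
    squeeze_zero (fun _ => ENNReal.toReal_nonneg)
      (fun j => ENNReal.toReal_mono (hne _) (hBle _ (hdm j))) (tendsto_root hp0 C hconv)
  have hLL : ∀ {K : ℂ → ℂ → ℂ} {M : ℝ}, Adm K M → ∀ j, ‖LL ψ K (comb z (S j) (c j)) - LL ψ K f‖ ≤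
      M * (BB ψ fun w => comb z (S j) (c j) w - f w).toReal := fun hK j => by
    rw [LL_sub (integrable_II hψm hK (hcm j).1 (hB _ (hcm j)))
      (integrable_II hψm hK hfm.1 (hB _ hfm))]
    exact norm_LL hK (hB _ (hdm j))
  have hM0 : ∀ M : ℝ, Tendsto (fun j => M * (BB ψ fun w => comb z (S j) (c j) w - f w).toReal)
      atTop (𝓝 0) := fun M => by simpa using hB0.const_mul M
  have hlim : ∀ {K : ℂ → ℂ → ℂ} {M : ℝ}, Adm K M →
      Tendsto (fun j => LL ψ K (comb z (S j) (c j))) atTop (𝓝 (LL ψ K f)) := fun hK =>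
    tendsto_iff_norm_sub_tendsto_zero.mpr
      (squeeze_zero (fun _ => norm_nonneg _) (hLL hK) (hM0 _))
  have hgd := gg_diff hψ
  have hgz : ∀ n, gg ψ (z n) = 0 := hψk
  obtain ⟨b0, hb0, hgb0⟩ := gg_ne hψm hψ hud (hum.integrable h1p) (hB u hum) hψu
  have hV : ∀ m : ℂ, ‖m‖ < 1 → ∀ j, LL ψ (SV m) (comb z (S j) (c j)) =
      π * ∑ n ∈ S j, c j n * dslope (gg ψ) (z n) m := by
    intro m hm j
    rw [LL_comb hz (T := TV m)
      (fun n => integrable_II hψm (adm_SV le_rfl hm) (hkm n).1 (hB _ (hkm n)))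
      (fun u hu => TV_spec hm hu)]
    simp only [int_TV hψ hm (hz _)]
  set H : ℂ → ℂ := fun m => LL ψ (SV m) f with hH
  obtain ⟨hHd, hWpt⟩ := wr_pt hz hgd hgz S c (H := H)
    (tendstoLocallyUniformlyOn_of_approx fun ρ _ h1 => ⟨_, hM0 (10 / (1 - ρ) ^ 2), fun j m hm => by
      rw [← hV m (hm.trans_lt h1) j]
      exact hLL (adm_SV hm h1) j⟩)
  obtain ⟨F, hF0, hF⟩ := hfd.isExactOn_ball.with_val_at 0 0
  have hL1 := tendsto_L1 hp1 (fun j => (hdm j).1)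
    (fun j => (memLp_iff_pow hp0 (hdm j).1).mpr (hdm j)) hconv
  have hid : ∀ l : ℂ, ‖l‖ < 1 → (1 - l * conj l) * LL ψ (SW l) f =
      conj l ^ 2 * (H (conj l) - π * gg ψ (conj l) * F l) := by
    intro l hl
    have hm : ‖conj l‖ < 1 := by rwa [Complex.norm_conj]
    have e : ∀ j, (1 - l * conj l) * LL ψ (SW l) (comb z (S j) (c j)) =
        conj l ^ 2 * (LL ψ (SV (conj l)) (comb z (S j) (c j)) -
          π * gg ψ (conj l) * ∑ n ∈ S j, c j n * (l / (1 - z n * l))) := by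
      intro j
      rw [hV _ hm j, LL_comb hz (T := TW l)
        (fun n => integrable_II hψm (adm_SW hl) (hkm n).1 (hB _ (hkm n)))
        (fun u hu => TW_spec hl hu)]
      simp only [Finset.mul_sum, ← Finset.sum_sub_distrib]
      refine Finset.sum_congr rfl fun n _ => ?_
      have := int_TW hψ hl (hz n) (hgz n)
      linear_combination π * c j n * this
    have t1 := (hlim (adm_SW hl)).const_mul (1 - l * conj l)
    have t2 := ((hlim (adm_SV le_rfl hm)).sub ((prim_tendsto hz S c hfd (hfm.integrable h1p) hF hF0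
      hL1 hl).const_mul (π * gg ψ (conj l)))).const_mul (conj l ^ 2)
    exact tendsto_nhds_unique (t1.congr e) t2
  have hcb : ∀ l ∈ ball (0 : ℂ) 1, conj l ∈ ball (0 : ℂ) 1 := fun l hl => by
    rwa [mem_ball_zero_iff, Complex.norm_conj, ← mem_ball_zero_iff]
  have hcc : ∀ {G : ℂ → ℂ}, DifferentiableOn ℂ G (ball 0 1) →
      DifferentiableOn ℂ (conj ∘ G ∘ conj) (ball 0 1) := fun hG l hl => by
    have := (hG.differentiableAt (isOpen_ball.mem_nhds (hcb l hl))).conj_conj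
    rw [Complex.conj_conj] at this
    exact this.differentiableWithinAt
  refine local_core (g := conj ∘ gg ψ ∘ conj) (H := conj ∘ H ∘ conj) hfd (hfm.integrable h1p) hF hF0
    (hcc hgd) (hcc hHd) (hcb b0 hb0) (by simpa using hgb0) (Ig := ∫ w, ‖ψ w‖ ∂μD)
    (fun l hl => ?_) (fun B hB0' e he => ?_) hΩ hcon hh hw0Ω hw0 (hE.mono fun w hw h1 => ?_) hζ hζΩ
  · have := gg_growth hψ (a := conj l) (by rwa [Complex.norm_conj])
    simpa using this
  · have n1 : AEMeasurable (fun q : ℂ × ℂ =>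
        ENNReal.ofReal 32 * (‖ψ q.1‖ₑ * (KK q.1 q.2 * ‖f q.2‖ₑ))) (μD.prod μD) :=
      (((hψm.enorm.comp measurable_fst).aemeasurable).mul
        (measurable_KK.aemeasurable.mul hfm.1.comp_snd.enorm)).const_mul _
    have n2 : Measurable fun q : ℂ × ℂ => ENNReal.ofReal B * ‖ψ q.1‖ₑ :=
      (hψm.enorm.comp measurable_fst).const_mul _
    have n3 : ∫⁻ q, (ENNReal.ofReal 32 * (‖ψ q.1‖ₑ * (KK q.1 q.2 * ‖f q.2‖ₑ)) +
        ENNReal.ofReal B * ‖ψ q.1‖ₑ) ∂(μD.prod μD) ≠ ⊤ := by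
      rw [lintegral_add_right _ n2, lintegral_const_mul' _ _ ENNReal.ofReal_ne_top,
        lintegral_const_mul' _ _ ENNReal.ofReal_ne_top]
      exact ENNReal.add_ne_top.mpr ⟨ENNReal.mul_ne_top ENNReal.ofReal_ne_top (hB f hfm),
        ENNReal.mul_ne_top ENNReal.ofReal_ne_top (hψ.comp_fst μD).2.ne⟩
    filter_upwards [ann_small' ae_ball2 (n1.add n2.aemeasurable) n3 he,
      Ioo_mem_nhdsGT (show (0 : ℝ) < 1 / 2 by norm_num)] with δ h1 h2
    refine le_trans (setLIntegral_mono' (measurable_norm measurableSet_Icc) fun l hl => ?_) h1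
    have l1 : 1 / 2 ≤ ‖l‖ := by linarith [hl.1, h2.2]
    have l2 : ‖l‖ < 1 := by linarith [hl.2, h2.1]
    refine ENNReal.ofReal_add_le.trans (le_trans (add_le_add
      (le_trans ?_ (LL_SW_le (ψ := ψ) (f := f) l2))
      (le_trans (le_of_eq ?_) (gg_le hψm hB0' l2))) ((le_lintegral_add _ _).trans (le_of_eq ?_)))
    · have h0 : 0 ≤ 1 - ‖l‖ ^ 2 := by nlinarith [norm_nonneg l]
      rw [← ofReal_norm, ← ENNReal.ofReal_mul (by positivity)]
      refine ENNReal.ofReal_le_ofReal ?_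
      have h3 := congrArg norm (hid l l2)
      have h4 : (1 : ℂ) - l * conj l = ((1 - ‖l‖ ^ 2 : ℝ) : ℂ) := by
        rw [Complex.mul_conj']; push_cast; ring
      rw [h4, norm_mul, norm_mul, norm_pow, Complex.norm_conj, Complex.norm_real,
        Real.norm_of_nonneg h0] at h3
      have h7 : ‖(conj ∘ H ∘ conj) l - π * (conj ∘ gg ψ ∘ conj) l * conj (F l)‖ =
          ‖H (conj l) - π * gg ψ (conj l) * F l‖ := by
        rw [← Complex.norm_conj]
        simp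
      rw [h7, mul_assoc 4, h3]
      have h5 := norm_nonneg (H (conj l) - π * gg ψ (conj l) * F l)
      have h6 : 1 ≤ 4 * ‖l‖ ^ 2 := by nlinarith
      nlinarith
    · simp
    · exact lintegral_congr fun q => (mul_add _ _ _).symm
  · have := congrArg conj (hWpt w (h w) h1 hw.1 hw.2)
    rw [deriv_conj_conj, deriv_conj_conj]
    simpa using this

/-- The local continuation theorem in the Bergman space with exponent `p`. -/
theorem local_all {p : ℝ} (hp1 : 1 ≤ p) {z : ℕ → ℂ} (hz : ∀ n, ‖z n‖ < 1) {u : ℂ → ℂ}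
    (hud : DifferentiableOn ℂ u (ball 0 1))
    (hui : IntegrableOn (fun w => ‖u w‖ ^ p) (ball (0 : ℂ) 1)) {ε : ℝ} (hε : 0 < ε)
    (hfar : ∀ (s : Finset ℕ) (a : ℕ → ℂ), ε ≤ ∫ w, ‖u w - comb z s a w‖ ^ p ∂μD)
    (S : ℕ → Finset ℕ) (c : ℕ → ℕ → ℂ) {f : ℂ → ℂ} (hfd : DifferentiableOn ℂ f (ball 0 1))
    (hfi : IntegrableOn (fun w => ‖f w‖ ^ p) (ball (0 : ℂ) 1))
    (hconv : Tendsto (fun j => ∫ w, ‖comb z (S j) (c j) w - f w‖ ^ p ∂μD) atTop (𝓝 0))
    {Ω : Set ℂ} (hΩ : IsOpen Ω) (hcon : IsPreconnected (Ω ∩ {w : ℂ | 1 < ‖w‖}))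
    {h : ℂ → ℂ} (hh : DifferentiableOn ℂ h Ω) {w0 : ℂ} (hw0Ω : w0 ∈ Ω) (hw0 : 1 < ‖w0‖)
    (hE : ∃ᶠ w in 𝓝[≠] w0, (∀ n, z n * w ≠ 1) ∧
      Tendsto (fun j => comb z (S j) (c j) w) atTop (𝓝 (h w)))
    {ζ : ℂ} (hζ : ‖ζ‖ = 1) (hζΩ : ζ ∈ Ω) :
    ∃ r : ℝ, 0 < r ∧ ∀ w ∈ ball ζ r, ‖w‖ < 1 → f w = h w := by
  have hp0 : 0 < p := by linarith
  have hum := (memLp_iff_pow hp0 (hud.continuousOn.aestronglyMeasurable measurableSet_ball)).mp hui
  have hfm := (memLp_iff_pow hp0 (hfd.continuousOn.aestronglyMeasurable measurableSet_ball)).mp hfi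
  obtain ⟨ψ, hψm, hψb, hψk, hψu⟩ := exists_psi_all hp1 (fun n w => ((1 - z n * w) ^ 2)⁻¹)
    (fun n => MemLp.of_bound (kernel_memLp (hz n)).1 _
      (ae_ball.mono fun _ hw => norm_kernel_le (hz n) hw.le)) hum hε hfar
  obtain ⟨C, hC, hsch⟩ := schur_all hp1
  exact local_of hp1 hz hud hum hψm hψb hψk hψu hC hsch S c hfd hfm hconv hΩ hcon hh hw0Ω hw0 hE
    hζ hζΩ

end Pool.Agent.Lib.MP_435399_an.A1
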