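import Pool.Agent.Lib.MP_435399_an.A1.Schur

set_option autoImplicit false

open MeasureTheory Set Metric Real Complex Filter Topology ComplexConjugate

namespace Pool.Agent.Lib.MP_435399_an.A1

lemma sa_rad {d σ : ℝ} (hd : 0 < d) (hσ : 0 < σ) :
    ∫⁻ ρ in Ioo (0 : ℝ) 1, ENNReal.ofReal ((1 - ρ + d) ^ (-σ - 1)) ≤
      ENNReal.ofReal (d ^ (-σ) / σ) := by
  have hpos : ∀ ρ ∈ Icc (0 : ℝ) 1, 0 < 1 - ρ + d := fun ρ hρ => by linarith [hρ.2]
  have hder' : ∀ ρ ∈ Icc (0 : ℝ) 1, HasDerivAt (fun ρ : ℝ => (1 - ρ + d) ^ (-σ) / σ)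
      ((1 - ρ + d) ^ (-σ - 1)) ρ := by
    intro ρ hρ
    have h3 : HasDerivAt (fun ρ : ℝ => 1 - ρ + d) (-1) ρ :=
      ((hasDerivAt_id ρ).const_sub 1).add_const d
    have h4 := (h3.rpow_const (p := -σ) (Or.inl (hpos ρ hρ).ne')).div_const σ
    refine h4.congr_deriv ?_
    field_simp
  have hcont : ContinuousOn (fun ρ : ℝ => (1 - ρ + d) ^ (-σ) / σ) (Icc 0 1) := fun ρ hρ =>
    (hder' ρ hρ).continuousAt.continuousWithinAt
  have hder : ∀ ρ ∈ Ioo (0 : ℝ) 1, HasDerivAt (fun ρ : ℝ => (1 - ρ + d) ^ (-σ) / σ)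
      ((1 - ρ + d) ^ (-σ - 1)) ρ := fun ρ hρ => hder' ρ (Ioo_subset_Icc_self hρ)
  have hint := intervalIntegral.integrableOn_deriv_of_nonneg hcont hder fun ρ hρ =>
    Real.rpow_nonneg (hpos ρ (Ioo_subset_Icc_self hρ)).le _
  have hval := intervalIntegral.integral_eq_sub_of_hasDerivAt_of_le zero_le_one hcont hder
    ((intervalIntegrable_iff_integrableOn_Ioc_of_le zero_le_one).2 hint)
  rw [intervalIntegral.integral_of_le zero_le_one, integral_Ioc_eq_integral_Ioo] at hval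
  rw [← ofReal_integral_eq_lintegral_ofReal (hint.mono_set Ioo_subset_Ioc_self)
    ((ae_restrict_mem measurableSet_Ioo).mono fun ρ hρ =>
      Real.rpow_nonneg (hpos ρ (Ioo_subset_Icc_self hρ)).le _), hval]
  refine ENNReal.ofReal_le_ofReal ?_
  have : 0 ≤ (1 - 0 + d) ^ (-σ) / σ := by positivity
  rw [sub_self, zero_add]
  linarith

lemma sa_main {z : ℂ} (hz : ‖z‖ < 1) {σ : ℝ} (hσ : 0 < σ) (φ : ℝ → ℝ)
    (h0 : ∀ ρ ∈ Ioo (0 : ℝ) 1, 0 ≤ φ ρ)
    (hφ : ∀ ρ ∈ Ioo (0 : ℝ) 1, φ ρ ≤ (1 - ρ + (1 - ‖z‖)) ^ (1 - σ)) :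
    ∫⁻ w, ENNReal.ofReal (φ ‖w‖ / ‖1 - conj z * w‖ ^ 3) ∂μD ≤
      ENNReal.ofReal (8 * π * ((1 - ‖z‖) ^ (-σ) / σ)) := by
  have hd : 0 < 1 - ‖z‖ := by linarith
  have hπ := pi_pos
  have hn := norm_nonneg z
  rw [← lintegral_indicator measurableSet_ball, ← Complex.lintegral_comp_polarCoord_symm,
    polarCoord_target, Measure.volume_eq_prod, ← Measure.prod_restrict]
  refine (lintegral_prod_le _).trans ?_
  have key : ∀ ρ ∈ Ioi (0 : ℝ), ∫⁻ θ in Ioo (-π) π, ENNReal.ofReal ρ •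
      (ball (0 : ℂ) 1).indicator (fun w => ENNReal.ofReal (φ ‖w‖ / ‖1 - conj z * w‖ ^ 3))
        (Complex.polarCoord.symm (ρ, θ)) ≤
      (Iio (1 : ℝ)).indicator (fun ρ => ENNReal.ofReal (8 * π) *
        ENNReal.ofReal ((1 - ρ + (1 - ‖z‖)) ^ (-σ - 1))) ρ := by
    intro ρ (hρ : 0 < ρ)
    have hw : ∀ θ, ‖Complex.polarCoord.symm (ρ, θ)‖ = ρ := fun θ => by
      rw [Complex.norm_polarCoord_symm, abs_of_pos hρ]
    by_cases h1 : ρ < 1
    swap
    · have : ∀ θ, (ball (0 : ℂ) 1).indicator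
          (fun w => ENNReal.ofReal (φ ‖w‖ / ‖1 - conj z * w‖ ^ 3))
          (Complex.polarCoord.symm (ρ, θ)) = 0 := fun θ =>
        indicator_of_notMem (by rw [mem_ball_zero_iff, hw]; exact h1) _
      simp only [this, smul_zero, lintegral_zero, zero_le]
    have ha : ‖(ρ : ℂ) * z‖ = ρ * ‖z‖ := by
      rw [norm_mul, Complex.norm_real, Real.norm_of_nonneg hρ.le]
    have ha1 : ρ * ‖z‖ < 1 := by nlinarith
    have hs : 0 < 1 - ρ := by linarith
    have hφ0 := h0 ρ ⟨hρ, h1⟩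
    rw [indicator_of_mem (show ρ ∈ Iio (1 : ℝ) from h1)]
    calc _ ≤ ∫⁻ θ in Ioo (-π) π, ENNReal.ofReal (φ ρ) *
          ENNReal.ofReal (1 / ‖1 - conj ((ρ : ℂ) * z) * circleMap 0 1 θ‖ ^ 3) := by
          refine lintegral_mono fun θ => ?_
          rw [indicator_of_mem (by rw [mem_ball_zero_iff, hw]; exact h1), hw, smul_eq_mul,
            ← ENNReal.ofReal_mul hφ0, mul_one_div]
          have e : conj z * Complex.polarCoord.symm (ρ, θ) =
              conj ((ρ : ℂ) * z) * circleMap 0 1 θ := by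
            simp [circleMap, Complex.exp_mul_I]
            ring
          rw [e]
          exact mul_le_of_le_one_left' (ENNReal.ofReal_le_one.2 h1.le)
      _ ≤ ENNReal.ofReal (φ ρ) * ENNReal.ofReal (2 * π / (1 - ρ * ‖z‖) ^ 2) := by
          rw [lintegral_const_mul' _ _ ENNReal.ofReal_ne_top, ← ha]
          exact mul_le_mul_right (fr_ang (ha ▸ ha1)) _
      _ ≤ _ := by
          rw [← ENNReal.ofReal_mul hφ0, ← ENNReal.ofReal_mul (by positivity)]
          refine ENNReal.ofReal_le_ofReal ?_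
          have q0 := hφ ρ ⟨hρ, h1⟩
          set u := 1 - ρ + (1 - ‖z‖) with hu
          have hu0 : 0 < u := by positivity
          have q1 : u ^ (1 - σ) = u ^ (-σ - 1) * u ^ 2 := by
            rw [← Real.rpow_natCast u 2, ← Real.rpow_add hu0]
            congr 1
            push_cast
            ring
          have q5 : 0 < 1 - ρ * ‖z‖ := by linarith
          have q3 : u ≤ 2 * (1 - ρ * ‖z‖) := by
            nlinarith [mul_nonneg hs.le hn, mul_nonneg hd.le hρ.le]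
          have q4 : u ^ 2 ≤ (2 * (1 - ρ * ‖z‖)) ^ 2 := pow_le_pow_left₀ hu0.le q3 2
          have q6 : 0 ≤ u ^ (-σ - 1) := Real.rpow_nonneg hu0.le _
          rw [q1] at q0
          rw [← mul_div_assoc, div_le_iff₀ (by positivity)]
          have q7 := mul_le_mul_of_nonneg_left q4 q6
          have q8 := mul_le_mul_of_nonneg_right (q0.trans q7) (show 0 ≤ 2 * π by positivity)
          calc _ ≤ _ := q8
            _ = _ := by ring
  refine (setLIntegral_mono' measurableSet_Ioi key).trans ?_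
  rw [lintegral_indicator measurableSet_Iio, Measure.restrict_restrict measurableSet_Iio,
    Iio_inter_Ioi, lintegral_const_mul' _ _ ENNReal.ofReal_ne_top]
  refine (mul_le_mul_right (sa_rad hd hσ) _).trans ?_
  rw [← ENNReal.ofReal_mul (by positivity)]

lemma sa_abs {p : ℝ} (hp1 : 1 ≤ p) (K : ℂ → ℂ → ENNReal) (τ : ℂ → ENNReal)
    (D E : ENNReal) (Dt : D ≠ ⊤) (Et : E ≠ ⊤) (mKK : Measurable fun q : ℂ × ℂ => K q.1 q.2)
    (mτ : Measurable τ) (τ0 : ∀ w : ℂ, ‖w‖ < 1 → τ w ≠ 0) (τt : ∀ w, τ w ≠ ⊤)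
    (B1 : ∀ z : ℂ, ‖z‖ < 1 → ∫⁻ w, K z w * (τ w)⁻¹ ∂μD ≤ D * (τ z)⁻¹)
    (B3 : ∀ w : ℂ, ‖w‖ < 1 → ∫⁻ z, τ w ^ (p - 1) * (K z w * (τ z)⁻¹ ^ (p - 1)) ∂μD ≤ E) :
    ∃ C : ENNReal, C ≠ ⊤ ∧ ∀ H : ℂ → ENNReal, Measurable H →
      ∫⁻ z, (∫⁻ w, K z w * H w ∂μD) ^ p ∂μD ≤ C * ∫⁻ w, H w ^ p ∂μD := by
  have hp0 : 0 < p := by linarith
  have hq0 : 0 ≤ p - 1 := by linarith
  have h1 : 0 ≤ 1 / p := by positivity
  have h2 : 0 ≤ 1 - 1 / p := by
    rw [sub_nonneg, div_le_one hp0]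
    exact hp1
  have mK : ∀ z, Measurable fun w => K z w := fun z =>
    mKK.comp (measurable_const.prodMk measurable_id)
  have mK' : ∀ w, Measurable fun z => K z w := fun w =>
    mKK.comp (measurable_id.prodMk measurable_const)
  have Dq : D ^ (p - 1) ≠ ⊤ := ENNReal.rpow_ne_top_of_nonneg hq0 Dt
  refine ⟨D ^ (p - 1) * E, ENNReal.mul_ne_top Dq Et, fun H hH => ?_⟩
  have mH : Measurable fun w => H w ^ p := hH.pow_const p
  have key : ∀ z : ℂ, ‖z‖ < 1 → (∫⁻ w, K z w * H w ∂μD) ^ p ≤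
      D ^ (p - 1) * ∫⁻ w, H w ^ p * (τ w ^ (p - 1) * (K z w * (τ z)⁻¹ ^ (p - 1))) ∂μD :=
    fun z hz => by
    have hol := ENNReal.lintegral_mul_norm_pow_le (μ := μD)
      (f := fun w => K z w * H w ^ p * τ w ^ (p - 1)) (g := fun w => K z w * (τ w)⁻¹)
      (((mK z).mul mH).mul (mτ.pow_const _)).aemeasurable ((mK z).mul mτ.inv).aemeasurable
      h1 h2 (by ring)
    rw [lintegral_congr_ae (sch_ae.mono fun w hw =>
      sch_split hp1 (K z w) (H w) (τ w) (τ0 w hw) (τt w))] at hol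
    have it : (τ z)⁻¹ ^ (p - 1) ≠ ⊤ :=
      ENNReal.rpow_ne_top_of_nonneg hq0 (ENNReal.inv_ne_top.2 (τ0 z hz))
    calc _ ≤ ((∫⁻ w, K z w * H w ^ p * τ w ^ (p - 1) ∂μD) ^ (1 / p) *
          (D * (τ z)⁻¹) ^ (1 - 1 / p)) ^ p :=
          ENNReal.rpow_le_rpow (hol.trans (mul_le_mul_right
            (ENNReal.rpow_le_rpow (B1 z hz) h2) _)) hp0.le
      _ = D ^ (p - 1) * ((∫⁻ w, K z w * H w ^ p * τ w ^ (p - 1) ∂μD) * (τ z)⁻¹ ^ (p - 1)) := by
          rw [ENNReal.mul_rpow_of_nonneg _ _ hp0.le, ← ENNReal.rpow_mul, ← ENNReal.rpow_mul,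
            one_div_mul_cancel hp0.ne', ENNReal.rpow_one,
            show (1 - 1 / p) * p = p - 1 by field_simp, ENNReal.mul_rpow_of_nonneg _ _ hq0]
          ring
      _ ≤ _ := by
          refine mul_le_mul_right ?_ _
          rw [← lintegral_mul_const' _ _ it]
          refine lintegral_mono fun w => le_of_eq ?_
          ring
  have mG : Measurable (Function.uncurry fun z w : ℂ =>
      H w ^ p * (τ w ^ (p - 1) * (K z w * (τ z)⁻¹ ^ (p - 1)))) :=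
    (mH.comp measurable_snd).mul (((mτ.comp measurable_snd).pow_const _).mul
      (mKK.mul ((mτ.comp measurable_fst).inv.pow_const _)))
  calc _ ≤ ∫⁻ z, D ^ (p - 1) *
        ∫⁻ w, H w ^ p * (τ w ^ (p - 1) * (K z w * (τ z)⁻¹ ^ (p - 1))) ∂μD ∂μD :=
        lintegral_mono_ae (sch_ae.mono key)
    _ = D ^ (p - 1) *
        ∫⁻ w, ∫⁻ z, H w ^ p * (τ w ^ (p - 1) * (K z w * (τ z)⁻¹ ^ (p - 1))) ∂μD ∂μD := by
        rw [lintegral_const_mul' _ _ Dq, lintegral_lintegral_swap mG.aemeasurable]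
    _ ≤ D ^ (p - 1) * ∫⁻ w, E * H w ^ p ∂μD := by
        refine mul_le_mul_right (lintegral_mono_ae (sch_ae.mono fun w hw => ?_)) _
        have m1 : Measurable fun z => τ w ^ (p - 1) * (K z w * (τ z)⁻¹ ^ (p - 1)) :=
          measurable_const.mul ((mK' w).mul (mτ.inv.pow_const _))
        rw [lintegral_const_mul _ m1, mul_comm]
        exact mul_le_mul_left (B3 w hw) _
    _ = _ := by rw [lintegral_const_mul _ mH, mul_assoc]

theorem schur_all {p : ℝ} (hp1 : 1 ≤ p) : ∃ C : ENNReal, C ≠ ⊤ ∧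
    ∀ H : ℂ → ENNReal, Measurable H →
      ∫⁻ z, (∫⁻ w, KK z w * H w ∂μD) ^ p ∂μD ≤ C * ∫⁻ w, H w ^ p ∂μD := by
  rcases le_total p 2 with hp2 | hp2
  · exact schur hp1 hp2
  obtain ⟨C, hC, hfr⟩ := fr_est
  have hπ := pi_pos
  have hq : 0 < p - 1 := by linarith
  set σ : ℝ := 1 / (2 * (p - 1)) with hσd
  have hσ : 0 < σ := by positivity
  have hσ1 : σ ≤ 1 := by
    rw [hσd, div_le_one (by positivity)]
    linarith
  have hσq : σ * (p - 1) = 1 / 2 := by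
    rw [hσd]
    field_simp
  let τ : ℂ → ENNReal := fun w => ENNReal.ofReal ((1 - ‖w‖) ^ σ)
  have mτ : Measurable τ := Measurable.ennreal_ofReal (by fun_prop)
  have s0 : ∀ w : ℂ, ‖w‖ < 1 → 0 < (1 - ‖w‖) ^ σ := fun w hw =>
    Real.rpow_pos_of_pos (by linarith) _
  have τ0 : ∀ w : ℂ, ‖w‖ < 1 → τ w ≠ 0 := fun w hw => (ENNReal.ofReal_pos.2 (s0 w hw)).ne'
  have τt : ∀ w, τ w ≠ ⊤ := fun w => ENNReal.ofReal_ne_top
  have τi : ∀ w : ℂ, ‖w‖ < 1 → (τ w)⁻¹ = ENNReal.ofReal ((1 - ‖w‖) ^ (-σ)) := fun w hw => by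
    rw [Real.rpow_neg (by linarith)]
    exact (ENNReal.ofReal_inv_of_pos (s0 w hw)).symm
  have τq : ∀ w : ℂ, ‖w‖ < 1 → τ w ^ (p - 1) = ENNReal.ofReal (√(1 - ‖w‖)) := fun w hw => by
    show ENNReal.ofReal ((1 - ‖w‖) ^ σ) ^ (p - 1) = _
    rw [ENNReal.ofReal_rpow_of_pos (s0 w hw), ← Real.rpow_mul (by linarith), hσq,
      Real.sqrt_eq_rpow]
  have r0 : ∀ w : ℂ, ‖w‖ < 1 → 0 < √(1 - ‖w‖) := fun w hw => Real.sqrt_pos.2 (by linarith)
  have τiq : ∀ w : ℂ, ‖w‖ < 1 → (τ w)⁻¹ ^ (p - 1) = ENNReal.ofReal (√(1 - ‖w‖))⁻¹ :=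
    fun w hw => by
    rw [ENNReal.inv_rpow, τq w hw]
    exact (ENNReal.ofReal_inv_of_pos (r0 w hw)).symm
  refine sa_abs hp1 KK τ (ENNReal.ofReal (2 * (8 * π / σ))) (ENNReal.ofReal (2 * C))
    ENNReal.ofReal_ne_top ENNReal.ofReal_ne_top measurable_KK mτ τ0 τt
    (fun z hz => ?_) (fun w hw => ?_)
  · have e : ∀ w : ℂ, ‖1 - conj w * z‖ = ‖1 - conj z * w‖ := fun w => by
      rw [← Complex.norm_conj]
      simp [mul_comm]
    have hd : 0 < 1 - ‖z‖ := by linarith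
    have h := sa_main hz hσ (fun ρ => (1 - ρ) ^ (1 - σ))
      (fun ρ hρ => Real.rpow_nonneg (by linarith [hρ.2]) _)
      (fun ρ hρ => Real.rpow_le_rpow (by linarith [hρ.2]) (by linarith) (by linarith))
    calc _ ≤ ∫⁻ w, ENNReal.ofReal 2 *
          ENNReal.ofReal ((1 - ‖w‖) ^ (1 - σ) / ‖1 - conj z * w‖ ^ 3) ∂μD := by
          refine lintegral_mono_ae (sch_ae.mono fun w hw => ?_)
          have a : 0 < 1 - ‖w‖ := by linarith
          have b := sch_sq hw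
          have c : (1 - ‖w‖) ^ (1 - σ) = (1 - ‖w‖) * (1 - ‖w‖) ^ (-σ) := by
            rw [sub_eq_add_neg 1 σ, Real.rpow_add a, Real.rpow_one]
          have c0 : 0 ≤ (1 - ‖w‖) ^ (-σ) := Real.rpow_nonneg a.le _
          rw [τi w hw, KK, ← ENNReal.ofReal_mul (div_nonneg b.1 (by positivity)),
            ← ENNReal.ofReal_mul (by norm_num), e w]
          refine ENNReal.ofReal_le_ofReal ?_
          rw [div_mul_eq_mul_div, ← mul_div_assoc]
          refine div_le_div_of_nonneg_right ?_ (by positivity)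
          rw [c, ← mul_assoc]
          exact mul_le_mul_of_nonneg_right b.2 c0
      _ ≤ ENNReal.ofReal 2 * ENNReal.ofReal (8 * π * ((1 - ‖z‖) ^ (-σ) / σ)) := by
          rw [lintegral_const_mul' _ _ ENNReal.ofReal_ne_top]
          exact mul_le_mul_right h _
      _ = _ := by
          rw [τi z hz, ← ENNReal.ofReal_mul (by norm_num), ← ENNReal.ofReal_mul (by positivity)]
          congr 1
          ring
  · have b := sch_sq hw
    have a : 0 < 1 - ‖w‖ := by linarith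
    have a' := r0 w hw
    calc _ = ∫⁻ z, ENNReal.ofReal (√(1 - ‖w‖) * (1 - ‖w‖ ^ 2)) *
          ENNReal.ofReal (1 / (√(1 - ‖z‖) * ‖1 - conj w * z‖ ^ 3)) ∂μD := by
          refine lintegral_congr_ae (sch_ae.mono fun z hz => ?_)
          have a2 := r0 z hz
          beta_reduce
          rw [τq w hw, τiq z hz, KK, ← ENNReal.ofReal_mul (div_nonneg b.1 (by positivity)),
            ← ENNReal.ofReal_mul a'.le, ← ENNReal.ofReal_mul (mul_nonneg a'.le b.1)]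
          congr 1
          rw [one_div, mul_inv, div_eq_mul_inv]
          ring
      _ ≤ ENNReal.ofReal (√(1 - ‖w‖) * (1 - ‖w‖ ^ 2)) *
          ENNReal.ofReal (C / ((1 - ‖w‖) * √(1 - ‖w‖))) := by
          rw [lintegral_const_mul' _ _ ENNReal.ofReal_ne_top]
          exact mul_le_mul_right (hfr w hw).2.2 _
      _ ≤ _ := by
          rw [← ENNReal.ofReal_mul (mul_nonneg a'.le b.1)]
          refine ENNReal.ofReal_le_ofReal ?_
          rw [← mul_div_assoc, div_le_iff₀ (by positivity)]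
          have := mul_le_mul_of_nonneg_left b.2 (mul_nonneg a'.le hC)
          nlinarith

end Pool.Agent.Lib.MP_435399_an.A1
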