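import Pool.Agent.Lib.MP_435399_an.A1.Pois

set_option autoImplicit false

open MeasureTheory Set Metric Real Complex Filter Topology ComplexConjugate

namespace Pool.Agent.Lib.MP_435399_an.A1

/-- The Poisson weight. -/
noncomputable def Po (l z : ℂ) : ENNReal :=
  ENNReal.ofReal ((1 - ‖l‖ ^ 2) / ‖1 - conj l * z‖ ^ 2)

/-- The bound for the mean of the Poisson weight over a thin annulus. -/
noncomputable def Mb (r : ℝ) (z : ℂ) : ENNReal :=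
  ENNReal.ofReal (min 1 (2 * (1 - r) / (1 - ‖z‖) ^ 2))

lemma measurable_Po {α : Type*} [MeasurableSpace α] {u v : α → ℂ} (hu : Measurable u)
    (hv : Measurable v) : Measurable fun q => Po (u q) (v q) := by
  unfold Po
  exact Measurable.ennreal_ofReal (by fun_prop)

lemma measurable_Mb (r : ℝ) : Measurable (Mb r) := by
  unfold Mb
  exact Measurable.ennreal_ofReal (by fun_prop)

lemma van_step {μ : Measure (ℂ × ℂ)} [SFinite μ] (hμ : ∀ᵐ q ∂μ, ‖q.1‖ < 1 ∧ ‖q.2‖ < 1)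
    {ν : ℂ × ℂ → ENNReal} (hν : Measurable ν) {P : ℂ → ℂ}
    (hP : DifferentiableOn ℂ P (ball 0 1))
    (hrep : ∀ l : ℂ, 1 / 2 ≤ ‖l‖ → ‖l‖ < 1 → ‖P l‖ₑ ≤ ∫⁻ q, (Po l q.1 + Po l q.2) * ν q ∂μ)
    {a : ℂ} {r : ℝ} (hr : 1 / 2 ≤ r) (hr1 : r < 1) (ha : ‖a‖ < r) :
    ENNReal.ofReal (‖P a‖ * (r - ‖a‖)) ≤ ∫⁻ q, (Mb r q.1 + Mb r q.2) * ν q ∂μ := by
  set r2 := (1 + r) / 2 with hr2
  have h12 : r < r2 := by linarith
  have h2 : r2 < 1 := by linarith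
  have h0 : 0 < r := by linarith
  have hc : 0 < π * (r2 ^ 2 - r ^ 2) := mul_pos pi_pos (by nlinarith)
  set A := {w : ℂ | ‖w‖ ∈ Icc r r2} with hA
  have hAm : MeasurableSet A := measurable_norm measurableSet_Icc
  have hAs : A ⊆ ball 0 1 := fun w hw => mem_ball_zero_iff.mpr (hw.2.trans_lt h2)
  have s1 : ENNReal.ofReal (π * (r2 ^ 2 - r ^ 2)) * ENNReal.ofReal (‖P a‖ * (r - ‖a‖)) ≤
      ∫⁻ l in A, ‖P l‖ₑ := by
    have h := annulus_lower hP ha h12.le h2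
    rw [integral_norm_eq_lintegral_enorm ((hP.continuousOn.mono hAs).aestronglyMeasurable hAm)] at h
    rw [← ENNReal.ofReal_mul hc.le, ← mul_assoc]
    exact (ENNReal.ofReal_le_ofReal h).trans ENNReal.ofReal_toReal_le
  have m1 : Measurable fun x : ℂ × (ℂ × ℂ) => Po x.1 x.2.1 :=
    measurable_Po measurable_fst measurable_snd.fst
  have m2 : Measurable fun x : ℂ × (ℂ × ℂ) => Po x.1 x.2.2 :=
    measurable_Po measurable_fst measurable_snd.snd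
  have m3 : Measurable fun x : ℂ × (ℂ × ℂ) => (Po x.1 x.2.1 + Po x.1 x.2.2) * ν x.2 :=
    (m1.add m2).mul (hν.comp measurable_snd)
  have m4 : ∀ u : ℂ, Measurable fun l => Po l u := fun u =>
    measurable_Po measurable_id measurable_const
  have s2 : ∫⁻ l in A, ‖P l‖ₑ ≤ ∫⁻ l in A, ∫⁻ q, (Po l q.1 + Po l q.2) * ν q ∂μ :=
    setLIntegral_mono' hAm fun l hl => hrep l (hr.trans hl.1) (hl.2.trans_lt h2)
  have s3 : ∫⁻ l in A, ∫⁻ q, (Po l q.1 + Po l q.2) * ν q ∂μ =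
      ∫⁻ q, (∫⁻ l in A, (Po l q.1 + Po l q.2) * ν q) ∂μ :=
    lintegral_lintegral_swap (f := fun l q => (Po l q.1 + Po l q.2) * ν q) m3.aemeasurable
  have s5 : ∀ u : ℂ, ‖u‖ < 1 → ∫⁻ l in A, Po l u ≤
      ENNReal.ofReal (π * (r2 ^ 2 - r ^ 2)) * Mb r u := fun u hu => by
    unfold Mb
    rw [← ENNReal.ofReal_mul hc.le]
    exact pois hu h0 h12.le h2
  have s4 : ∫⁻ q, (∫⁻ l in A, (Po l q.1 + Po l q.2) * ν q) ∂μ ≤
      ENNReal.ofReal (π * (r2 ^ 2 - r ^ 2)) * ∫⁻ q, (Mb r q.1 + Mb r q.2) * ν q ∂μ := by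
    rw [← lintegral_const_mul' _ _ ENNReal.ofReal_ne_top]
    refine lintegral_mono_ae ?_
    filter_upwards [hμ] with q hq
    have m5 : Measurable fun l => Po l q.1 + Po l q.2 := (m4 _).add (m4 _)
    rw [lintegral_mul_const _ m5, lintegral_add_left (m4 _), ← mul_assoc, mul_add]
    exact mul_le_mul_left (add_le_add (s5 _ hq.1) (s5 _ hq.2)) _
  exact (ENNReal.mul_le_mul_iff_right (by simpa using hc) ENNReal.ofReal_ne_top).mp
    (s1.trans (s2.trans (s3.le.trans s4)))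

theorem van {μ : Measure (ℂ × ℂ)} [SFinite μ] (hμ : ∀ᵐ q ∂μ, ‖q.1‖ < 1 ∧ ‖q.2‖ < 1)
    {ν : ℂ × ℂ → ENNReal} (hν : Measurable ν) (hfin : ∫⁻ q, ν q ∂μ ≠ ⊤) {P : ℂ → ℂ}
    (hP : DifferentiableOn ℂ P (ball 0 1))
    (hrep : ∀ l : ℂ, 1 / 2 ≤ ‖l‖ → ‖l‖ < 1 → ‖P l‖ₑ ≤ ∫⁻ q, (Po l q.1 + Po l q.2) * ν q ∂μ)
    {a : ℂ} (ha : ‖a‖ < 1) : P a = 0 := by
  set r : ℕ → ℝ := fun n => 1 - 1 / ((n : ℝ) + 1) with hr
  have hr1 : Tendsto r atTop (𝓝 1) := by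
    have := (tendsto_one_div_add_atTop_nhds_zero_nat (𝕜 := ℝ)).const_sub 1
    rwa [sub_zero] at this
  have hlt : ∀ n, r n < 1 := fun n => by
    have : 0 < 1 / ((n : ℝ) + 1) := by positivity
    simp only [hr]
    linarith
  have hM : ∀ u : ℂ, Tendsto (fun n => Mb (r n) u) atTop (𝓝 0) := fun u => by
    have h1 : Tendsto (fun n => min 1 (2 * (1 - r n) / (1 - ‖u‖) ^ 2)) atTop (𝓝 0) := by
      simpa using (tendsto_const_nhds (x := (1 : ℝ))).min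
        (((hr1.const_sub 1).const_mul 2).div_const ((1 - ‖u‖) ^ 2))
    simpa [Mb] using ENNReal.tendsto_ofReal h1
  have hM1 : ∀ s u, Mb s u ≤ 1 := fun s u => ENNReal.ofReal_le_one.mpr (min_le_left _ _)
  have t1 : Tendsto (fun n => ∫⁻ q, (Mb (r n) q.1 + Mb (r n) q.2) * ν q ∂μ) atTop
      (𝓝 (∫⁻ _, 0 ∂μ)) := by
    refine tendsto_lintegral_of_dominated_convergence (fun q => (1 + 1) * ν q)
      (fun n => (((measurable_Mb _).comp measurable_fst).add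
        ((measurable_Mb _).comp measurable_snd)).mul hν)
      (fun n => Eventually.of_forall fun q => mul_le_mul_left (add_le_add (hM1 _ _) (hM1 _ _)) _)
      ?_ ?_
    · rw [lintegral_const_mul _ hν]
      exact ENNReal.mul_ne_top (by simp) hfin
    · filter_upwards [ae_lt_top hν hfin] with q hq
      simpa using ENNReal.Tendsto.mul_const ((hM q.1).add (hM q.2)) (Or.inr hq.ne)
  rw [lintegral_zero] at t1
  have t2 : Tendsto (fun n => ENNReal.ofReal (‖P a‖ * (r n - ‖a‖))) atTop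
      (𝓝 (ENNReal.ofReal (‖P a‖ * (1 - ‖a‖)))) :=
    ENNReal.tendsto_ofReal ((hr1.sub_const _).const_mul _)
  have h3 : ENNReal.ofReal (‖P a‖ * (1 - ‖a‖)) ≤ 0 := by
    refine le_of_tendsto_of_tendsto t2 t1 ?_
    filter_upwards [hr1.eventually (lt_mem_nhds ha),
      hr1.eventually (lt_mem_nhds (show (1 / 2 : ℝ) < 1 by norm_num))] with n h1 h2
    exact van_step hμ hν hP hrep h2.le (hlt n) h1
  rw [nonpos_iff_eq_zero, ENNReal.ofReal_eq_zero] at h3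
  have h4 : 0 < 1 - ‖a‖ := by linarith
  exact norm_le_zero_iff.mp (le_of_mul_le_mul_right (by simpa using h3) h4)

theorem van' {μ : Measure (ℂ × ℂ)} [SFinite μ] (hμ : ∀ᵐ q ∂μ, ‖q.1‖ < 1 ∧ ‖q.2‖ < 1)
    {ν : ℂ × ℂ → ENNReal} (hν : AEMeasurable ν μ) (hfin : ∫⁻ q, ν q ∂μ ≠ ⊤) {P : ℂ → ℂ}
    (hP : DifferentiableOn ℂ P (ball 0 1))
    (hrep : ∀ l : ℂ, 1 / 2 ≤ ‖l‖ → ‖l‖ < 1 → ‖P l‖ₑ ≤ ∫⁻ q, (Po l q.1 + Po l q.2) * ν q ∂μ)
    {a : ℂ} (ha : ‖a‖ < 1) : P a = 0 := by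
  refine van hμ hν.measurable_mk (by rwa [← lintegral_congr_ae hν.ae_eq_mk]) hP
    (fun l h1 h2 => (hrep l h1 h2).trans (lintegral_congr_ae ?_).le) ha
  filter_upwards [hν.ae_eq_mk] with q hq
  rw [hq]

end Pool.Agent.Lib.MP_435399_an.A1
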