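import Pool.Agent.Lib.MP_435399_an.A1.Defs

set_option autoImplicit false

open MeasureTheory Set Metric Real Complex Filter Topology ComplexConjugate

namespace Pool.Agent.Lib.MP_435399_an.A1

/-- The Wronskian step: the limit of the divided differences is a multiple of `g`. -/
theorem wronsk {z : ℕ → ℂ} (hz : ∀ n, ‖z n‖ < 1) {g H : ℂ → ℂ}
    (hgd : DifferentiableOn ℂ g (ball 0 1)) (hgz : ∀ n, g (z n) = 0) {b0 : ℂ}
    (hb0 : b0 ∈ ball (0 : ℂ) 1) (hgb0 : g b0 ≠ 0) (S : ℕ → Finset ℕ) (c : ℕ → ℕ → ℂ)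
    (hloc : TendstoLocallyUniformlyOn (fun j l => π * ∑ n ∈ S j, c j n * dslope g (z n) l) H atTop
      (ball 0 1)) {w0 : ℂ} (hw0 : 1 < ‖w0‖)
    (hE : ∃ᶠ w in 𝓝[≠] w0, (∀ n, z n * w ≠ 1) ∧
      Tendsto (fun j => comb z (S j) (c j) w) atTop (𝓝 0)) :
    ∃ κ : ℂ, EqOn H (fun u => κ * g u) (ball 0 1) := by
  have hz' : ∀ n, z n ∈ ball (0 : ℂ) 1 := fun n => mem_ball_zero_iff.mpr (hz n)
  have hpre : IsPreconnected (ball (0 : ℂ) 1) := (convex_ball _ _).isPreconnected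
  have hdsd : ∀ l ∈ ball (0 : ℂ) 1, DifferentiableOn ℂ (dslope g l) (ball 0 1) :=
    fun l hl => (Complex.differentiableOn_dslope (isOpen_ball.mem_nhds hl)).mpr hgd
  set Hj : ℕ → ℂ → ℂ := fun j l => π * ∑ n ∈ S j, c j n * dslope g (z n) l with hHj
  have hHjd : ∀ j, DifferentiableOn ℂ (Hj j) (ball 0 1) := fun j =>
    (DifferentiableOn.fun_sum fun n _ => (hdsd _ (hz' n)).const_mul _).const_mul _
  have hHd : DifferentiableOn ℂ H (ball 0 1) :=
    hloc.differentiableOn (Eventually.of_forall hHjd) isOpen_ball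
  have hloc' := hloc.deriv (Eventually.of_forall hHjd) isOpen_ball
  set W : ℂ → ℂ := fun l => deriv H l * g l - H l * deriv g l with hW
  have hWd : DifferentiableOn ℂ W (ball 0 1) :=
    ((hHd.deriv isOpen_ball).mul hgd).sub (hHd.mul (hgd.deriv isOpen_ball))
  have hWpt : ∀ w : ℂ, 1 < ‖w‖ → (∀ n, z n * w ≠ 1) →
      Tendsto (fun j => comb z (S j) (c j) w) atTop (𝓝 0) → W w⁻¹ = 0 := by
    intro w hw hnp hlim
    set l := w⁻¹ with hl
    have hw0 : w ≠ 0 := by
      intro h0; rw [h0, norm_zero] at hw; linarith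
    have hlb : l ∈ ball (0 : ℂ) 1 := by
      rw [mem_ball_zero_iff, hl, norm_inv]
      exact inv_lt_one_of_one_lt₀ hw
    have hne : ∀ n, l - z n ≠ 0 := by
      intro n h0
      apply hnp n
      rw [← sub_eq_zero.mp h0, hl, inv_mul_cancel₀ hw0]
    have hgl : HasDerivAt g (deriv g l) l :=
      (hgd.differentiableAt (isOpen_ball.mem_nhds hlb)).hasDerivAt
    have hval : ∀ n, dslope g (z n) l = g l / (l - z n) := by
      intro n
      rw [dslope_of_ne _ (sub_ne_zero.mp (hne n)), slope_def_field, hgz, sub_zero]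
    have hder : ∀ n, HasDerivAt (dslope g (z n))
        ((deriv g l * (l - z n) - g l * 1) / (l - z n) ^ 2) l := by
      intro n
      refine (hgl.div ((hasDerivAt_id l).sub_const (z n)) (hne n)).congr_of_eventuallyEq ?_
      filter_upwards [isOpen_ne.mem_nhds (sub_ne_zero.mp (hne n))] with u hu
      rw [dslope_of_ne _ hu, slope_def_field, hgz, sub_zero]
      rfl
    have hj : ∀ j, deriv (Hj j) l * g l - Hj j l * deriv g l
        = -(π * (g l) ^ 2 * w ^ 2) * comb z (S j) (c j) w := by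
      intro j
      have := ((HasDerivAt.fun_sum (u := S j) fun n _ =>
        (hder n).const_mul (c j n)).const_mul (π : ℂ)).deriv
      simp only [hHj]
      rw [this]
      simp only [hval, comb, Finset.mul_sum, Finset.sum_mul, ← Finset.sum_sub_distrib]
      refine Finset.sum_congr rfl fun n _ => ?_
      have e : 1 - z n * w = (l - z n) * w := by
        rw [sub_mul, hl, inv_mul_cancel₀ hw0]
      rw [e]
      have := hne n
      field_simp
      ring
    have t1 : Tendsto (fun j => deriv (Hj j) l * g l - Hj j l * deriv g l) atTop (𝓝 (W l)) :=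
      ((hloc'.tendsto_at hlb).mul_const _).sub ((hloc.tendsto_at hlb).mul_const _)
    have t2 : Tendsto (fun j => deriv (Hj j) l * g l - Hj j l * deriv g l) atTop (𝓝 0) := by
      simp_rw [hj]
      have := hlim.const_mul (-(π * (g l) ^ 2 * w ^ 2))
      rwa [mul_zero] at this
    exact tendsto_nhds_unique t1 t2
  have hW0 : EqOn W 0 (ball 0 1) := by
    have hw00 : w0 ≠ 0 := by
      intro h0; rw [h0, norm_zero] at hw0; linarith
    refine (hWd.analyticOnNhd isOpen_ball).eqOn_zero_of_preconnected_of_frequently_eq_zero hpre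
      (z₀ := w0⁻¹) ?_ ?_
    · rw [mem_ball_zero_iff, norm_inv]
      exact inv_lt_one_of_one_lt₀ hw0
    · have ht : Tendsto (fun w : ℂ => w⁻¹) (𝓝[≠] w0) (𝓝[≠] w0⁻¹) := by
        refine tendsto_nhdsWithin_of_tendsto_nhds_of_eventually_within _
          (Tendsto.mono_left (tendsto_id.inv₀ hw00) nhdsWithin_le_nhds) ?_
        filter_upwards [self_mem_nhdsWithin] with w hw h0
        exact hw (inv_injective (mem_singleton_iff.mp h0))
      refine ht.frequently ?_
      have hev : ∀ᶠ w in 𝓝[≠] w0, 1 < ‖w‖ :=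
        mem_nhdsWithin_of_mem_nhds ((isOpen_lt continuous_const continuous_norm).mem_nhds hw0)
      exact (hE.and_eventually hev).mono fun w hw => hWpt w hw.2 hw.1.1 hw.1.2
  obtain ⟨η, hη, hηb⟩ : ∃ η > 0, ∀ u ∈ ball b0 η, u ∈ ball (0 : ℂ) 1 ∧ g u ≠ 0 := by
    have h1 : ∀ᶠ u in 𝓝 b0, g u ≠ 0 :=
      (hgd.differentiableAt (isOpen_ball.mem_nhds hb0)).continuousAt.eventually_ne hgb0
    obtain ⟨η, hη, h2⟩ := Metric.mem_nhds_iff.mp
      ((show ∀ᶠ u in 𝓝 b0, u ∈ ball (0 : ℂ) 1 from isOpen_ball.mem_nhds hb0).and h1)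
    exact ⟨η, hη, h2⟩
  obtain ⟨κ, hκ⟩ : ∃ κ : ℂ, ∀ u ∈ ball b0 η, H u / g u = κ := by
    refine isOpen_ball.exists_is_const_of_deriv_eq_zero (convex_ball _ _).isPreconnected
      ((hHd.mono fun u hu => (hηb u hu).1).div (hgd.mono fun u hu => (hηb u hu).1)
        fun u hu => (hηb u hu).2) fun u hu => ?_
    have hn := isOpen_ball.mem_nhds (hηb u hu).1
    have := ((hHd.differentiableAt hn).hasDerivAt.div (hgd.differentiableAt hn).hasDerivAt
      (hηb u hu).2).deriv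
    have e : deriv H u * g u - H u * deriv g u = 0 := hW0 (hηb u hu).1
    rw [e, zero_div] at this
    exact this
  refine ⟨κ, (hHd.analyticOnNhd isOpen_ball).eqOn_of_preconnected_of_eventuallyEq
    ((hgd.const_mul κ).analyticOnNhd isOpen_ball) hpre hb0 ?_⟩
  filter_upwards [ball_mem_nhds b0 hη] with u hu
  rw [← hκ u hu, div_mul_cancel₀ _ (hηb u hu).2]

lemma prim_le {D d : ℂ → ℂ} (hd : DifferentiableOn ℂ d (ball 0 1))
    (hi : IntegrableOn d (ball (0 : ℂ) 1)) (hD : ∀ u ∈ ball (0 : ℂ) 1, HasDerivAt D (d u) u)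
    (h0 : D 0 = 0) {l : ℂ} (hl : ‖l‖ < 1) :
    ‖D l‖ ≤ (∫ w, ‖d w‖ ∂μD) / (1 - ‖l‖) ^ 2 := by
  have hs : closedBall (0 : ℂ) ‖l‖ ⊆ ball 0 1 := closedBall_subset_ball hl
  have h1 : 0 < 1 - ‖l‖ := by linarith
  have := (convex_closedBall (0 : ℂ) ‖l‖).norm_image_sub_le_of_norm_hasDerivWithin_le
    (f := D) (f' := d) (C := (∫ w, ‖d w‖ ∂μD) / (1 - ‖l‖) ^ 2)
    (fun u hu => (hD u (hs hu)).hasDerivWithinAt)
    (fun u hu => by
      have hu1 : ‖u‖ ≤ ‖l‖ := mem_closedBall_zero_iff.mp hu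
      rw [le_div_iff₀ (by positivity), mul_comm]
      refine le_trans ?_ (growth hd hi (hu1.trans_lt hl))
      gcongr)
    (mem_closedBall_self (norm_nonneg l)) (mem_closedBall_zero_iff.mpr le_rfl)
  rw [h0, sub_zero, sub_zero] at this
  have hI : 0 ≤ ∫ w, ‖d w‖ ∂μD := integral_nonneg fun _ => norm_nonneg _
  exact this.trans (mul_le_of_le_one_right (by positivity) hl.le)

lemma prim_tendsto {z : ℕ → ℂ} (hz : ∀ n, ‖z n‖ < 1) (S : ℕ → Finset ℕ) (c : ℕ → ℕ → ℂ)
    {f F : ℂ → ℂ} (hd : DifferentiableOn ℂ f (ball 0 1)) (hi : IntegrableOn f (ball (0 : ℂ) 1))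
    (hF : ∀ u ∈ ball (0 : ℂ) 1, HasDerivAt F (f u) u) (h0 : F 0 = 0)
    (hconv : Tendsto (fun j => ∫ w, ‖comb z (S j) (c j) w - f w‖ ∂μD) atTop (𝓝 0))
    {l : ℂ} (hl : ‖l‖ < 1) :
    Tendsto (fun j => ∑ n ∈ S j, c j n * (l / (1 - z n * l))) atTop (𝓝 (F l)) := by
  rw [tendsto_iff_norm_sub_tendsto_zero]
  have h1 := hconv.div_const ((1 - ‖l‖) ^ 2)
  rw [zero_div] at h1
  refine squeeze_zero (fun _ => norm_nonneg _) (fun j => ?_) h1
  refine prim_le (D := fun l => ∑ n ∈ S j, c j n * (l / (1 - z n * l)) - F l)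
    (d := fun w => comb z (S j) (c j) w - f w) ((comb_differentiableOn hz _ _).sub hd)
    (((comb_memLp hz _ _).integrable one_le_two).sub hi) (fun u hu => ?_) (by simp [h0]) hl
  refine HasDerivAt.sub (HasDerivAt.fun_sum fun n _ => HasDerivAt.const_mul _ ?_) (hF u hu)
  have hne := one_sub_mul_ne (hz n) (mem_ball_zero_iff.mp hu).le
  have h2 : HasDerivAt (fun x : ℂ => 1 - z n * x) (-z n) u := by
    simpa using ((hasDerivAt_id u).const_mul (z n)).const_sub 1
  refine ((hasDerivAt_id u).div h2 hne).congr_deriv ?_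
  simp only [id]
  field_simp
  ring

lemma lint_pow {p : ℝ} (hp : 0 < p) {h : ℂ → ℂ} (hi : Integrable (fun w => ‖h w‖ ^ p) μD) :
    ∫⁻ w, ‖h w‖ₑ ^ p ∂μD = ENNReal.ofReal (∫ w, ‖h w‖ ^ p ∂μD) := by
  rw [ofReal_integral_eq_lintegral_ofReal hi (Eventually.of_forall fun w => by positivity)]
  refine lintegral_congr fun w => ?_
  rw [← ENNReal.ofReal_rpow_of_nonneg (norm_nonneg _) hp.le, ofReal_norm]

lemma memLp_iff_pow {p : ℝ} (hp : 0 < p) {h : ℂ → ℂ} (hm : AEStronglyMeasurable h μD) :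
    Integrable (fun w => ‖h w‖ ^ p) μD ↔ MemLp h (ENNReal.ofReal p) μD := by
  have := integrable_norm_rpow_iff hm (p := ENNReal.ofReal p) (by simpa using hp)
    ENNReal.ofReal_ne_top
  rwa [ENNReal.toReal_ofReal hp.le] at this

lemma tendsto_root {p : ℝ} (hp : 0 < p) (C : ENNReal) {x : ℕ → ℝ}
    (hx : Tendsto x atTop (𝓝 0)) :
    Tendsto (fun j => ((C * ENNReal.ofReal (x j)) ^ (1 / p)).toReal) atTop (𝓝 0) := by
  have h1 : Tendsto (fun j => C.toReal * max (x j) 0) atTop (𝓝 0) := by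
    simpa using (hx.max tendsto_const_nhds (g := fun _ => (0 : ℝ))).const_mul C.toReal
  have h2 := h1.rpow_const (p := 1 / p) (Or.inr (by positivity))
  rw [Real.zero_rpow (by positivity)] at h2
  refine h2.congr fun j => ?_
  rw [← ENNReal.toReal_rpow, ENNReal.toReal_mul, ENNReal.toReal_ofReal']

lemma tendsto_L1 {p : ℝ} (hp : 1 ≤ p) {v : ℕ → ℂ → ℂ} (hm : ∀ j, AEStronglyMeasurable (v j) μD)
    (hi : ∀ j, Integrable (fun w => ‖v j w‖ ^ p) μD)
    (h : Tendsto (fun j => ∫ w, ‖v j w‖ ^ p ∂μD) atTop (𝓝 0)) :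
    Tendsto (fun j => ∫ w, ‖v j w‖ ∂μD) atTop (𝓝 0) := by
  have hp0 : 0 < p := by linarith
  have h1 := (tendsto_root hp0 1 h).mul_const
    ((μD univ) ^ (1 / (1 : ℝ) - 1 / p)).toReal
  rw [zero_mul] at h1
  refine squeeze_zero (fun j => integral_nonneg fun _ => norm_nonneg _) (fun j => ?_) h1
  have h2 := eLpNorm'_le_eLpNorm'_mul_rpow_measure_univ one_pos hp (hm j)
  rw [eLpNorm'_eq_lintegral_enorm, eLpNorm'_eq_lintegral_enorm, lint_pow hp0 (hi j)] at h2
  simp only [ENNReal.rpow_one, div_one] at h2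
  have h3 : 0 ≤ 1 - 1 / p := by
    rw [sub_nonneg, div_le_one hp0]; exact hp
  rw [integral_norm_eq_lintegral_enorm (hm j), ← ENNReal.toReal_mul, one_mul, div_one]
  exact ENNReal.toReal_mono (ENNReal.mul_ne_top
    (ENNReal.rpow_ne_top_of_nonneg (by positivity) ENNReal.ofReal_ne_top)
    (ENNReal.rpow_ne_top_of_nonneg h3 (measure_ne_top _ _))) h2

end Pool.Agent.Lib.MP_435399_an.A1
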