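import Pool.Agent.Lib.MP_435399_an.A1.Op
import Pool.Agent.Lib.MP_435399_an.A1.Wr
import Pool.Agent.Lib.MP_435399_an.A1.Van
import Pool.Agent.Lib.MP_435399_an.A1.DualAll
import Pool.Agent.Lib.MP_435399_an.A1.SchurAll

set_option autoImplicit false

open MeasureTheory Set Metric Real Complex Filter Topology ComplexConjugate

namespace Pool.Agent.Lib.MP_435399_an.A1

lemma LL_SW_le {ψ f : ℂ → ℂ} {l : ℂ} (hl : ‖l‖ < 1) :
    ENNReal.ofReal (4 * (1 - ‖l‖ ^ 2)) * ‖LL ψ (SW l) f‖ₑ ≤ ∫⁻ q, (Po l q.1 + Po l q.2) *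
      (ENNReal.ofReal 32 * (‖ψ q.1‖ₑ * (KK q.1 q.2 * ‖f q.2‖ₑ))) ∂(μD.prod μD) := by
  have h0 : 0 ≤ 1 - ‖l‖ ^ 2 := by nlinarith [norm_nonneg l]
  refine (mul_le_mul_right (enorm_integral_le_lintegral_enorm _) _).trans ?_
  rw [← lintegral_const_mul' _ _ ENNReal.ofReal_ne_top]
  refine lintegral_mono_ae ?_
  filter_upwards [ae_ball2] with q hq
  have h1 := SW_le hl hq.1 (b := conj q.2) (by rw [Complex.norm_conj]; exact hq.2)
  have h2 : ‖1 - conj q.2 * l‖ = ‖1 - conj l * q.2‖ := by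
    rw [← Complex.norm_conj]
    simp [mul_comm]
  rw [h2] at h1
  have h3 := enorm_II (ψ := ψ) (h := f) (S := SW l) hq.2
    (M := 8 * (1 / ‖1 - conj l * q.1‖ ^ 2 + 1 / ‖1 - conj l * q.2‖ ^ 2)) (by positivity)
    (h1.trans (le_of_eq (by ring)))
  refine (mul_le_mul_right h3 _).trans (le_of_eq ?_)
  rw [← mul_assoc, ← mul_assoc _ (ENNReal.ofReal 32)]
  congr 1
  unfold Po
  rw [← ENNReal.ofReal_mul (by positivity), ← ENNReal.ofReal_add (by positivity) (by positivity),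
    ← ENNReal.ofReal_mul (by positivity)]
  congr 1
  ring

/-- The uniqueness theorem, given the functional `ψ` and the bound for the positive operator. -/
theorem main_of {p : ℝ} (hp1 : 1 ≤ p) {z : ℕ → ℂ} (hz : ∀ n, ‖z n‖ < 1) {u : ℂ → ℂ}
    (hud : DifferentiableOn ℂ u (ball 0 1)) (hum : MemLp u (ENNReal.ofReal p) μD)
    {ψ : ℂ → ℂ} (hψm : Measurable ψ)
    (hψb : ∀ G : ℂ → ENNReal, Measurable G →
      ∫⁻ w, ‖ψ w‖ₑ * G w ∂μD ≤ (∫⁻ w, G w ^ p ∂μD) ^ (1 / p))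
    (hψk : ∀ n, ∫ w, ψ w * ((1 - z n * w) ^ 2)⁻¹ ∂μD = 0) (hψu : ∫ w, ψ w * u w ∂μD ≠ 0)
    {C : ENNReal} (hC : C ≠ ⊤) (hsch : ∀ H : ℂ → ENNReal, Measurable H →
      ∫⁻ z, (∫⁻ w, KK z w * H w ∂μD) ^ p ∂μD ≤ C * ∫⁻ w, H w ^ p ∂μD)
    (S : ℕ → Finset ℕ) (c : ℕ → ℕ → ℂ) {f : ℂ → ℂ} (hfd : DifferentiableOn ℂ f (ball 0 1))
    (hfm : MemLp f (ENNReal.ofReal p) μD)
    (hconv : Tendsto (fun j => ∫ w, ‖comb z (S j) (c j) w - f w‖ ^ p ∂μD) atTop (𝓝 0))
    {w0 : ℂ} (hw0 : 1 < ‖w0‖)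
    (hE : ∃ᶠ w in 𝓝[≠] w0, (∀ n, z n * w ≠ 1) ∧
      Tendsto (fun j => comb z (S j) (c j) w) atTop (𝓝 0)) :
    ∀ w ∈ ball (0 : ℂ) 1, f w = 0 := by
  have hp0 : 0 < p := by linarith
  have h1p : (1 : ENNReal) ≤ ENNReal.ofReal p := ENNReal.one_le_ofReal.mpr hp1
  have hpre : IsPreconnected (ball (0 : ℂ) 1) := (convex_ball _ _).isPreconnected
  have hψ : Integrable ψ μD := by
    refine ⟨hψm.aestronglyMeasurable, ?_⟩
    have := hψb (fun _ => 1) measurable_const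
    simp only [mul_one, ENNReal.one_rpow, lintegral_const, one_mul] at this
    exact this.trans_lt (ENNReal.rpow_lt_top_of_nonneg (by positivity) (measure_ne_top _ _))
  have hBle : ∀ h : ℂ → ℂ, MemLp h (ENNReal.ofReal p) μD →
      BB ψ h ≤ (C * ENNReal.ofReal (∫ w, ‖h w‖ ^ p ∂μD)) ^ (1 / p) := fun h hh => by
    rw [← lint_pow hp0 ((memLp_iff_pow hp0 hh.1).mpr hh)]
    exact BB_le hp0 hψm hψb hsch hh.1
  have hne : ∀ x : ℝ, (C * ENNReal.ofReal x) ^ (1 / p) ≠ ⊤ := fun x =>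
    ENNReal.rpow_ne_top_of_nonneg (by positivity) (ENNReal.mul_ne_top hC ENNReal.ofReal_ne_top)
  have hB : ∀ h : ℂ → ℂ, MemLp h (ENNReal.ofReal p) μD → BB ψ h ≠ ⊤ := fun h hh =>
    ne_top_of_le_ne_top (hne _) (hBle h hh)
  have hkm : ∀ n, MemLp (fun w => ((1 - z n * w) ^ 2)⁻¹) (ENNReal.ofReal p) μD := fun n =>
    MemLp.of_bound (kernel_memLp (hz n)).1 _
      (ae_ball.mono fun _ hw => norm_kernel_le (hz n) hw.le)
  have hcm : ∀ j, MemLp (comb z (S j) (c j)) (ENNReal.ofReal p) μD := fun j =>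
    memLp_finsetSum (S j) fun n _ => (hkm n).const_mul _
  have hdm : ∀ j, MemLp (fun w => comb z (S j) (c j) w - f w) (ENNReal.ofReal p) μD :=
    fun j => (hcm j).sub hfm
  have hB0 : Tendsto (fun j => (BB ψ fun w => comb z (S j) (c j) w - f w).toReal) atTop (𝓝 0) :=
    squeeze_zero (fun _ => ENNReal.toReal_nonneg)
      (fun j => ENNReal.toReal_mono (hne _) (hBle _ (hdm j))) (tendsto_root hp0 C hconv)
  have hLL : ∀ {K : ℂ → ℂ → ℂ} {M : ℝ}, Adm K M → ∀ j, ‖LL ψ K (comb z (S j) (c j)) - LL ψ K f‖ ≤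
      M * (BB ψ fun w => comb z (S j) (c j) w - f w).toReal := fun hK j => by
    rw [LL_sub (integrable_II hψm hK (hcm j).1 (hB _ (hcm j)))
      (integrable_II hψm hK hfm.1 (hB _ hfm))]
    exact norm_LL hK (hB _ (hdm j))
  have hM0 : ∀ M : ℝ, Tendsto (fun j => M * (BB ψ fun w => comb z (S j) (c j) w - f w).toReal)
      atTop (𝓝 0) := fun M => by simpa using hB0.const_mul M
  have hlim : ∀ {K : ℂ → ℂ → ℂ} {M : ℝ}, Adm K M →
      Tendsto (fun j => LL ψ K (comb z (S j) (c j))) atTop (𝓝 (LL ψ K f)) := fun hK =>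
    tendsto_iff_norm_sub_tendsto_zero.mpr
      (squeeze_zero (fun _ => norm_nonneg _) (hLL hK) (hM0 _))
  have hgd := gg_diff hψ
  have hgz : ∀ n, gg ψ (z n) = 0 := hψk
  obtain ⟨b0, hb0, hgb0⟩ := gg_ne hψm hψ hud (hum.integrable h1p) (hB u hum) hψu
  have hV : ∀ m : ℂ, ‖m‖ < 1 → ∀ j, LL ψ (SV m) (comb z (S j) (c j)) =
      π * ∑ n ∈ S j, c j n * dslope (gg ψ) (z n) m := by
    intro m hm j
    rw [LL_comb hz (T := TV m)
      (fun n => integrable_II hψm (adm_SV le_rfl hm) (hkm n).1 (hB _ (hkm n)))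
      (fun u hu => TV_spec hm hu)]
    simp only [int_TV hψ hm (hz _)]
  obtain ⟨κ, hκ⟩ := wronsk hz hgd hgz hb0 hgb0 S c (H := fun m => LL ψ (SV m) f)
    (tendstoLocallyUniformlyOn_of_approx fun ρ _ h1 => ⟨_, hM0 (10 / (1 - ρ) ^ 2), fun j m hm => by
      rw [← hV m (hm.trans_lt h1) j]
      exact hLL (adm_SV hm h1) j⟩) hw0 hE
  obtain ⟨F, hF0, hF⟩ := hfd.isExactOn_ball.with_val_at 0 0
  have hFd : DifferentiableOn ℂ F (ball 0 1) :=
    fun u hu => (hF u hu).differentiableAt.differentiableWithinAt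
  have hL1 := tendsto_L1 hp1 (fun j => (hdm j).1)
    (fun j => (memLp_iff_pow hp0 (hdm j).1).mpr (hdm j)) hconv
  have hid : ∀ l : ℂ, ‖l‖ < 1 → (1 - l * conj l) * LL ψ (SW l) f =
      conj l ^ 2 * (gg ψ (conj l) * (κ - π * F l)) := by
    intro l hl
    have hm : ‖conj l‖ < 1 := by rwa [Complex.norm_conj]
    have e : ∀ j, (1 - l * conj l) * LL ψ (SW l) (comb z (S j) (c j)) =
        conj l ^ 2 * (LL ψ (SV (conj l)) (comb z (S j) (c j)) -
          π * gg ψ (conj l) * ∑ n ∈ S j, c j n * (l / (1 - z n * l))) := by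
      intro j
      rw [hV _ hm j, LL_comb hz (T := TW l)
        (fun n => integrable_II hψm (adm_SW hl) (hkm n).1 (hB _ (hkm n)))
        (fun u hu => TW_spec hl hu)]
      simp only [Finset.mul_sum, ← Finset.sum_sub_distrib]
      refine Finset.sum_congr rfl fun n _ => ?_
      have := int_TW hψ hl (hz n) (hgz n)
      linear_combination π * c j n * this
    have t1 := (hlim (adm_SW hl)).const_mul (1 - l * conj l)
    have t2 := ((hlim (adm_SV le_rfl hm)).sub ((prim_tendsto hz S c hfd (hfm.integrable h1p) hF hF0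
      hL1 hl).const_mul (π * gg ψ (conj l)))).const_mul (conj l ^ 2)
    have h3 : LL ψ (SV (conj l)) f = κ * gg ψ (conj l) := hκ (mem_ball_zero_iff.mpr hm)
    rw [tendsto_nhds_unique (t1.congr e) t2, h3]
    ring
  have hcb : ∀ l ∈ ball (0 : ℂ) 1, conj l ∈ ball (0 : ℂ) 1 := fun l hl => by
    rwa [mem_ball_zero_iff, Complex.norm_conj, ← mem_ball_zero_iff]
  have hgs : DifferentiableOn ℂ (fun l => conj (gg ψ (conj l))) (ball 0 1) := fun l hl => by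
    have := (hgd.differentiableAt (isOpen_ball.mem_nhds (hcb l hl))).conj_conj
    rw [Complex.conj_conj] at this
    exact this.differentiableWithinAt
  have hP : ∀ a : ℂ, ‖a‖ < 1 → conj (gg ψ (conj a)) * (κ - π * F a) = 0 := by
    intro a ha
    refine van' (P := fun l => conj (gg ψ (conj l)) * (κ - π * F l)) ae_ball2
      (ν := fun q => ENNReal.ofReal 32 * (‖ψ q.1‖ₑ * (KK q.1 q.2 * ‖f q.2‖ₑ))) ?_ ?_
      (hgs.mul ((differentiableOn_const _).sub (hFd.const_mul _))) (fun l h1 h2 => ?_) ha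
    · exact (((hψm.enorm.comp measurable_fst).aemeasurable).mul
        (measurable_KK.aemeasurable.mul hfm.1.comp_snd.enorm)).const_mul _
    · rw [lintegral_const_mul' _ _ ENNReal.ofReal_ne_top]
      exact ENNReal.mul_ne_top ENNReal.ofReal_ne_top (hB f hfm)
    · refine le_trans ?_ (LL_SW_le h2)
      have h0 : 0 ≤ 1 - ‖l‖ ^ 2 := by nlinarith [norm_nonneg l]
      rw [← ofReal_norm, ← ofReal_norm, ← ENNReal.ofReal_mul (by positivity)]
      refine ENNReal.ofReal_le_ofReal ?_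
      have h3 := congrArg norm (hid l h2)
      have h4 : (1 : ℂ) - l * conj l = ((1 - ‖l‖ ^ 2 : ℝ) : ℂ) := by
        rw [Complex.mul_conj']; push_cast; ring
      rw [h4, norm_mul, norm_mul, norm_mul, norm_pow, Complex.norm_conj, Complex.norm_real,
        Real.norm_of_nonneg h0] at h3
      rw [norm_mul, Complex.norm_conj, mul_assoc, h3]
      have h5 : 0 ≤ ‖gg ψ (conj l)‖ * ‖κ - π * F l‖ := by positivity
      have h6 : 1 ≤ 4 * ‖l‖ ^ 2 := by nlinarith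
      nlinarith
  have hb1 : conj b0 ∈ ball (0 : ℂ) 1 := hcb b0 hb0
  have hf0 : f =ᶠ[𝓝 (conj b0)] 0 := by
    have hπ : (π : ℂ) ≠ 0 := by exact_mod_cast pi_ne_zero
    have h1 : ∀ᶠ v in 𝓝 (conj b0), conj (gg ψ (conj v)) ≠ 0 :=
      (hgs.differentiableAt (isOpen_ball.mem_nhds hb1)).continuousAt.eventually_ne
        (by simpa using hgb0)
    have h2 : ∀ᶠ v in 𝓝 (conj b0), v ∈ ball (0 : ℂ) 1 := isOpen_ball.mem_nhds hb1
    have h3 : F =ᶠ[𝓝 (conj b0)] fun _ => κ / π := by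
      filter_upwards [h1, h2] with v hv1 hv2
      have := (mul_eq_zero.mp (hP v (mem_ball_zero_iff.mp hv2))).resolve_left hv1
      rw [eq_div_iff hπ]
      linear_combination -this
    filter_upwards [h3.eventuallyEq_nhds, h2] with v hv1 hv2
    exact (hF v hv2).unique ((hasDerivAt_const v _).congr_of_eventuallyEq hv1)
  exact fun w hw =>
    (hfd.analyticOnNhd isOpen_ball).eqOn_zero_of_preconnected_of_eventuallyEq_zero hpre hb1 hf0 hw

/-- The uniqueness theorem in the Bergman space with exponent `p`. -/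
theorem main {p : ℝ} (hp1 : 1 ≤ p) {z : ℕ → ℂ} (hz : ∀ n, ‖z n‖ < 1) {u : ℂ → ℂ}
    (hud : DifferentiableOn ℂ u (ball 0 1))
    (hui : IntegrableOn (fun w => ‖u w‖ ^ p) (ball (0 : ℂ) 1)) {ε : ℝ} (hε : 0 < ε)
    (hfar : ∀ (s : Finset ℕ) (a : ℕ → ℂ), ε ≤ ∫ w, ‖u w - comb z s a w‖ ^ p ∂μD)
    (S : ℕ → Finset ℕ) (c : ℕ → ℕ → ℂ) {f : ℂ → ℂ} (hfd : DifferentiableOn ℂ f (ball 0 1))
    (hfi : IntegrableOn (fun w => ‖f w‖ ^ p) (ball (0 : ℂ) 1))
    (hconv : Tendsto (fun j => ∫ w, ‖comb z (S j) (c j) w - f w‖ ^ p ∂μD) atTop (𝓝 0))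
    {w0 : ℂ} (hw0 : 1 < ‖w0‖)
    (hE : ∃ᶠ w in 𝓝[≠] w0, (∀ n, z n * w ≠ 1) ∧
      Tendsto (fun j => comb z (S j) (c j) w) atTop (𝓝 0)) :
    ∀ w ∈ ball (0 : ℂ) 1, f w = 0 := by
  have hp0 : 0 < p := by linarith
  have hum := (memLp_iff_pow hp0 (hud.continuousOn.aestronglyMeasurable measurableSet_ball)).mp hui
  have hfm := (memLp_iff_pow hp0 (hfd.continuousOn.aestronglyMeasurable measurableSet_ball)).mp hfi
  obtain ⟨ψ, hψm, hψb, hψk, hψu⟩ := exists_psi_all hp1 (fun n w => ((1 - z n * w) ^ 2)⁻¹)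
    (fun n => MemLp.of_bound (kernel_memLp (hz n)).1 _
      (ae_ball.mono fun _ hw => norm_kernel_le (hz n) hw.le)) hum hε hfar
  obtain ⟨C, hC, hsch⟩ := schur_all hp1
  exact main_of hp1 hz hud hum hψm hψb hψk hψu hC hsch S c hfd hfm hconv hw0 hE

end Pool.Agent.Lib.MP_435399_an.A1
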