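import Pool.Agent.Lib.MP_435399_an.A1.Defs

set_option autoImplicit false

open MeasureTheory Set Metric Real Complex Filter Topology ComplexConjugate

namespace Pool.Agent.Lib.MP_435399_an.A1

lemma rep_mem {a : ℂ} (ha : ‖a‖ < 1) {s : ℝ} (hs : s ∈ Ioo (0 : ℝ) 1) :
    a * (s : ℂ) ^ 2 ∈ ball (0 : ℂ) s := by
  rw [mem_ball_zero_iff, norm_mul, norm_pow, Complex.norm_real, Real.norm_of_nonneg hs.1.le]
  have := norm_nonneg a
  nlinarith [hs.1, hs.2, mul_pos hs.1 hs.1]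

lemma rep_mem1 {a : ℂ} (ha : ‖a‖ < 1) {s : ℝ} (hs : s ∈ Icc (0 : ℝ) 1) :
    a * (s : ℂ) ^ 2 ∈ ball (0 : ℂ) 1 := by
  rw [mem_ball_zero_iff, norm_mul, norm_pow, Complex.norm_real, Real.norm_of_nonneg hs.1]
  exact lt_of_le_of_lt (mul_le_of_le_one_right (norm_nonneg _) (pow_le_one₀ hs.1 hs.2)) ha

lemma rep_avgA {g : ℂ → ℂ} (hg : DifferentiableOn ℂ g (ball 0 1)) {a : ℂ} (ha : ‖a‖ < 1)
    {s : ℝ} (hs : s ∈ Ioo (0 : ℝ) 1) :
    circleAverage (fun w => g w * ((1 - a * conj w) ^ 2)⁻¹) 0 s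
      = deriv (fun w => w * g w) (a * (s : ℂ) ^ 2) := by
  have hGd : DifferentiableOn ℂ (fun w => w * g w) (ball 0 1) := differentiableOn_id.mul hg
  have hps := rep_mem ha hs
  rw [circleAverage_eq_circleIntegral hs.1.ne',
    ← Complex.two_pi_I_inv_smul_circleIntegral_sub_sq_inv_smul_of_differentiable isOpen_ball
      (closedBall_subset_ball hs.2) hGd hps]
  congr 1
  refine circleIntegral.integral_congr hs.1.le fun w hw => ?_
  have hw' : ‖w‖ = s := mem_sphere_zero_iff_norm.mp hw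
  have hw0 : w ≠ 0 := by
    intro h; rw [h, norm_zero] at hw'; exact hs.1.ne hw'
  have hwp : w - a * (s : ℂ) ^ 2 ≠ 0 :=
    sub_ne_zero.mpr (Metric.sphere_disjoint_ball.ne_of_mem hw hps)
  simp only [smul_eq_mul, sub_zero]
  rw [conj_eq_of_norm hs.1 hw']
  have : 1 - a * ((s : ℂ) ^ 2 / w) = (w - a * (s : ℂ) ^ 2) / w := by field_simp
  rw [this]
  field_simp

lemma rep_avgB {u : ℂ → ℂ} (hu : DifferentiableOn ℂ u (ball 0 1)) {a : ℂ} (ha : ‖a‖ < 1)
    {s : ℝ} (hs : s ∈ Ioo (0 : ℝ) 1) :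
    circleAverage (fun w => 2 / (1 - conj w * a) ^ 3 * u w) 0 s
      = circleAverage (fun w => (2 * u w + w * deriv u w) * ((1 - a * conj w) ^ 2)⁻¹) 0 s := by
  have hps := rep_mem ha hs
  set p := a * (s : ℂ) ^ 2 with hp
  have hsub : sphere (0 : ℂ) s ⊆ ball 0 1 := sphere_subset_closedBall.trans
    (closedBall_subset_ball hs.2)
  have hwp : ∀ w ∈ sphere (0 : ℂ) s, w - p ≠ 0 := fun w hw =>
    sub_ne_zero.mpr (Metric.sphere_disjoint_ball.ne_of_mem hw hps)
  have hw0 : ∀ w ∈ sphere (0 : ℂ) s, w ≠ 0 := fun w hw h => by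
    have hw' : ‖w‖ = s := mem_sphere_zero_iff_norm.mp hw
    rw [h, norm_zero] at hw'; exact hs.1.ne hw'
  have cu : ContinuousOn u (sphere (0 : ℂ) s) := hu.continuousOn.mono hsub
  have cd : ContinuousOn (deriv u) (sphere (0 : ℂ) s) :=
    (hu.deriv isOpen_ball).continuousOn.mono hsub
  have cA : ContinuousOn (fun w => w * (2 * u w + w * deriv u w) / (w - p) ^ 2)
      (sphere (0 : ℂ) s) :=
    (continuousOn_id.mul ((continuousOn_const.mul cu).add (continuousOn_id.mul cd))).div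
      (by fun_prop) fun w hw => pow_ne_zero _ (hwp w hw)
  have cB : ContinuousOn (fun w => 2 * w ^ 2 * u w / (w - p) ^ 3) (sphere (0 : ℂ) s) :=
    ((by fun_prop : ContinuousOn (fun w : ℂ => 2 * w ^ 2) (sphere (0 : ℂ) s)).mul cu).div
      (by fun_prop) fun w hw => pow_ne_zero _ (hwp w hw)
  have h0 : (∮ w in C(0, s), (w * (2 * u w + w * deriv u w) / (w - p) ^ 2 -
      2 * w ^ 2 * u w / (w - p) ^ 3)) = 0 := by
    refine circleIntegral.integral_eq_zero_of_hasDerivWithinAt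
      (f := fun w => w ^ 2 * u w / (w - p) ^ 2) hs.1.le fun w hw => ?_
    have d1 : HasDerivAt u (deriv u w) w :=
      (hu.differentiableAt (isOpen_ball.mem_nhds (hsub hw))).hasDerivAt
    have d2 := ((hasDerivAt_pow 2 w).mul d1).div (((hasDerivAt_id w).sub_const p).pow 2)
      (pow_ne_zero _ (hwp w hw))
    refine (d2.congr_deriv ?_).hasDerivWithinAt
    have := hwp w hw
    simp only [id, Pi.mul_apply, Pi.pow_apply]
    push_cast
    field_simp
  rw [circleIntegral.integral_sub (cA.circleIntegrable hs.1.le) (cB.circleIntegrable hs.1.le),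
    sub_eq_zero] at h0
  rw [circleAverage_eq_circleIntegral hs.1.ne', circleAverage_eq_circleIntegral hs.1.ne']
  congr 1
  refine Eq.trans (circleIntegral.integral_congr hs.1.le fun w hw => ?_)
    (h0.symm.trans (circleIntegral.integral_congr hs.1.le fun w hw => ?_))
  · have h1 := hw0 w hw
    have h2 := hwp w hw
    simp only [smul_eq_mul, sub_zero]
    rw [conj_eq_of_norm hs.1 (mem_sphere_zero_iff_norm.mp hw)]
    have : 1 - (s : ℂ) ^ 2 / w * a = (w - p) / w := by rw [hp]; field_simp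
    rw [this]
    field_simp
  · have h1 := hw0 w hw
    have h2 := hwp w hw
    simp only [smul_eq_mul, sub_zero]
    rw [conj_eq_of_norm hs.1 (mem_sphere_zero_iff_norm.mp hw)]
    have : 1 - a * ((s : ℂ) ^ 2 / w) = (w - p) / w := by rw [hp]; field_simp
    rw [this]
    field_simp

lemma rep_core {T S : ℂ → ℂ} (hT : DifferentiableOn ℂ T (ball 0 1))
    (hSd : DifferentiableOn ℂ S (ball 0 1))
    (hS : ∀ b ∈ ball (0 : ℂ) 1, S b = 2 * T b + b * deriv T b) {a : ℂ} (ha : ‖a‖ < 1) :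
    ∫ s in Ioo (0 : ℝ) 1, (2 * π * s) • (((1 - s ^ 2 : ℝ) : ℂ) *
      deriv (fun w => w * S w) (a * (s : ℂ) ^ 2)) = π * T a := by
  have hGd : DifferentiableOn ℂ (fun w => w * S w) (ball 0 1) := differentiableOn_id.mul hSd
  rw [← integral_Ioc_eq_integral_Ioo, ← intervalIntegral.integral_of_le zero_le_one]
  have hderiv : ∀ s ∈ uIcc (0 : ℝ) 1, HasDerivAt (fun s : ℝ => (π : ℂ) *
      ((1 - (s : ℂ) ^ 2) * ((s : ℂ) ^ 2 * S (a * (s : ℂ) ^ 2)) + (s : ℂ) ^ 4 * T (a * (s : ℂ) ^ 2)))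
      ((2 * π * s) • (((1 - s ^ 2 : ℝ) : ℂ) * deriv (fun w => w * S w) (a * (s : ℂ) ^ 2))) s := by
    intro s hs
    rw [uIcc_of_le zero_le_one] at hs
    have hm := rep_mem1 ha hs
    have hga : DifferentiableAt ℂ S (a * (s : ℂ) ^ 2) :=
      hSd.differentiableAt (isOpen_ball.mem_nhds hm)
    have hta : DifferentiableAt ℂ T (a * (s : ℂ) ^ 2) :=
      hT.differentiableAt (isOpen_ball.mem_nhds hm)
    have e1 : deriv (fun w => w * S w) (a * (s : ℂ) ^ 2)
        = S (a * (s : ℂ) ^ 2) + a * (s : ℂ) ^ 2 * deriv S (a * (s : ℂ) ^ 2) := by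
      have : HasDerivAt (fun w => w * S w)
          (1 * S (a * (s : ℂ) ^ 2) + a * (s : ℂ) ^ 2 * deriv S (a * (s : ℂ) ^ 2))
          (a * (s : ℂ) ^ 2) := (hasDerivAt_id (a * (s : ℂ) ^ 2)).mul hga.hasDerivAt
      rw [this.deriv, one_mul]
    have e2 : HasDerivAt (fun z : ℂ => a * z ^ 2) (a * (2 * s)) (s : ℂ) := by
      simpa using (hasDerivAt_pow 2 (s : ℂ)).const_mul a
    have e3 : HasDerivAt (fun z : ℂ => S (a * z ^ 2))
        (deriv S (a * (s : ℂ) ^ 2) * (a * (2 * s))) (s : ℂ) := hga.hasDerivAt.comp (s : ℂ) e2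
    have e3' : HasDerivAt (fun z : ℂ => T (a * z ^ 2))
        (deriv T (a * (s : ℂ) ^ 2) * (a * (2 * s))) (s : ℂ) := hta.hasDerivAt.comp (s : ℂ) e2
    have e4 := (((((hasDerivAt_pow 2 (s : ℂ)).const_sub 1).mul
      ((hasDerivAt_pow 2 (s : ℂ)).mul e3)).add
      ((hasDerivAt_pow 4 (s : ℂ)).mul e3')).const_mul (π : ℂ)).comp_ofReal
    refine e4.congr_deriv ?_
    rw [e1, Complex.real_smul]
    simp only [Pi.mul_apply]
    rw [hS _ hm]
    push_cast
    ring
  rw [intervalIntegral.integral_eq_sub_of_hasDerivAt hderiv]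
  · simp
  · refine ContinuousOn.intervalIntegrable ?_
    rw [uIcc_of_le zero_le_one]
    have c1 : ContinuousOn (fun s : ℝ => 2 * π * s) (Icc 0 1) := by fun_prop
    have c2 : ContinuousOn (fun s : ℝ => deriv (fun w => w * S w) (a * (s : ℂ) ^ 2)) (Icc 0 1) :=
      (hGd.deriv isOpen_ball).continuousOn.comp (f := fun s : ℝ => a * (s : ℂ) ^ 2) (by fun_prop)
        fun s hs => rep_mem1 ha hs
    have c3 : ContinuousOn (fun s : ℝ => ((1 - s ^ 2 : ℝ) : ℂ)) (Icc 0 1) := by fun_prop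
    exact c1.smul (c3.mul c2)

lemma rep_weight {F : ℂ → ℂ} (hF : IntegrableOn F (ball (0 : ℂ) 1)) :
    ∫ w, ((1 - ‖w‖ ^ 2 : ℝ) : ℂ) * F w ∂μD =
      ∫ s in Ioo (0 : ℝ) 1, (2 * π * s) • (((1 - s ^ 2 : ℝ) : ℂ) * circleAverage F 0 s) := by
  have hi : IntegrableOn (fun w : ℂ => ((1 - ‖w‖ ^ 2 : ℝ) : ℂ) * F w) (ball (0 : ℂ) 1) := by
    refine Integrable.bdd_mul (c := 1) hF (Measurable.aestronglyMeasurable (by fun_prop)) ?_
    refine (ae_restrict_iff' measurableSet_ball).mpr (Filter.Eventually.of_forall fun w hw => ?_)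
    have h1 := mem_ball_zero_iff.mp hw
    have h2 := norm_nonneg w
    rw [Complex.norm_real, Real.norm_of_nonneg (by nlinarith)]
    nlinarith
  rw [polar_ball hi]
  refine setIntegral_congr_fun measurableSet_Ioo fun s hs => ?_
  congr 1
  rw [← smul_eq_mul, ← circleAverage_fun_smul]
  refine circleAverage_congr_sphere fun w hw => ?_
  rw [abs_of_pos hs.1, mem_sphere_zero_iff_norm] at hw
  simp only [hw, smul_eq_mul]

theorem rep2 {T S : ℂ → ℂ} {R : ℝ} (hR : 1 < R) (hT : DifferentiableOn ℂ T (ball 0 R))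
    (hS : ∀ b ∈ ball (0 : ℂ) R, S b = 2 * T b + b * deriv T b) {a : ℂ} (ha : ‖a‖ < 1) :
    ∫ w, ((1 - ‖w‖ ^ 2 : ℝ) : ℂ) * S (conj w) * ((1 - a * w) ^ 2)⁻¹ ∂μD = π * T a := by
  have hSd : DifferentiableOn ℂ S (ball 0 R) :=
    (((differentiableOn_const 2).mul hT).add
      (differentiableOn_id.mul (hT.deriv isOpen_ball))).congr hS
  have hsub : ball (0 : ℂ) 1 ⊆ ball 0 R := ball_subset_ball hR.le
  have hSi : IntegrableOn S (ball (0 : ℂ) 1) :=
    ((hSd.continuousOn.mono (closedBall_subset_ball hR)).integrableOn_compact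
      (isCompact_closedBall 0 1)).mono_set ball_subset_closedBall
  have hpre : (Complex.conjLIE : ℂ → ℂ) ⁻¹' ball (0 : ℂ) 1 = ball 0 1 := by
    ext w; simp
  have hmp : MeasurePreserving (Complex.conjLIE : ℂ → ℂ) μD μD := by
    have := Complex.conjLIE.measurePreserving.restrict_preimage
      (measurableSet_ball (x := (0 : ℂ)) (ε := 1))
    rwa [hpre] at this
  have h1 := hmp.integral_comp Complex.conjLIE.toHomeomorph.measurableEmbedding
    (fun w : ℂ => ((1 - ‖w‖ ^ 2 : ℝ) : ℂ) * (S w * ((1 - a * conj w) ^ 2)⁻¹))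
  rw [rep_weight (integrableOn_mul_kernel hSi ha),
    setIntegral_congr_fun measurableSet_Ioo (fun s hs => by
      rw [rep_avgA (hSd.mono hsub) ha hs]),
    rep_core (hT.mono hsub) (hSd.mono hsub) (fun b hb => hS b (hsub hb)) ha] at h1
  rw [← h1]
  refine integral_congr_ae (Filter.Eventually.of_forall fun w => ?_)
  simp [mul_assoc]

theorem rep3 {u : ℂ → ℂ} (hu : DifferentiableOn ℂ u (ball 0 1))
    (hi : IntegrableOn u (ball (0 : ℂ) 1)) {a : ℂ} (ha : ‖a‖ < 1) :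
    ∫ w, ((1 - ‖w‖ ^ 2 : ℝ) : ℂ) * (2 / (1 - conj w * a) ^ 3) * u w ∂μD = π * u a := by
  have hSd : DifferentiableOn ℂ (fun w => 2 * u w + w * deriv u w) (ball 0 1) :=
    ((differentiableOn_const 2).mul hu).add (differentiableOn_id.mul (hu.deriv isOpen_ball))
  have hF : IntegrableOn (fun w => 2 / (1 - conj w * a) ^ 3 * u w) (ball (0 : ℂ) 1) := by
    refine Integrable.bdd_mul (c := 2 / (1 - ‖a‖) ^ 3) hi
      (Measurable.aestronglyMeasurable (by fun_prop)) ?_
    refine (ae_restrict_iff' measurableSet_ball).mpr (Filter.Eventually.of_forall fun w hw => ?_)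
    have h0 : 0 < 1 - ‖a‖ := by linarith
    have h1 : 1 - ‖a‖ ≤ ‖1 - conj w * a‖ := by
      rw [mul_comm]
      exact norm_one_sub_mul_ge (by rw [Complex.norm_conj]; exact (mem_ball_zero_iff.mp hw).le)
    rw [norm_div, norm_pow, Complex.norm_ofNat]
    exact div_le_div_of_nonneg_left (by norm_num) (by positivity) (pow_le_pow_left₀ h0.le h1 3)
  have h1 := rep_weight hF
  rw [setIntegral_congr_fun measurableSet_Ioo (fun s hs => by
      rw [rep_avgB hu ha hs, rep_avgA hSd ha hs]),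
    rep_core hu hSd (fun b _ => rfl) ha] at h1
  rw [← h1]
  simp only [mul_assoc]

end Pool.Agent.Lib.MP_435399_an.A1
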