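import Pool.Agent.Lib.MP_435399_an.A1.Ker
import Pool.Agent.Lib.MP_435399_an.A1.Rep

set_option autoImplicit false

open MeasureTheory Set Metric Real Complex Filter Topology ComplexConjugate

namespace Pool.Agent.Lib.MP_435399_an.A1

/-- The positive bilinear form. -/
noncomputable def BB (ψ h : ℂ → ℂ) : ENNReal :=
  ∫⁻ q, ‖ψ q.1‖ₑ * (KK q.1 q.2 * ‖h q.2‖ₑ) ∂(μD.prod μD)

/-- The integrand of the bilinear form with kernel `S`. -/
noncomputable def II (ψ : ℂ → ℂ) (S : ℂ → ℂ → ℂ) (h : ℂ → ℂ) (q : ℂ × ℂ) : ℂ :=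
  ψ q.1 * (((1 - ‖q.2‖ ^ 2 : ℝ) : ℂ) * S q.1 (conj q.2) * h q.2)

/-- The bilinear form with kernel `S`. -/
noncomputable def LL (ψ : ℂ → ℂ) (S : ℂ → ℂ → ℂ) (h : ℂ → ℂ) : ℂ :=
  ∫ q, II ψ S h q ∂(μD.prod μD)

/-- Admissible kernels. -/
def Adm (S : ℂ → ℂ → ℂ) (M : ℝ) : Prop :=
  0 ≤ M ∧ Measurable (fun q : ℂ × ℂ => S q.1 (conj q.2)) ∧
    ∀ z b : ℂ, ‖z‖ < 1 → ‖b‖ < 1 → ‖S z b‖ ≤ M / ‖1 - b * z‖ ^ 3

lemma ae_ball : ∀ᵐ w ∂μD, ‖w‖ < 1 :=
  (ae_restrict_mem measurableSet_ball).mono fun _ hw => mem_ball_zero_iff.mp hw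

lemma ae_ball2 : ∀ᵐ q ∂(μD.prod μD), ‖q.1‖ < 1 ∧ ‖q.2‖ < 1 :=
  (Measure.quasiMeasurePreserving_fst.ae ae_ball).and
    (Measure.quasiMeasurePreserving_snd.ae ae_ball)

lemma BB_aux {p : ℝ} (hp : 0 < p) {A H : ℂ → ENNReal} {K : ℂ × ℂ → ENNReal} (hA : Measurable A)
    (hK : Measurable K) (hH : Measurable H)
    (hb : ∀ G : ℂ → ENNReal, Measurable G →
      ∫⁻ w, A w * G w ∂μD ≤ (∫⁻ w, G w ^ p ∂μD) ^ (1 / p))
    {C : ENNReal} (hC : ∫⁻ z, (∫⁻ w, K (z, w) * H w ∂μD) ^ p ∂μD ≤ C) :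
    ∫⁻ q, A q.1 * (K q * H q.2) ∂(μD.prod μD) ≤ C ^ (1 / p) := by
  have hK' : Measurable fun q : ℂ × ℂ => K q * H q.2 := hK.mul (hH.comp measurable_snd)
  have hM : Measurable fun q : ℂ × ℂ => A q.1 * (K q * H q.2) := (hA.comp measurable_fst).mul hK'
  rw [lintegral_prod _ hM.aemeasurable]
  have e3 : ∀ z, ∫⁻ w, A z * (K (z, w) * H w) ∂μD = A z * ∫⁻ w, K (z, w) * H w ∂μD := fun z =>
    lintegral_const_mul _ (hK'.comp measurable_prodMk_left)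
  simp only [e3]
  refine (hb _ hK'.lintegral_prod_right').trans ?_
  exact ENNReal.rpow_le_rpow hC (by positivity)

lemma BB_le {p : ℝ} (hp : 0 < p) {ψ : ℂ → ℂ} (hψ : Measurable ψ)
    (hb : ∀ G : ℂ → ENNReal, Measurable G →
      ∫⁻ w, ‖ψ w‖ₑ * G w ∂μD ≤ (∫⁻ w, G w ^ p ∂μD) ^ (1 / p))
    {C : ENNReal} (hC : ∀ H : ℂ → ENNReal, Measurable H →
      ∫⁻ z, (∫⁻ w, KK z w * H w ∂μD) ^ p ∂μD ≤ C * ∫⁻ w, H w ^ p ∂μD)
    {h : ℂ → ℂ} (hh : AEStronglyMeasurable h μD) :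
    BB ψ h ≤ (C * ∫⁻ w, ‖h w‖ₑ ^ p ∂μD) ^ (1 / p) := by
  have hm : Measurable fun w => ‖hh.mk h w‖ₑ := hh.stronglyMeasurable_mk.measurable.enorm
  have e1 : BB ψ h = ∫⁻ q, ‖ψ q.1‖ₑ * (KK q.1 q.2 * ‖hh.mk h q.2‖ₑ) ∂(μD.prod μD) := by
    refine lintegral_congr_ae ?_
    filter_upwards [Measure.quasiMeasurePreserving_snd.ae hh.ae_eq_mk] with q hq
    rw [hq]
  have e2 : ∫⁻ w, ‖h w‖ₑ ^ p ∂μD = ∫⁻ w, ‖hh.mk h w‖ₑ ^ p ∂μD := by
    refine lintegral_congr_ae ?_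
    filter_upwards [hh.ae_eq_mk] with q hq
    rw [hq]
  rw [e1, e2]
  exact BB_aux (A := fun w => ‖ψ w‖ₑ) (H := fun w => ‖hh.mk h w‖ₑ)
    (K := fun q => KK q.1 q.2) hp hψ.enorm measurable_KK hm hb (hC _ hm)

lemma enorm_II {ψ h : ℂ → ℂ} {S : ℂ → ℂ → ℂ} {q : ℂ × ℂ} (h2 : ‖q.2‖ < 1) {M : ℝ} (hM : 0 ≤ M)
    (hS : ‖S q.1 (conj q.2)‖ ≤ M / ‖1 - conj q.2 * q.1‖ ^ 3) :
    ‖II ψ S h q‖ₑ ≤ ENNReal.ofReal M * (‖ψ q.1‖ₑ * (KK q.1 q.2 * ‖h q.2‖ₑ)) := by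
  have h0 : 0 ≤ 1 - ‖q.2‖ ^ 2 := by nlinarith [norm_nonneg q.2]
  have h1 : ‖((1 - ‖q.2‖ ^ 2 : ℝ) : ℂ) * S q.1 (conj q.2)‖ₑ ≤ ENNReal.ofReal M * KK q.1 q.2 := by
    unfold KK
    rw [← ofReal_norm, ← ENNReal.ofReal_mul hM, norm_mul, Complex.norm_real,
      Real.norm_of_nonneg h0]
    refine ENNReal.ofReal_le_ofReal ((mul_le_mul_of_nonneg_left hS h0).trans (le_of_eq ?_))
    ring
  unfold II
  rw [enorm_mul, enorm_mul]
  refine (mul_le_mul_right (mul_le_mul_left h1 _) _).trans (le_of_eq ?_)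
  ring

lemma lint_II {ψ h : ℂ → ℂ} {S : ℂ → ℂ → ℂ} {M : ℝ} (hS : Adm S M) :
    ∫⁻ q, ‖II ψ S h q‖ₑ ∂(μD.prod μD) ≤ ENNReal.ofReal M * BB ψ h := by
  unfold BB
  rw [← lintegral_const_mul' _ _ ENNReal.ofReal_ne_top]
  refine lintegral_mono_ae ?_
  filter_upwards [ae_ball2] with q hq
  exact enorm_II hq.2 hS.1 (hS.2.2 _ _ hq.1 (by rw [Complex.norm_conj]; exact hq.2))

lemma integrable_II {ψ h : ℂ → ℂ} (hψ : Measurable ψ) {S : ℂ → ℂ → ℂ} {M : ℝ} (hS : Adm S M)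
    (hh : AEStronglyMeasurable h μD) (hB : BB ψ h ≠ ⊤) : Integrable (II ψ S h) (μD.prod μD) := by
  refine ⟨?_, lt_of_le_of_lt (lint_II hS) (ENNReal.mul_lt_top ENNReal.ofReal_lt_top hB.lt_top)⟩
  refine (hψ.comp measurable_fst).aestronglyMeasurable.mul
    ((Measurable.aestronglyMeasurable (Measurable.mul ?_ hS.2.1)).mul hh.comp_snd)
  fun_prop

lemma norm_LL {ψ h : ℂ → ℂ} {S : ℂ → ℂ → ℂ} {M : ℝ} (hS : Adm S M) (hB : BB ψ h ≠ ⊤) :
    ‖LL ψ S h‖ ≤ M * (BB ψ h).toReal := by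
  have h1 : ‖LL ψ S h‖ₑ ≤ ENNReal.ofReal M * BB ψ h :=
    (enorm_integral_le_lintegral_enorm _).trans (lint_II hS)
  have h2 := ENNReal.toReal_mono (ENNReal.mul_ne_top ENNReal.ofReal_ne_top hB) h1
  rwa [toReal_enorm, ENNReal.toReal_mul, ENNReal.toReal_ofReal hS.1] at h2

lemma LL_sub {ψ h k : ℂ → ℂ} {S : ℂ → ℂ → ℂ} (h1 : Integrable (II ψ S h) (μD.prod μD))
    (h2 : Integrable (II ψ S k) (μD.prod μD)) :
    LL ψ S h - LL ψ S k = LL ψ S (fun w => h w - k w) := by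
  unfold LL
  rw [← integral_sub h1 h2]
  refine integral_congr_ae (Eventually.of_forall fun q => ?_)
  simp only [II]
  ring

lemma LL_comb {ψ : ℂ → ℂ} {S T : ℂ → ℂ → ℂ} {z : ℕ → ℂ} (hz : ∀ n, ‖z n‖ < 1)
    (hi : ∀ n, Integrable (II ψ S fun w => ((1 - z n * w) ^ 2)⁻¹) (μD.prod μD))
    (hT : ∀ u : ℂ, ‖u‖ < 1 → ∃ R : ℝ, 1 < R ∧ DifferentiableOn ℂ (T u) (ball 0 R) ∧
      ∀ b ∈ ball (0 : ℂ) R, S u b = 2 * T u b + b * deriv (T u) b)
    (s : Finset ℕ) (c : ℕ → ℂ) :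
    LL ψ S (comb z s c) = π * ∑ n ∈ s, c n * ∫ u, ψ u * T u (z n) ∂μD := by
  have e1 : LL ψ S (comb z s c) =
      ∑ n ∈ s, c n * LL ψ S fun w => ((1 - z n * w) ^ 2)⁻¹ := by
    unfold LL
    simp only [← integral_const_mul]
    rw [← integral_finsetSum s fun n _ => (hi n).const_mul _]
    refine integral_congr_ae (Eventually.of_forall fun q => ?_)
    simp only [II, comb, Finset.mul_sum]
    exact Finset.sum_congr rfl fun n _ => by ring
  rw [e1, Finset.mul_sum]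
  refine Finset.sum_congr rfl fun n _ => ?_
  unfold LL
  rw [integral_prod _ (hi n), mul_left_comm, ← integral_const_mul (π : ℂ)]
  congr 1
  refine integral_congr_ae ?_
  filter_upwards [ae_ball] with u hu
  obtain ⟨R, hR, h1, h2⟩ := hT u hu
  simp only [II]
  rw [integral_const_mul, rep2 hR h1 h2 (hz n)]
  ring

lemma one_sub_pos {b z : ℂ} (hb : ‖b‖ < 1) (hz : ‖z‖ < 1) : 1 - b * z ≠ 0 :=
  one_sub_mul_ne hb hz.le

lemma adm_SV {m : ℂ} {ρ : ℝ} (hm : ‖m‖ ≤ ρ) (hρ : ρ < 1) : Adm (SV m) (10 / (1 - ρ) ^ 2) := by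
  refine ⟨by positivity, by unfold SV; fun_prop, fun z b hz hb => ?_⟩
  refine (SV_le (hm.trans_lt hρ) hz hb).trans (div_le_div_of_nonneg_right ?_ (by positivity))
  exact div_le_div_of_nonneg_left (by norm_num) (by have : 0 < 1 - ρ := by linarith
                                                    positivity)
    (pow_le_pow_left₀ (by linarith) (by linarith) 2)

lemma adm_SW {l : ℂ} (hl : ‖l‖ < 1) : Adm (SW l) (16 / (1 - ‖l‖) ^ 2) := by
  refine ⟨by positivity, by unfold SW; fun_prop, fun z b hz hb => ?_⟩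
  refine (SW_le hl hz hb).trans ?_
  have h0 : 0 < 1 - ‖l‖ := by linarith
  have h1 : 1 - ‖l‖ ≤ ‖1 - conj l * z‖ := by
    have := norm_one_sub_mul_ge (a := conj l) hz.le
    rwa [Complex.norm_conj] at this
  have h2 : 1 - ‖l‖ ≤ ‖1 - b * l‖ := by
    rw [mul_comm]; exact norm_one_sub_mul_ge hb.le
  have h3 := one_div_le_one_div_of_le (by positivity) (pow_le_pow_left₀ h0.le h1 2)
  have h4 := one_div_le_one_div_of_le (by positivity) (pow_le_pow_left₀ h0.le h2 2)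
  refine (mul_le_mul_of_nonneg_left (add_le_add h3 h4) (by positivity)).trans (le_of_eq ?_)
  ring

lemma adm_three : Adm (fun z b => 2 / (1 - b * z) ^ 3) 2 := by
  refine ⟨by positivity, by fun_prop, fun z b _ _ => ?_⟩
  rw [norm_div, norm_pow]
  simp

/-- The transform of `ψ`. -/
noncomputable def gg (ψ : ℂ → ℂ) (a : ℂ) : ℂ := ∫ w, ψ w * ((1 - a * w) ^ 2)⁻¹ ∂μD

lemma int_mul {ψ k : ℂ → ℂ} (hψ : Integrable ψ μD) (hk : Measurable k) (M : ℝ)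
    (hM : ∀ w : ℂ, ‖w‖ < 1 → ‖k w‖ ≤ M) : Integrable (fun w => ψ w * k w) μD :=
  hψ.mul_bdd (c := M) hk.aestronglyMeasurable (ae_ball.mono hM)

lemma int_ker {ψ : ℂ → ℂ} (hψ : Integrable ψ μD) {a : ℂ} (ha : ‖a‖ < 1) :
    Integrable (fun w => ψ w * ((1 - a * w) ^ 2)⁻¹) μD :=
  int_mul hψ (by fun_prop) _ fun _ hw => norm_kernel_le ha hw.le

lemma norm_der_le {a w : ℂ} {ρ : ℝ} (ha : ‖a‖ ≤ ρ) (hρ : ρ < 1) (hw : ‖w‖ < 1) :
    ‖2 * w / (1 - a * w) ^ 3‖ ≤ 2 / (1 - ρ) ^ 3 := by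
  rw [norm_div, norm_mul, norm_pow]
  have h1 := norm_one_sub_mul_ge (a := a) hw.le
  have h0 : 0 < 1 - ρ := by linarith
  refine div_le_div₀ (by norm_num) ?_ (by positivity) (pow_le_pow_left₀ h0.le (by linarith) 3)
  simp only [Complex.norm_ofNat]
  linarith

lemma hasDerivAt_gg {ψ : ℂ → ℂ} (hψ : Integrable ψ μD) {a : ℂ} (ha : ‖a‖ < 1) :
    HasDerivAt (gg ψ) (∫ w, ψ w * (2 * w / (1 - a * w) ^ 3) ∂μD) a := by
  have hρ : (1 + ‖a‖) / 2 < 1 := by linarith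
  have hs : ball (0 : ℂ) ((1 + ‖a‖) / 2) ∈ 𝓝 a :=
    isOpen_ball.mem_nhds (mem_ball_zero_iff.mpr (by linarith))
  refine (hasDerivAt_integral_of_dominated_loc_of_deriv_le (μ := μD)
    (F := fun x w => ψ w * ((1 - x * w) ^ 2)⁻¹)
    (F' := fun x w => ψ w * (2 * w / (1 - x * w) ^ 3)) (x₀ := a)
    (bound := fun w => ‖ψ w‖ * (2 / (1 - (1 + ‖a‖) / 2) ^ 3)) hs ?_ (int_ker hψ ha) ?_ ?_
    (hψ.norm.mul_const _) ?_).2
  · exact Eventually.of_forall fun x =>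
      hψ.aestronglyMeasurable.mul (Measurable.aestronglyMeasurable (by fun_prop))
  · exact hψ.aestronglyMeasurable.mul (Measurable.aestronglyMeasurable (by fun_prop))
  · filter_upwards [ae_ball] with w hw x hx
    rw [norm_mul]
    exact mul_le_mul_of_nonneg_left (norm_der_le (mem_ball_zero_iff.mp hx).le hρ hw)
      (norm_nonneg _)
  · filter_upwards [ae_ball] with w hw x hx
    have hne := one_sub_pos ((mem_ball_zero_iff.mp hx).trans hρ) hw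
    have h1 : HasDerivAt (fun x : ℂ => 1 - x * w) (-w) x := by
      simpa using ((hasDerivAt_id x).mul_const w).const_sub 1
    refine (((h1.pow 2).inv (pow_ne_zero 2 hne)).const_mul (ψ w)).congr_deriv ?_
    simp only [Pi.pow_apply]
    field_simp
    ring

lemma gg_diff {ψ : ℂ → ℂ} (hψ : Integrable ψ μD) : DifferentiableOn ℂ (gg ψ) (ball 0 1) :=
  fun _ ha => (hasDerivAt_gg hψ (mem_ball_zero_iff.mp ha)).differentiableAt.differentiableWithinAt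

lemma alg_TV {x m a w A X : ℂ} (hA : A = 1 - a * w) (hX : X = 1 - m * w) (h1 : A ≠ 0) (h2 : X ≠ 0)
    (h3 : m - a ≠ 0) :
    x * (w / (A * X ^ 2) + w / (A ^ 2 * X)) = (x * (X ^ 2)⁻¹ - x * (A ^ 2)⁻¹) / (m - a) := by
  rw [eq_div_iff h3]
  field_simp
  rw [hA, hX]
  ring

lemma alg_TW {x m a l w A X Y : ℂ} (hA : A = 1 - a * w) (hX : X = 1 - m * w) (hY : Y = 1 - a * l)
    (h1 : A ≠ 0) (h2 : X ≠ 0) (h3 : Y ≠ 0) :
    (1 - l * m) * (x * ((a / (A ^ 2 * X) + m / (A * X ^ 2)) / Y)) =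
      m ^ 2 * (x * (w / (A * X ^ 2) + w / (A ^ 2 * X))) - m ^ 2 * (l / Y) * (x * (X ^ 2)⁻¹) +
        (a + m - l * m * a) / Y * (x * (A ^ 2)⁻¹) := by
  field_simp
  rw [hA, hX, hY]
  ring

lemma int_TV {ψ : ℂ → ℂ} (hψ : Integrable ψ μD) {m a : ℂ} (hm : ‖m‖ < 1) (ha : ‖a‖ < 1) :
    ∫ u, ψ u * TV m u a ∂μD = dslope (gg ψ) a m := by
  rcases eq_or_ne m a with rfl | h
  · rw [dslope_same, (hasDerivAt_gg hψ hm).deriv]
    refine integral_congr_ae ?_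
    filter_upwards [ae_ball] with w hw
    have := one_sub_pos hm hw
    unfold TV
    field_simp
    ring
  · rw [dslope_of_ne _ h, slope_def_field]
    unfold gg
    rw [← integral_sub (int_ker hψ hm) (int_ker hψ ha), ← integral_div]
    refine integral_congr_ae ?_
    filter_upwards [ae_ball] with w hw
    exact (alg_TV rfl rfl (one_sub_pos ha hw) (one_sub_pos hm hw) (sub_ne_zero.mpr h))

lemma int_TW {ψ : ℂ → ℂ} (hψ : Integrable ψ μD) {l a : ℂ} (hl : ‖l‖ < 1) (ha : ‖a‖ < 1)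
    (h0 : gg ψ a = 0) :
    (1 - l * conj l) * ∫ u, ψ u * TW l u a ∂μD =
      conj l ^ 2 * (dslope (gg ψ) a (conj l) - gg ψ (conj l) * (l / (1 - a * l))) := by
  have hm : ‖conj l‖ < 1 := by rwa [Complex.norm_conj]
  have hV : Integrable (fun u => ψ u * TV (conj l) u a) μD := by
    refine int_mul hψ (by unfold TV; fun_prop)
      (1 / ((1 - ‖a‖) * (1 - ‖conj l‖) ^ 2) + 1 / ((1 - ‖a‖) ^ 2 * (1 - ‖conj l‖))) fun w hw => ?_
    have h1 := norm_one_sub_mul_ge (a := a) hw.le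
    have h2 := norm_one_sub_mul_ge (a := conj l) hw.le
    have h3 : 0 < 1 - ‖a‖ := by linarith
    have h4 : 0 < 1 - ‖conj l‖ := by linarith
    unfold TV
    refine (norm_add_le _ _).trans (add_le_add ?_ ?_) <;> rw [norm_div, norm_mul, norm_pow]
    · exact div_le_div₀ zero_le_one hw.le (by positivity)
        (mul_le_mul h1 (pow_le_pow_left₀ h4.le h2 2) (by positivity) (norm_nonneg _))
    · exact div_le_div₀ zero_le_one hw.le (by positivity)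
        (mul_le_mul (pow_le_pow_left₀ h3.le h1 2) h2 h4.le (by positivity))
  have e : (1 - l * conj l) * ∫ u, ψ u * TW l u a ∂μD =
      ∫ u, (conj l ^ 2 * (ψ u * TV (conj l) u a) -
        conj l ^ 2 * (l / (1 - a * l)) * (ψ u * ((1 - conj l * u) ^ 2)⁻¹) +
        (a + conj l - l * conj l * a) / (1 - a * l) * (ψ u * ((1 - a * u) ^ 2)⁻¹)) ∂μD := by
    rw [← integral_const_mul]
    refine integral_congr_ae ?_
    filter_upwards [ae_ball] with w hw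
    exact alg_TW rfl rfl rfl (one_sub_pos ha hw) (one_sub_pos hm hw) (one_sub_pos ha hl)
  have hI : Integrable (fun u => conj l ^ 2 * (ψ u * TV (conj l) u a) -
      conj l ^ 2 * (l / (1 - a * l)) * (ψ u * ((1 - conj l * u) ^ 2)⁻¹)) μD :=
    (hV.const_mul _).sub ((int_ker hψ hm).const_mul _)
  rw [e, integral_add hI ((int_ker hψ ha).const_mul _), integral_sub (hV.const_mul _) ((int_ker hψ hm).const_mul _),
    integral_const_mul, integral_const_mul, integral_const_mul, int_TV hψ hm ha]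
  have h1 : ∫ u, ψ u * ((1 - a * u) ^ 2)⁻¹ ∂μD = 0 := h0
  have h2 : ∫ u, ψ u * ((1 - conj l * u) ^ 2)⁻¹ ∂μD = gg ψ (conj l) := rfl
  rw [h1, h2]
  ring

lemma gg_ne {ψ u : ℂ → ℂ} (hψm : Measurable ψ) (hψ : Integrable ψ μD)
    (hu : DifferentiableOn ℂ u (ball 0 1)) (hi : IntegrableOn u (ball (0 : ℂ) 1))
    (hB : BB ψ u ≠ ⊤) (hne : ∫ w, ψ w * u w ∂μD ≠ 0) : ∃ b ∈ ball (0 : ℂ) 1, gg ψ b ≠ 0 := by
  by_contra h
  push Not at h
  have hI := integrable_II hψm adm_three hi.aestronglyMeasurable hB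
  have e1 : LL ψ (fun z b => 2 / (1 - b * z) ^ 3) u = π * ∫ w, ψ w * u w ∂μD := by
    unfold LL
    rw [integral_prod _ hI, ← integral_const_mul]
    refine integral_congr_ae ?_
    filter_upwards [ae_ball] with z hz
    simp only [II]
    rw [integral_const_mul, rep3 hu hi hz]
    ring
  have e2 : LL ψ (fun z b => 2 / (1 - b * z) ^ 3) u = 0 := by
    unfold LL
    rw [integral_prod_symm _ hI]
    refine integral_eq_zero_of_ae ?_
    filter_upwards [ae_ball] with w hw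
    have hb : ‖conj w‖ < 1 := by rwa [Complex.norm_conj]
    have hbb : conj w ∈ ball (0 : ℂ) 1 := mem_ball_zero_iff.mpr hb
    have d1 : ∫ z, ψ z * (2 * z / (1 - conj w * z) ^ 3) ∂μD = 0 :=
      (hasDerivAt_gg hψ hb).unique ((hasDerivAt_const (conj w) (0 : ℂ)).congr_of_eventuallyEq
        (eventually_of_mem (isOpen_ball.mem_nhds hbb) h))
    have d2 : ∫ z, ψ z * ((1 - conj w * z) ^ 2)⁻¹ ∂μD = 0 := h _ hbb
    have i1 : Integrable (fun z => ψ z * (2 * z / (1 - conj w * z) ^ 3)) μD :=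
      int_mul hψ (by fun_prop) _ fun z hz => norm_der_le le_rfl hb hz
    have e : ∫ z, II ψ (fun z b => 2 / (1 - b * z) ^ 3) u (z, w) ∂μD =
        ∫ z, ((1 - ‖w‖ ^ 2 : ℝ) : ℂ) * u w * (2 * (ψ z * ((1 - conj w * z) ^ 2)⁻¹) +
          conj w * (ψ z * (2 * z / (1 - conj w * z) ^ 3))) ∂μD := by
      refine integral_congr_ae ?_
      filter_upwards [ae_ball] with z hz
      have := one_sub_pos hb hz
      simp only [II]
      field_simp
      ring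
    rw [e, integral_const_mul, integral_add ((int_ker hψ hb).const_mul _) (i1.const_mul _),
      integral_const_mul, integral_const_mul, d1, d2]
    simp
  rw [e2] at e1
  have hπ : (π : ℂ) ≠ 0 := by exact_mod_cast pi_ne_zero
  exact hne ((mul_eq_zero.mp e1.symm).resolve_left hπ)

end Pool.Agent.Lib.MP_435399_an.A1
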