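import Pool.Agent.Lib.MP_435399_an.A1.Defs

set_option autoImplicit false

open MeasureTheory Set Metric Real Complex Filter Topology ComplexConjugate

namespace Pool.Agent.Lib.MP_435399_an.A1

lemma pois_avg {z : ℂ} (hz : ‖z‖ < 1) {s : ℝ} (h0 : 0 < s) (h1 : s < 1) :
    circleAverage (fun l : ℂ => (((1 - ‖l‖ ^ 2) / ‖1 - conj l * z‖ ^ 2 : ℝ) : ℂ)) 0 s =
      (((1 - s ^ 2) / (1 - s ^ 2 * ‖z‖ ^ 2) : ℝ) : ℂ) := by
  have hn := norm_nonneg z
  have hw : ‖(s : ℂ) ^ 2 * z‖ = s ^ 2 * ‖z‖ := by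
    rw [norm_mul, norm_pow, Complex.norm_real, Real.norm_of_nonneg h0.le]
  have hsz : s * ‖z‖ < 1 := by nlinarith
  have hq : 0 < 1 - s ^ 2 * ‖z‖ ^ 2 := by
    have : 0 ≤ s * ‖z‖ := by positivity
    nlinarith
  have hb : (s : ℂ) ^ 2 * z ∈ ball (0 : ℂ) s := by
    rw [mem_ball_zero_iff, hw]
    nlinarith
  rw [← DiffContOnCl.circleAverage_poissonKernel_smul' (c := 0) (R := s)
    (f := fun _ => (((1 - s ^ 2) / (1 - s ^ 2 * ‖z‖ ^ 2) : ℝ) : ℂ)) diffContOnCl_const hb]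
  refine circleAverage_congr_sphere fun l hl => ?_
  rw [abs_of_pos h0, mem_sphere_zero_iff_norm] at hl
  have e : ‖l - (s : ℂ) ^ 2 * z‖ = s * ‖1 - conj l * z‖ := by
    have : l - (s : ℂ) ^ 2 * z = l * (1 - conj l * z) := by
      rw [mul_sub, ← mul_assoc, Complex.mul_conj', hl, mul_one]
    rw [this, norm_mul, hl]
  simp only [sub_zero, Complex.real_smul, ← Complex.ofReal_mul, e, hl, hw]
  congr 1
  rcases eq_or_ne ‖1 - conj l * z‖ 0 with h | h
  · simp [h]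
  · field_simp

theorem pois {z : ℂ} (hz : ‖z‖ < 1) {r1 r2 : ℝ} (h0 : 0 < r1) (h12 : r1 ≤ r2) (h2 : r2 < 1) :
    ∫⁻ l in {w : ℂ | ‖w‖ ∈ Icc r1 r2}, ENNReal.ofReal ((1 - ‖l‖ ^ 2) / ‖1 - conj l * z‖ ^ 2) ≤
      ENNReal.ofReal (π * (r2 ^ 2 - r1 ^ 2) * min 1 (2 * (1 - r1) / (1 - ‖z‖) ^ 2)) := by
  have hn := norm_nonneg z
  have hm : MeasurableSet {w : ℂ | ‖w‖ ∈ Icc r1 r2} := measurable_norm measurableSet_Icc
  have hc : ContinuousOn (fun l : ℂ => (1 - ‖l‖ ^ 2) / ‖1 - conj l * z‖ ^ 2)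
      {w : ℂ | ‖w‖ ∈ Icc r1 r2} := by
    refine ContinuousOn.div (by fun_prop) (by fun_prop) fun l hl => pow_ne_zero 2 ?_
    rw [norm_ne_zero_iff]
    exact one_sub_mul_ne (by rw [Complex.norm_conj]; exact hl.2.trans_lt h2) hz.le
  have hi := hc.integrableOn_compact (μ := volume) (isCompact_annulus r1 r2)
  rw [← ofReal_integral_eq_lintegral_ofReal hi ((ae_restrict_iff' hm).mpr
    (Eventually.of_forall fun l hl => div_nonneg (by
      have h3 : ‖l‖ ≤ r2 := hl.2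
      have := norm_nonneg l
      nlinarith) (by positivity)))]
  refine ENNReal.ofReal_le_ofReal ?_
  set m := min 1 (2 * (1 - r1) / (1 - ‖z‖) ^ 2) with hmd
  have h1 := polar_radial (F := fun l : ℂ => (((1 - ‖l‖ ^ 2) / ‖1 - conj l * z‖ ^ 2 : ℝ) : ℂ))
    (R := Icc r1 r2) measurableSet_Icc
    ((Complex.continuous_ofReal.comp_continuousOn hc).integrableOn_compact (isCompact_annulus r1 r2))
  rw [integral_complex_ofReal, inter_eq_self_of_subset_right
    (show Icc r1 r2 ⊆ Ioi 0 from fun s hs => h0.trans_le hs.1)] at h1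
  refine (le_abs_self _).trans ?_
  rw [← Real.norm_eq_abs, ← Complex.norm_real, h1]
  have h3 : ∫ s in Icc r1 r2, 2 * π * m * s = π * (r2 ^ 2 - r1 ^ 2) * m := by
    rw [integral_Icc_eq_integral_Ioc, ← intervalIntegral.integral_of_le h12,
      intervalIntegral.integral_const_mul, integral_id]
    ring
  rw [← h3]
  refine norm_integral_le_of_norm_le (Continuous.integrableOn_Icc (by fun_prop))
    ((ae_restrict_iff' measurableSet_Icc).mpr (Eventually.of_forall fun s hs => ?_))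
  have hs0 : 0 < s := h0.trans_le hs.1
  have hs1 : s < 1 := hs.2.trans_lt h2
  have hs2 : 0 < 1 - s ^ 2 := by nlinarith
  have hz2 : ‖z‖ ^ 2 ≤ ‖z‖ := by nlinarith
  have hz3 : s ^ 2 * ‖z‖ ^ 2 ≤ ‖z‖ := by nlinarith [sq_nonneg ‖z‖]
  have hq : 0 < 1 - s ^ 2 * ‖z‖ ^ 2 := by linarith
  have hqm : (1 - s ^ 2) / (1 - s ^ 2 * ‖z‖ ^ 2) ≤ m := by
    refine le_min ((div_le_one hq).mpr (by nlinarith [sq_nonneg s])) ?_
    have h4 : 0 < 1 - ‖z‖ := by linarith
    refine div_le_div₀ (by linarith) (by nlinarith [hs.1]) (by positivity) (by nlinarith)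
  rw [pois_avg hz hs0 hs1, norm_smul, Complex.norm_real, Real.norm_of_nonneg (by positivity),
    Real.norm_of_nonneg (by positivity)]
  calc _ ≤ 2 * π * s * m := by gcongr
    _ = _ := by ring

end Pool.Agent.Lib.MP_435399_an.A1
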