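import Pool.Agent.Lib.MP_435399_an.A1.FR

set_option autoImplicit false

open MeasureTheory Set Metric Real Complex Filter Topology ComplexConjugate

namespace Pool.Agent.Lib.MP_435399_an.A1

lemma sch_split {p : ℝ} (hp1 : 1 ≤ p) (K H τ : ENNReal) (h0 : τ ≠ 0) (ht : τ ≠ ⊤) :
    (K * H ^ p * τ ^ (p - 1)) ^ (1 / p) * (K * τ⁻¹) ^ (1 - 1 / p) = K * H := by
  have hp0 : 0 < p := by linarith
  have h1 : 0 ≤ 1 / p := by positivity
  have h2 : 0 ≤ 1 - 1 / p := by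
    rw [sub_nonneg, div_le_one hp0]
    exact hp1
  have e1 : (H ^ p) ^ (1 / p) = H := by
    rw [← ENNReal.rpow_mul, mul_one_div_cancel hp0.ne', ENNReal.rpow_one]
  have e2 : (τ ^ (p - 1)) ^ (1 / p) = τ ^ (1 - 1 / p) := by
    rw [← ENNReal.rpow_mul]
    congr 1
    field_simp
  have e3 : K ^ (1 / p) * K ^ (1 - 1 / p) = K := by
    rw [← ENNReal.rpow_add_of_nonneg _ _ h1 h2, add_sub_cancel, ENNReal.rpow_one]
  have e4 : τ ^ (1 - 1 / p) * τ⁻¹ ^ (1 - 1 / p) = 1 := by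
    rw [← ENNReal.mul_rpow_of_nonneg _ _ h2, ENNReal.mul_inv_cancel h0 ht, ENNReal.one_rpow]
  rw [ENNReal.mul_rpow_of_nonneg _ _ h1, ENNReal.mul_rpow_of_nonneg _ _ h1,
    ENNReal.mul_rpow_of_nonneg _ _ h2, e1, e2]
  calc _ = (K ^ (1 / p) * K ^ (1 - 1 / p)) * H * (τ ^ (1 - 1 / p) * τ⁻¹ ^ (1 - 1 / p)) := by ring
    _ = K * H := by rw [e3, e4, mul_one]

lemma sch_pow {q : ℝ} (h0 : 0 ≤ q) (h1 : q ≤ 1) (x : ENNReal) : x ^ q ≤ 1 + x := by
  rcases le_total x 1 with h | h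
  · exact (ENNReal.rpow_le_one h h0).trans le_self_add
  · have := ENNReal.rpow_le_rpow_of_exponent_le h h1
    rw [ENNReal.rpow_one] at this
    exact this.trans le_add_self

lemma sch_ae : ∀ᵐ w ∂μD, ‖w‖ < 1 :=
  (ae_restrict_mem measurableSet_ball).mono fun _ h => mem_ball_zero_iff.1 h

lemma sch_sq {w : ℂ} (hw : ‖w‖ < 1) : 0 ≤ 1 - ‖w‖ ^ 2 ∧ 1 - ‖w‖ ^ 2 ≤ 2 * (1 - ‖w‖) := by
  have := norm_nonneg w
  constructor <;> nlinarith

lemma sch_abs {p : ℝ} (hp1 : 1 ≤ p) (hp2 : p ≤ 2) (K : ℂ → ℂ → ENNReal) (τ : ℂ → ENNReal)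
    (D : ENNReal) (Dt : D ≠ ⊤) (mKK : Measurable fun q : ℂ × ℂ => K q.1 q.2) (mτ : Measurable τ)
    (τ0 : ∀ w : ℂ, ‖w‖ < 1 → τ w ≠ 0) (τt : ∀ w, τ w ≠ ⊤)
    (B1 : ∀ z : ℂ, ‖z‖ < 1 → ∫⁻ w, K z w * (τ w)⁻¹ ∂μD ≤ D * (τ z)⁻¹)
    (B2 : ∀ w : ℂ, ‖w‖ < 1 → ∫⁻ z, K z w ∂μD ≤ D)
    (B3 : ∀ w : ℂ, ‖w‖ < 1 → ∫⁻ z, τ w * (K z w * (τ z)⁻¹) ∂μD ≤ D) : ∃ C : ENNReal, C ≠ ⊤ ∧
    ∀ H : ℂ → ENNReal, Measurable H →
      ∫⁻ z, (∫⁻ w, K z w * H w ∂μD) ^ p ∂μD ≤ C * ∫⁻ w, H w ^ p ∂μD := by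
  have hp0 : 0 < p := by linarith
  have hq0 : 0 ≤ p - 1 := by linarith
  have hq1 : p - 1 ≤ 1 := by linarith
  have h1 : 0 ≤ 1 / p := by positivity
  have h2 : 0 ≤ 1 - 1 / p := by
    rw [sub_nonneg, div_le_one hp0]
    exact hp1
  have mK : ∀ z, Measurable fun w => K z w := fun z =>
    mKK.comp (measurable_const.prodMk measurable_id)
  have mK' : ∀ w, Measurable fun z => K z w := fun w =>
    mKK.comp (measurable_id.prodMk measurable_const)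
  have Dq : D ^ (p - 1) ≠ ⊤ := ENNReal.rpow_ne_top_of_nonneg hq0 Dt
  refine ⟨D ^ (p - 1) * (D + D), ENNReal.mul_ne_top Dq (ENNReal.add_ne_top.2 ⟨Dt, Dt⟩),
    fun H hH => ?_⟩
  have mH : Measurable fun w => H w ^ p := hH.pow_const p
  have key : ∀ z : ℂ, ‖z‖ < 1 → (∫⁻ w, K z w * H w ∂μD) ^ p ≤
      D ^ (p - 1) * ∫⁻ w, H w ^ p * (K z w + τ w * (K z w * (τ z)⁻¹)) ∂μD := fun z hz => by
    have hol := ENNReal.lintegral_mul_norm_pow_le (μ := μD)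
      (f := fun w => K z w * H w ^ p * τ w ^ (p - 1)) (g := fun w => K z w * (τ w)⁻¹)
      (((mK z).mul mH).mul (mτ.pow_const _)).aemeasurable ((mK z).mul mτ.inv).aemeasurable
      h1 h2 (by ring)
    rw [lintegral_congr_ae (sch_ae.mono fun w hw =>
      sch_split hp1 (K z w) (H w) (τ w) (τ0 w hw) (τt w))] at hol
    have it : (τ z)⁻¹ ^ (p - 1) ≠ ⊤ :=
      ENNReal.rpow_ne_top_of_nonneg hq0 (ENNReal.inv_ne_top.2 (τ0 z hz))
    calc _ ≤ ((∫⁻ w, K z w * H w ^ p * τ w ^ (p - 1) ∂μD) ^ (1 / p) *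
          (D * (τ z)⁻¹) ^ (1 - 1 / p)) ^ p :=
          ENNReal.rpow_le_rpow (hol.trans (mul_le_mul_right
            (ENNReal.rpow_le_rpow (B1 z hz) h2) _)) hp0.le
      _ = D ^ (p - 1) * ((∫⁻ w, K z w * H w ^ p * τ w ^ (p - 1) ∂μD) * (τ z)⁻¹ ^ (p - 1)) := by
          rw [ENNReal.mul_rpow_of_nonneg _ _ hp0.le, ← ENNReal.rpow_mul, ← ENNReal.rpow_mul,
            one_div_mul_cancel hp0.ne', ENNReal.rpow_one,
            show (1 - 1 / p) * p = p - 1 by field_simp, ENNReal.mul_rpow_of_nonneg _ _ hq0]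
          ring
      _ ≤ _ := by
          refine mul_le_mul_right ?_ _
          rw [← lintegral_mul_const' _ _ it]
          refine lintegral_mono fun w => ?_
          calc _ = H w ^ p * K z w * (τ w * (τ z)⁻¹) ^ (p - 1) := by
                rw [ENNReal.mul_rpow_of_nonneg _ _ hq0]
                ring
            _ ≤ H w ^ p * K z w * (1 + τ w * (τ z)⁻¹) :=
                mul_le_mul_right (sch_pow hq0 hq1 _) _
            _ = _ := by ring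
  have mG : Measurable (Function.uncurry fun z w : ℂ =>
      H w ^ p * (K z w + τ w * (K z w * (τ z)⁻¹))) :=
    (mH.comp measurable_snd).mul (mKK.add ((mτ.comp measurable_snd).mul
      (mKK.mul (mτ.comp measurable_fst).inv)))
  calc _ ≤ ∫⁻ z, D ^ (p - 1) *
        ∫⁻ w, H w ^ p * (K z w + τ w * (K z w * (τ z)⁻¹)) ∂μD ∂μD :=
        lintegral_mono_ae (sch_ae.mono key)
    _ = D ^ (p - 1) * ∫⁻ w, ∫⁻ z, H w ^ p * (K z w + τ w * (K z w * (τ z)⁻¹)) ∂μD ∂μD := by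
        rw [lintegral_const_mul' _ _ Dq, lintegral_lintegral_swap mG.aemeasurable]
    _ ≤ D ^ (p - 1) * ∫⁻ w, (D + D) * H w ^ p ∂μD := by
        refine mul_le_mul_right (lintegral_mono_ae (sch_ae.mono fun w hw => ?_)) _
        have m1 : Measurable fun z => K z w + τ w * (K z w * (τ z)⁻¹) :=
          (mK' w).add (measurable_const.mul ((mK' w).mul mτ.inv))
        rw [lintegral_const_mul _ m1, lintegral_add_left (mK' w), mul_comm]
        exact mul_le_mul_left (add_le_add (B2 w hw) (B3 w hw)) _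
    _ = _ := by rw [lintegral_const_mul _ mH, mul_assoc]

theorem schur {p : ℝ} (hp1 : 1 ≤ p) (hp2 : p ≤ 2) : ∃ C : ENNReal, C ≠ ⊤ ∧
    ∀ H : ℂ → ENNReal, Measurable H →
      ∫⁻ z, (∫⁻ w, KK z w * H w ∂μD) ^ p ∂μD ≤ C * ∫⁻ w, H w ^ p ∂μD := by
  obtain ⟨C, hC, hfr⟩ := fr_est
  set D : ENNReal := ENNReal.ofReal (2 * C) with hD
  let τ : ℂ → ENNReal := fun w => ENNReal.ofReal (√(1 - ‖w‖))
  have mτ : Measurable τ := Measurable.ennreal_ofReal (by fun_prop)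
  have s0 : ∀ w : ℂ, ‖w‖ < 1 → 0 < √(1 - ‖w‖) := fun w hw => Real.sqrt_pos.2 (by linarith)
  have τ0 : ∀ w : ℂ, ‖w‖ < 1 → τ w ≠ 0 := fun w hw => (ENNReal.ofReal_pos.2 (s0 w hw)).ne'
  have τt : ∀ w, τ w ≠ ⊤ := fun w => ENNReal.ofReal_ne_top
  have τi : ∀ w : ℂ, ‖w‖ < 1 → (τ w)⁻¹ = ENNReal.ofReal (√(1 - ‖w‖))⁻¹ := fun w hw =>
    (ENNReal.ofReal_inv_of_pos (s0 w hw)).symm
  have B1 : ∀ z : ℂ, ‖z‖ < 1 → ∫⁻ w, KK z w * (τ w)⁻¹ ∂μD ≤ D * (τ z)⁻¹ := fun z hz => by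
    calc _ ≤ ∫⁻ w, ENNReal.ofReal 2 *
          ENNReal.ofReal (√(1 - ‖w‖) / ‖1 - conj w * z‖ ^ 3) ∂μD := by
          refine lintegral_mono_ae (sch_ae.mono fun w hw => ?_)
          have a := s0 w hw
          have b := sch_sq hw
          have c : √(1 - ‖w‖) * √(1 - ‖w‖) = 1 - ‖w‖ := Real.mul_self_sqrt (by linarith)
          rw [τi w hw, KK, ← ENNReal.ofReal_mul (div_nonneg b.1 (by positivity)),
            ← ENNReal.ofReal_mul (by norm_num)]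
          refine ENNReal.ofReal_le_ofReal ?_
          rw [div_mul_eq_mul_div, ← mul_div_assoc]
          refine div_le_div_of_nonneg_right ?_ (by positivity)
          rw [mul_inv_le_iff₀ a]
          nlinarith [b.2]
      _ ≤ ENNReal.ofReal 2 * ENNReal.ofReal (C / √(1 - ‖z‖)) := by
          rw [lintegral_const_mul' _ _ ENNReal.ofReal_ne_top]
          exact mul_le_mul_right (hfr z hz).1 _
      _ = D * (τ z)⁻¹ := by
          rw [τi z hz, hD, ← ENNReal.ofReal_mul (by norm_num),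
            ← ENNReal.ofReal_mul (by positivity), div_eq_mul_inv, mul_assoc]
  have B2 : ∀ w : ℂ, ‖w‖ < 1 → ∫⁻ z, KK z w ∂μD ≤ D := fun w hw => by
    have b := sch_sq hw
    have a : 0 < 1 - ‖w‖ := by linarith
    calc _ = ∫⁻ z, ENNReal.ofReal (1 - ‖w‖ ^ 2) *
          ENNReal.ofReal (1 / ‖1 - conj w * z‖ ^ 3) ∂μD := by
          refine lintegral_congr fun z => ?_
          rw [KK, ← ENNReal.ofReal_mul b.1, mul_one_div]
      _ ≤ ENNReal.ofReal (1 - ‖w‖ ^ 2) * ENNReal.ofReal (C / (1 - ‖w‖)) := by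
          rw [lintegral_const_mul' _ _ ENNReal.ofReal_ne_top]
          exact mul_le_mul_right (hfr w hw).2.1 _
      _ ≤ D := by
          rw [← ENNReal.ofReal_mul b.1]
          refine ENNReal.ofReal_le_ofReal ?_
          rw [← mul_div_assoc, div_le_iff₀ a]
          nlinarith [b.2]
  have B3 : ∀ w : ℂ, ‖w‖ < 1 → ∫⁻ z, τ w * (KK z w * (τ z)⁻¹) ∂μD ≤ D := fun w hw => by
    have b := sch_sq hw
    have a : 0 < 1 - ‖w‖ := by linarith
    have c := s0 w hw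
    calc _ = ∫⁻ z, ENNReal.ofReal (√(1 - ‖w‖) * (1 - ‖w‖ ^ 2)) *
          ENNReal.ofReal (1 / (√(1 - ‖z‖) * ‖1 - conj w * z‖ ^ 3)) ∂μD := by
          refine lintegral_congr_ae (sch_ae.mono fun z hz => ?_)
          simp only
          rw [τi z hz, KK, ← ENNReal.ofReal_mul (div_nonneg b.1 (by positivity)),
            ← ENNReal.ofReal_mul c.le, ← ENNReal.ofReal_mul (mul_nonneg c.le b.1)]
          congr 1
          rw [one_div, mul_inv, div_eq_mul_inv]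
          ring
      _ ≤ ENNReal.ofReal (√(1 - ‖w‖) * (1 - ‖w‖ ^ 2)) *
          ENNReal.ofReal (C / ((1 - ‖w‖) * √(1 - ‖w‖))) := by
          rw [lintegral_const_mul' _ _ ENNReal.ofReal_ne_top]
          exact mul_le_mul_right (hfr w hw).2.2 _
      _ ≤ D := by
          rw [← ENNReal.ofReal_mul (mul_nonneg c.le b.1)]
          refine ENNReal.ofReal_le_ofReal ?_
          rw [← mul_div_assoc, div_le_iff₀ (mul_pos a c)]
          nlinarith [mul_le_mul_of_nonneg_left b.2 (mul_nonneg hC c.le)]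
  exact sch_abs hp1 hp2 KK τ D ENNReal.ofReal_ne_top measurable_KK mτ τ0 τt B1 B2 B3

end Pool.Agent.Lib.MP_435399_an.A1
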